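import Pool.Agent.Lib.MP_bbe012_lc.PN.Defs
import Pool.Agent.Lib.MP_bbe012_lc.PM.Wx

/-!
# Almost all supports: auxiliary definitions
-/

namespace Pool.Agent.Lib.MP_bbe012_lc.PN

open MvPolynomial MeasureTheory Set PP PG PM Filter Topology

/-! ## Regularised values -/

/-- `v` is the regularised value of the integral of `u` over the region: the integral of `u h ^ t`, defined for large `t`, has an analytic continuation `Ψ / Δ`, whose expansion for `t → 0+` has the constant term `v`. -/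
def RegV {s n r : ℕ} (p : Fin r → Pz s n) (θ : Fin s → ℝ) (u : (Fin n → ℝ) → ℝ) (v : ℝ) : Prop :=
  ∃ (Δ : Polynomial ℝ) (Ψ : ℝ → ℝ), Δ ≠ 0 ∧ AnalyticOnNhd ℝ Ψ (Ioi 0) ∧
    (∀ᶠ t : ℝ in atTop, IntegrableOn (fun x => u x * vl (hh p) θ x ^ t) (rg p θ) ∧
      Δ.eval t * ∫ x in rg p θ, u x * vl (hh p) θ x ^ t = Ψ t) ∧
    ∃ (L : ℕ) (a : Fin L → ℝ), Tendsto (fun t : ℝ => Ψ t / Δ.eval t - ∑ i, a i * t⁻¹ ^ ((i : ℕ) + 1)) (𝓝[>] 0) (𝓝 v)

/-! ## Specialisation of `θ` in polynomials with the parameter `t` -/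

/-- The polynomial in `t`. -/
noncomputable def spp {s : ℕ} (c : MvPolynomial (Fin (s + 1)) ℚ) (θ : Fin s → ℚ) : Polynomial ℚ :=
  aeval (Fin.snoc (fun i => Polynomial.C (θ i)) Polynomial.X : Fin (s + 1) → Polynomial ℚ) c

/-- The polynomial in `x` and `t` (`t` is the last variable of `Pt n`). -/
noncomputable def spx {s n : ℕ} (G : Pz (s + 1) n) (θ : Fin s → ℚ) : Pt n :=
  aeval (Sum.elim (Fin.snoc (fun i => C (θ i)) (X (Fin.last n)) : Fin (s + 1) → Pt n) fun i => X i.castSucc) G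

/-! ## Cells -/

/-- The sign. -/
def sg (b : Bool) : ℚ := if b = true then 1 else -1

/-- The polynomials which are positive on the cell with the signs `σ`, in the coordinates `y` of the cube. -/
noncomputable def psg {s : ℕ} (F : Sup s) (σ : Fin F.r → Bool) (j : Fin F.r) : Pz s F.n :=
  if σ j = true then sh (F.g j) else - sh (F.g j)

/-- The cells: a family and a sign for each of its polynomials. -/
abbrev Lam {s μ : ℕ} (F : Fin μ → Sup s) := Σ k : Fin μ, (Fin (F k).r → Bool)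

/-- Data attached to a cell: an exponent `k`, an order `j`, numerators `W`. -/
structure Bas (s n : ℕ) where
  k : ℕ
  j : ℕ
  N : ℕ
  W : Fin N → Pz s n

/-- Certificate that `P / Q` has the regularised value `∑ q_i V_i`. -/
def CertM {n N : ℕ} (h : MvPolynomial (Fin n) ℚ) (k j : ℕ) (W : Fin N → MvPolynomial (Fin n) ℚ) (q : Fin N → ℚ)
    (P Q : MvPolynomial (Fin n) ℚ) : Prop :=
  ∃ (s K : ℕ) (A : Polynomial ℚ) (w : Pt n) (g : Fin n → Pt n),
    beta n (Polynomial.X ^ s * (1 + Polynomial.X * A)) *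
      (hP P * hP h ^ (k + K + 1) - hP Q * hP (∑ i, C (q i) * W i) * hP h ^ (K + 1)) =
    hP Q * (beta n (Polynomial.X ^ (s + j)) * w + divg h (k + K) g)

/-- The certificate for the part of the integral `I` over a cell. -/
def CertC {s : ℕ} (F : Sup s) (σ : Fin F.r → Bool) (D : Bas s F.n) (θ : Fin s → ℚ) (I : IntCode) (q : Fin D.N → ℚ) :
    Prop :=
  CertM (spz (hh (psg F σ)) θ) D.k D.j (fun i => spz (D.W i) θ) q (pcPoly F.n (bdInt I).2.1.1)
    (pcPoly F.n (bdInt I).2.1.2)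

/-- The polynomial `p` has the sign `b` on the cell. -/
def SgnT {s : ℕ} (F : Sup s) (σ : Fin F.r → Bool) (θ : Fin s → ℚ) (b : Bool) (p : MvPolynomial (Fin F.n) ℚ) : Prop :=
  ∃ c κ, IsMon F θ c κ p ∧ 0 < sg b * c * ∏ j, sg (σ j) ^ κ j

/-- The indices of the functions. -/
abbrev Ix {s μ : ℕ} {F : Fin μ → Sup s} (D : (l : Lam F) → Bas s (F l.1).n) := Σ l : Lam F, Fin (D l).N

/-- The value of `I` is `∑ q V`, with certificate. -/
def RepN {s μ : ℕ} {F : Fin μ → Sup s} (D : (l : Lam F) → Bas s (F l.1).n) (θ : Fin s → ℚ) (I : IntCode) (q : Ix D → ℚ) :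
    Prop :=
  ∃ k : Fin μ, I.1 = (F k).n ∧ ∀ l : Lam F,
    (l.1 = k ∧ (∀ t ∈ I.2.2, SgnT (F l.1) l.2 θ true (pcPoly (F l.1).n t.2)) ∧
      CertC (F l.1) l.2 (D l) θ I fun i => q ⟨l, i⟩) ∨
    ((l.1 ≠ k ∨ ∃ t ∈ I.2.2, SgnT (F l.1) l.2 θ false (pcPoly (F l.1).n t.2)) ∧ ∀ i, q ⟨l, i⟩ = 0)

/-- The properties of the data attached to a cell which are used for the soundness of the certificates. -/
structure BasOK {s : ℕ} (F : Sup s) (σ : Fin F.r → Bool) (D : Bas s F.n) (z : MvPolynomial (Fin s) ℚ)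
    (V : Fin D.N → (Fin s → ℝ) → ℝ) : Prop where
  ana : ∀ i, AnalyticOnNhd ℝ (V i) {θ | aeval θ z ≠ 0}
  reg : ∀ θ : Fin s → ℝ, aeval θ z ≠ 0 → ∀ i,
    RegV (psg F σ) θ (fun y => vl (D.W i) θ y / vl (hh (psg F σ)) θ y ^ D.k) (V i θ)
  fe : ∀ θ : Fin s → ℚ, aeval (cst θ) z ≠ 0 → ∃ (kk : ℕ) (b : Polynomial ℚ), b ≠ 0 ∧ b.natDegree + 1 ≤ D.j ∧
    FEq (spz (hh (psg F σ)) θ) kk b
  nz : ∀ θ : Fin s → ℝ, aeval θ z ≠ 0 → ∀ j, ∃ x, vl (F.g j) θ x ≠ 0

/-- The fractions `W_i / h ^ k` span all fractions, modulo divergences and modulo `t ^ j`, up to factors. -/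
def SpanN {s n : ℕ} (h : Pz s n) (D : Bas s n) : Prop :=
  ∀ (κ M : ℕ) (w : Fin M → Pz s n), ∃ (d : MvPolynomial (Fin s) ℚ) (q : Fin M → Fin D.N → MvPolynomial (Fin s) ℚ)
    (s₀ : ℕ) (c : MvPolynomial (Fin (s + 1)) ℚ) (K : ℕ) (w' : Fin M → Pz (s + 1) n) (g : Fin M → Fin n → Pz (s + 1) n),
    d ≠ 0 ∧ spt 0 c ≠ 0 ∧ ∀ l, tz s n ^ s₀ * par n c *
      up (par n d * w l * h ^ (D.k + K + 1) - (∑ i, par n (q l i) * D.W i) * h ^ (κ + K + 1)) =
        tz s n ^ (s₀ + D.j) * w' l + dv h (D.k + κ + K) (g l)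

/-! ## Heights -/

/-- `a` is a rational number of height at most `T ^ B`, roughly. -/
def Ht (B T : ℕ) (a : ℚ) : Prop := |a| ≤ (T : ℚ) ^ B ∧ ∃ N : ℕ, 1 ≤ N ∧ N ≤ T ^ B ∧ ∃ x : ℤ, (N : ℚ) * a = x

/-! ## Expressions -/

/-- The linear form with coefficients `q`, in `N` variables. -/
noncomputable def lf {N : ℕ} (q : Fin N → ℚ) : MvPolynomial (Fin (N + 1)) ℚ := ∑ i, C (q i) * X i.castSucc

/-- The point `(V(θ), i)`; the last variable stands for the imaginary unit. -/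
noncomputable def ptI {N : ℕ} (v : Fin N → ℝ) : Fin (N + 1) → ℂ := Fin.snoc (fun i => (v i : ℂ)) Complex.I

/-- The expression as a polynomial in the values `V` and `i`. -/
noncomputable def exN {N : ℕ} (x : PCode × List PeriodCode) (q q' : Fin x.2.length → Fin N → ℚ) :
    MvPolynomial (Fin (N + 1)) ℚ :=
  aeval (fun i => lf (q i) + X (Fin.last N) * lf (q' i)) (pcPoly x.2.length x.1)

/-- The polynomials `R_a` in `θ` and the `N + 1` variables vanish on the graph of `(V, i)` over `Ω`. -/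
def GensOK {s N m : ℕ} (Ω : Set (Fin s → ℝ)) (V : Fin N → (Fin s → ℝ) → ℝ) (R : Fin m → Pz s (N + 1)) : Prop :=
  (∀ a, ∀ θ ∈ Ω, (aeval (Sum.elim (fun i => (θ i : ℂ)) (ptI fun i => V i θ)) (R a) : ℂ) = 0) ∧
    ∀ G : Pz s (N + 1), (∀ θ ∈ Ω, (aeval (Sum.elim (fun i => (θ i : ℂ)) (ptI fun i => V i θ)) G : ℂ) = 0) →
      ∃ C : Fin m → Pz s (N + 1), G = ∑ a, C a * R a

/-- There is a certificate for the vanishing of the expression `x`, in the component of `e`. -/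
def GoodX {s μ m : ℕ} {F : Fin μ → Sup s} (D : (l : Lam F) → Bas s (F l.1).n) (z : MvPolynomial (Fin s) ℚ) (e : Fin s → ℚ)
    (R : Fin m → Pz s (Fintype.card (Ix D) + 1)) (x : PCode × List PeriodCode) : Prop :=
  ∃ θ : Fin s → ℚ, cst θ ∈ Om z e ∧ ∃ q q' : Fin x.2.length → Fin (Fintype.card (Ix D)) → ℚ,
    (∀ i, RepN D θ (x.2.get i).1 (fun y => q i (Fintype.equivFin _ y)) ∧
      RepN D θ (x.2.get i).2 fun y => q' i (Fintype.equivFin _ y)) ∧
    ∃ C : Fin m → MvPolynomial (Fin (Fintype.card (Ix D) + 1)) ℚ, exN x q q' = ∑ a, C a * spz (R a) θ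

end Pool.Agent.Lib.MP_bbe012_lc.PN
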