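import Pool.Agent.Lib.MP_bbe012_lc.PN.Dy
import Pool.Agent.Lib.MP_bbe012_lc.PM.GB

/-!
# Generic finiteness modulo `t ^ j` (helper91)
-/

namespace Pool.Agent.Lib.MP_bbe012_lc.PN

open MvPolynomial MeasureTheory Set PP PG PM Filter Topology

/-- Finiteness.

Proof. Let `𝕜 = Frac ℚ[θ, t]`, `K = Frac ℚ[θ]`; `H = Loc h / exact` has finite dimension `m` over `𝕜`. Any `m + 1` classes of fractions `w / h ^ κ` with `w ∈ K[x]` satisfy a relation with coefficients in `K[t]`, not all divisible by `t`. So if `L` is the `K[t]`-span of these classes, `dim_K L / t L ≤ m` and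
`dim_K L / t ^ j L ≤ m j`; hence finitely many fractions `W_i / h ^ (k_i)` with `W_i ∈ ℚ[θ][x]` span the image of the `K`-space of all the `w / h ^ κ` in `L / t ^ j L`; bring them to a common exponent `k`. For given `w_l / h ^ κ` this gives `q_(l, i) ∈ K` and an element of `t ^ j L`; clear the denominators. -/
theorem gen_basis {s n : ℕ} {h : Pz s n} (h0 : h ≠ 0) (j : ℕ) : ∃ D : Bas s n, D.j = j ∧ SpanN h D := by
  obtain ⟨k, N, W, H⟩ := GB.gen_basis h0 j
  exact ⟨⟨k, j, N, W⟩, rfl, H⟩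

end Pool.Agent.Lib.MP_bbe012_lc.PN
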