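import Pool.Agent.Lib.MP_bbe012_lc.PN.BReg
import Pool.Agent.Lib.MP_bbe012_lc.PM.Vx
import Pool.Agent.Lib.MP_bbe012_lc.PM.Tay

/-!
# Regularised values as analytic functions (helper76)
-/

namespace Pool.Agent.Lib.MP_bbe012_lc.PN

open MvPolynomial MeasureTheory Set PP PG PM Filter Topology
open scoped Nat

/-- The polynomial `f(θ, t + M)` in `t`, with real coefficients. -/
noncomputable def vrp {s : ℕ} (M : ℕ) (θ : Fin s → ℝ) (f : MvPolynomial (Fin (s + 1)) ℚ) : Polynomial ℝ :=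
  aeval (Fin.snoc (fun i => Polynomial.C (θ i)) (Polynomial.X + Polynomial.C (M : ℝ)) : Fin (s + 1) → Polynomial ℝ) f

theorem vrp_eval {s : ℕ} (M : ℕ) (θ : Fin s → ℝ) (f : MvPolynomial (Fin (s + 1)) ℚ) (t : ℝ) :
    (vrp M θ f).eval t = aeval (Fin.snoc θ (t + M) : Fin (s + 1) → ℝ) f := by
  induction f using MvPolynomial.induction_on with
  | C a => rw [vrp, aeval_C, aeval_C]; simp [Polynomial.algebraMap_apply]
  | add p q hp hq =>
    have h1 : vrp M θ (p + q) = vrp M θ p + vrp M θ q := map_add _ _ _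
    rw [h1, Polynomial.eval_add, hp, hq, map_add]
  | mul_X p i hp =>
    have h1 : vrp M θ (p * X i) = vrp M θ p * vrp M θ (X i) := map_mul _ _ _
    rw [h1, Polynomial.eval_mul, hp, map_mul]
    refine congrArg (HMul.hMul _) ?_
    rw [vrp, aeval_X, aeval_X]
    refine Fin.lastCases ?_ (fun i => ?_) i
    · simp
    · simp

theorem FI_shiftN {s n r : ℕ} (p : Fin r → Pz s n) (w : Pz s n) (k M : ℕ) (θ : Fin s → ℝ) (t : ℝ) :
    FI p (up w) (k + M) θ (t + M) = ∫ x in rg p θ, vl w θ x * vl (hh p) θ x ^ (t - k) := by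
  rw [FI]
  refine setIntegral_congr_fun (vx_rg_meas p θ) fun x _ => ?_
  change vl (up w) (Fin.snoc θ (t + M) : Fin (s + 1) → ℝ) x * vl (hh p) θ x ^ (t + M - ((k + M : ℕ) : ℝ)) =
    vl w θ x * vl (hh p) θ x ^ (t - k)
  have h : t + M - ((k + M : ℕ) : ℝ) = t - k := by
    push_cast
    ring
  rw [vx_vl_up, h]

/-- The regularised values of finitely many fractions are analytic functions of `θ`, outside `z = 0`.

Proof. That of `exists_V` (PM/Vx.lean): `M` and the system for the `FI p (e b) k₀` as there. For `W_i`: `exists_span` for `up (W i)`, `k + M` gives `δ_i, c_i, K_i`; `δ_i = (t - M) ^ ν_i δ'_i`, `spt M δ'_i ≠ 0` (`exists_factor`). For `θ` with all these numbers `≠ 0`: `Δ(t) = δ_i(θ, t + M)` (a polynomial in `t` with real coefficients, not zero), `Ψ(t) = ∑ b, c_ib(θ, t + M) FI p (e b) k₀ θ (t + M)`, analytic for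
`t > 0` (and near `0`: `FI_analytic`, `k₀ + 2 ≤ M`), and `Δ(t) ∫ (W_i / h ^ k) h ^ t = Ψ(t)` for `t` large (`FI_span`, as in `reg_large`). `H(θ, t) = ∑ b, c_ib(θ, t + M) FI p (e b) k₀ θ (t + M) / δ'_i(θ, t + M)` is analytic at `(θ, 0)`, `Ψ / Δ = t ^ (-ν) H`; Taylor expansion of `H(θ, ·)` at `0` up to the order `ν`: the constant term is
`V_i(θ) = (1 / ν!) ∂_t ^ ν H(θ, 0)` (`analyticAt_iteratedDeriv`, `L = ν`). -/
theorem exists_VR {s n r N : ℕ} (p : Fin r → Pz s n) (hp : hh p ≠ 0) (W : Fin N → Pz s n) (k : ℕ) :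
    ∃ (z : MvPolynomial (Fin s) ℚ) (V : Fin N → (Fin s → ℝ) → ℝ), z ≠ 0 ∧
      (∀ i, AnalyticOnNhd ℝ (V i) {θ | aeval θ z ≠ 0}) ∧
      ∀ θ : Fin s → ℝ, aeval θ z ≠ 0 → ∀ i, RegV p θ (fun y => vl (W i) θ y / vl (hh p) θ y ^ k) (V i θ) := by
  obtain ⟨m, k₀, e, hspan⟩ := exists_span hp
  choose δ c K g hδ hK hK0 hid using fun q : Fin s × Fin m => hspan (td (hh p) k₀ (e q.2) q.1) (k₀ + 1)
  obtain ⟨M, hM, hM2⟩ := exists_M (f := ∏ q, δ q) (Finset.prod_ne_zero_iff.mpr fun q _ => hδ q)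
    (k₀ + 2 + ∑ q, (K q + 2))
  have hMK : ∀ q, K q + 2 ≤ M := fun q => by
    have := Finset.single_le_sum (f := fun q => K q + 2) (fun _ _ => Nat.zero_le _) (Finset.mem_univ q)
    omega
  choose δ' c' K' g' hδ' hK' hK0' hid' using fun i => hspan (up (W i)) (k + M)
  obtain ⟨ν, Δ1, hΔ1, hΔ1'⟩ := exists_factor M (f := ∏ i, δ' i)
    (Finset.prod_ne_zero_iff.mpr fun i _ => hδ' i)
  set H : Fin N → (Fin s → ℝ) × ℝ → ℝ := fun i q =>
    (∑ b, (aeval (Fin.snoc q.1 q.2 : Fin (s + 1) → ℝ) (c' i b * ∏ j ∈ Finset.univ.erase i, δ' j) : ℝ) *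
      FI p (e b) k₀ q.1 q.2) / (aeval (Fin.snoc q.1 q.2 : Fin (s + 1) → ℝ) Δ1 : ℝ) with hHdef
  have hHan : ∀ θ : Fin s → ℝ, aeval θ (spt M Δ1 * spt M (∏ q, δ q)) ≠ (0 : ℝ) → ∀ i,
      AnalyticAt ℝ (H i) (θ, (M : ℝ)) := by
    intro θ hθ i
    rw [map_mul, mul_ne_zero_iff, aeval_spt, aeval_spt] at hθ
    obtain ⟨hθ1, hθ2⟩ := hθ
    rw [map_prod, Finset.prod_ne_zero_iff] at hθ2
    refine AnalyticAt.div ?_ (analyticAt_poly _ _) hθ1
    refine Finset.analyticAt_fun_sum _ fun b _ => (analyticAt_poly _ _).mul ?_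
    exact FI_analyticAt p k₀ M hK hK0 hid (by omega) hMK θ (fun q => hθ2 q (Finset.mem_univ q)) b
  have hfac : (ν ! : ℝ) ≠ 0 := by exact_mod_cast Nat.factorial_ne_zero ν
  refine ⟨spt M Δ1 * spt M (∏ q, δ q), fun i θ => iteratedDeriv ν (fun t => H i (θ, t)) M / (ν ! : ℝ),
    mul_ne_zero hΔ1' hM2, ?_, ?_⟩
  · intro i θ hθ
    exact (analyticAt_iteratedDeriv (hHan θ hθ i) ν).div analyticAt_const hfac
  · intro θ hθ i
    have hθ1 : (aeval (Fin.snoc θ (M : ℝ) : Fin (s + 1) → ℝ) Δ1 : ℝ) ≠ 0 := by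
      rw [map_mul, mul_ne_zero_iff, aeval_spt] at hθ
      exact hθ.1
    have hadd : ∀ t : ℝ, AnalyticAt ℝ (fun t : ℝ => t + (M : ℝ)) t :=
      fun t => analyticAt_id.add analyticAt_const
    have hpoly : ∀ (f : MvPolynomial (Fin (s + 1)) ℚ) (t : ℝ),
        AnalyticAt ℝ (fun t : ℝ => (aeval (Fin.snoc θ (t + M) : Fin (s + 1) → ℝ) f : ℝ)) t := by
      intro f t
      exact AnalyticAt.comp (g := fun t : ℝ => (aeval (Fin.snoc θ t : Fin (s + 1) → ℝ) f : ℝ))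
        (f := fun t : ℝ => t + (M : ℝ)) (x := t) (analyticAt_poly_t f θ (t + M)) (hadd t)
    have hA : AnalyticOnNhd ℝ (fun t : ℝ => ∑ b,
        (aeval (Fin.snoc θ (t + M) : Fin (s + 1) → ℝ) (c' i b * ∏ j ∈ Finset.univ.erase i, δ' j) : ℝ) *
          FI p (e b) k₀ θ (t + M)) (Ioi 0) := by
      intro t ht
      refine Finset.analyticAt_fun_sum _ fun b _ => (hpoly _ t).mul ?_
      refine AnalyticAt.comp (g := fun t : ℝ => FI p (e b) k₀ θ t) (f := fun t : ℝ => t + (M : ℝ))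
        (x := t) (FI_analytic p (e b) k₀ θ ?_) (hadd t)
      have h1 : ((k₀ + 2 : ℕ) : ℝ) ≤ M := by exact_mod_cast (show k₀ + 2 ≤ M by omega)
      push_cast at h1
      have h2 : (0 : ℝ) < t := ht
      linarith
    have hval : ∀ t : ℝ, (vrp M θ (∏ i, δ' i)).eval t =
        t ^ ν * (aeval (Fin.snoc θ (t + M) : Fin (s + 1) → ℝ) Δ1 : ℝ) := by
      intro t
      rw [vrp_eval, hΔ1, map_mul, map_pow, aeval_tM, add_sub_cancel_right]
    have hne : ∀ᶠ t : ℝ in 𝓝[>] 0, (aeval (Fin.snoc θ (t + M) : Fin (s + 1) → ℝ) Δ1 : ℝ) ≠ 0 := by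
      refine nhdsWithin_le_nhds ((hpoly Δ1 0).continuousAt.eventually_ne ?_)
      rw [zero_add]; exact hθ1
    refine ⟨vrp M θ (∏ i, δ' i), fun t : ℝ => ∑ b,
        (aeval (Fin.snoc θ (t + M) : Fin (s + 1) → ℝ) (c' i b * ∏ j ∈ Finset.univ.erase i, δ' j) : ℝ) *
          FI p (e b) k₀ θ (t + M), ?_, hA, ?_, ?_⟩
    · intro h0
      obtain ⟨t, ht, ht1⟩ := (hne.and self_mem_nhdsWithin).exists
      have ht2 : (0 : ℝ) < t := ht1
      have h1 := hval t
      rw [h0, Polynomial.eval_zero] at h1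
      exact mul_ne_zero (pow_ne_zero ν ht2.ne') ht h1.symm
    · filter_upwards [eventually_gt_atTop ((K' i : ℝ) + 1), eventually_ge_atTop (k : ℝ)] with t ht1 ht2
      have hfun : ∀ x ∈ rg p θ, vl (W i) θ x / vl (hh p) θ x ^ k * vl (hh p) θ x ^ t =
          vl (W i) θ x * vl (hh p) θ x ^ (t - k) := by
        intro x hx
        have hpx := vx_hh_pos p θ hx
        rw [Real.rpow_sub hpx, Real.rpow_natCast, div_mul_eq_mul_div, mul_div_assoc]
      refine ⟨?_, ?_⟩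
      · refine (vx_int p θ (vx_vl_cont (W i) θ) (sub_nonneg.mpr ht2)).congr_fun ?_ (vx_rg_meas p θ)
        intro x hx
        exact (hfun x hx).symm
      · have h0 : ∫ x in rg p θ, vl (W i) θ x / vl (hh p) θ x ^ k * vl (hh p) θ x ^ t =
            FI p (up (W i)) (k + M) θ (t + M) := by
          rw [FI_shiftN]
          exact setIntegral_congr_fun (vx_rg_meas p θ) hfun
        have h1 := FI_span p (hK' i) (hK0' i) (hid' i) θ (t := t + M) (by
          have hM0 : (0 : ℝ) ≤ M := Nat.cast_nonneg M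
          linarith)
        have h2 : (aeval (Fin.snoc θ (t + M) : Fin (s + 1) → ℝ) (∏ i, δ' i) : ℝ) =
            aeval (Fin.snoc θ (t + M) : Fin (s + 1) → ℝ) (∏ j ∈ Finset.univ.erase i, δ' j) *
              aeval (Fin.snoc θ (t + M) : Fin (s + 1) → ℝ) (δ' i) := by
          rw [← map_mul, mul_comm, Finset.mul_prod_erase _ _ (Finset.mem_univ i)]
        change (vrp M θ (∏ i, δ' i)).eval t * _ = ∑ b,
          (aeval (Fin.snoc θ (t + M) : Fin (s + 1) → ℝ) (c' i b * ∏ j ∈ Finset.univ.erase i, δ' j) : ℝ) *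
            FI p (e b) k₀ θ (t + M)
        rw [h0, vrp_eval, h2, mul_assoc, h1, Finset.mul_sum]
        refine Finset.sum_congr rfl fun b _ => ?_
        rw [map_mul]
        ring
    · have hslice : AnalyticAt ℝ (fun t : ℝ => H i (θ, t + M)) 0 := by
        have h1 : AnalyticAt ℝ (H i) (θ, (0 : ℝ) + M) := by rw [zero_add]; exact hHan θ hθ i
        exact AnalyticAt.comp (g := H i) (f := fun t : ℝ => (θ, t + (M : ℝ))) (x := (0 : ℝ)) h1
          (analyticAt_const.prod (hadd 0))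
      obtain ⟨a, ha⟩ := tendsto_laurent ν hslice
      have h4 := congrFun (iteratedDeriv_comp_add_const (n := ν) (f := fun t => H i (θ, t)) (M : ℝ)) 0
      rw [zero_add] at h4
      have h5 : iteratedDeriv ν (fun t : ℝ => H i (θ, t + M)) 0 = iteratedDeriv ν (fun t => H i (θ, t)) M := h4
      rw [h5] at ha
      refine ⟨ν, a, ha.congr' ?_⟩
      filter_upwards [hne, self_mem_nhdsWithin] with t ht ht1
      have ht2 : (0 : ℝ) < t := ht1
      have h6 : t⁻¹ ^ ν * H i (θ, t + M) = (∑ b,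
          (aeval (Fin.snoc θ (t + M) : Fin (s + 1) → ℝ) (c' i b * ∏ j ∈ Finset.univ.erase i, δ' j) : ℝ) *
            FI p (e b) k₀ θ (t + M)) / (vrp M θ (∏ i, δ' i)).eval t := by
        rw [hval, inv_pow, hHdef]
        change (t ^ ν)⁻¹ * (_ / _) = _
        rw [inv_mul_eq_div, div_div, mul_comm (aeval (Fin.snoc θ (t + M) : Fin (s + 1) → ℝ) Δ1 : ℝ)]
      rw [h6]

end Pool.Agent.Lib.MP_bbe012_lc.PN
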