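import Pool.Agent.Lib.MP_bbe012_lc.PN.CNum

/-!
# Existence of the certificates
-/

namespace Pool.Agent.Lib.MP_bbe012_lc.PN

open MvPolynomial MeasureTheory Set PP PG PM Filter Topology

private theorem cc_up {s n : ℕ} (G : Pz s n) (θ : Fin s → ℚ) : spx (up G) θ = hP (spz G θ) := by
  induction G using MvPolynomial.induction_on with
  | C a =>
    rw [up, rename_C, spx, spz, aeval_C, aeval_C]
    simp only [algebraMap_eq, hP_C]
  | add p q hp hq =>
    have e1 : spx (up (p + q)) θ = spx (up p) θ + spx (up q) θ := by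
      rw [up, up, up, spx, spx, spx, map_add, map_add]
    have e2 : spz (p + q) θ = spz p θ + spz q θ := by
      rw [spz, spz, spz, map_add]
    rw [e1, e2, hp, hq, hP, hP, hP, map_add]
  | mul_X p i hp =>
    have e1 : spx (up (p * X i)) θ = spx (up p) θ * spx (up (X i)) θ := by
      rw [up, up, up, spx, spx, spx, map_mul, map_mul]
    have e2 : spz (p * X i) θ = spz p θ * spz (X i) θ := by
      rw [spz, spz, spz, map_mul]
    rw [e1, e2, hP_mul, hp]
    congr 1
    rw [up, rename_X, spx, spz, aeval_X, aeval_X]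
    rcases i with i | i
    · simp only [Sum.map_inl, Sum.elim_inl, Fin.snoc_castSucc, hP_C]
    · simp only [Sum.map_inr, Sum.elim_inr, id_eq, hP, rename_X]

private theorem cc_tz {s n : ℕ} (θ : Fin s → ℚ) : spx (tz s n) θ = X (Fin.last n) := by
  rw [tz, spx, aeval_X]
  simp only [Sum.elim_inl, Fin.snoc_last]

private theorem cc_pd {s n : ℕ} (G : Pz (s + 1) n) (l : Fin n) (θ : Fin s → ℚ) :
    spx (pderiv (Sum.inr l) G) θ = pderiv l.castSucc (spx G θ) := by
  induction G using MvPolynomial.induction_on with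
  | C a =>
    rw [pderiv_C, spx, spx, map_zero, aeval_C, algebraMap_eq, pderiv_C]
  | add p q hp hq =>
    have e1 : ∀ a b : Pz (s + 1) n, spx (a + b) θ = spx a θ + spx b θ := fun a b => by
      rw [spx, spx, spx, map_add]
    rw [map_add, e1, e1, map_add, hp, hq]
  | mul_X p i hp =>
    have e1 : ∀ a b : Pz (s + 1) n, spx (a + b) θ = spx a θ + spx b θ := fun a b => by
      rw [spx, spx, spx, map_add]
    have e2 : ∀ a b : Pz (s + 1) n, spx (a * b) θ = spx a θ * spx b θ := fun a b => by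
      rw [spx, spx, spx, map_mul]
    have e3 : spx (pderiv (Sum.inr l) (X i : Pz (s + 1) n)) θ = pderiv l.castSucc (spx (X i : Pz (s + 1) n) θ) := by
      rw [pderiv_X]
      rcases i with i | i
      · have h1 : (Pi.single (Sum.inr l) (1 : Pz (s + 1) n) : Fin (s + 1) ⊕ Fin n → Pz (s + 1) n) (Sum.inl i) = 0 :=
          Pi.single_eq_of_ne (by simp) _
        rw [h1, spx, map_zero, spx, aeval_X, Sum.elim_inl]
        refine Fin.lastCases ?_ (fun m => ?_) i
        · rw [Fin.snoc_last, pderiv_X]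
          rw [Pi.single_apply, if_neg (Fin.castSucc_lt_last l).ne']
        · rw [Fin.snoc_castSucc, pderiv_C]
      · rw [spx, spx, aeval_X, Sum.elim_inr, pderiv_X]
        by_cases h : i = l
        · subst h
          rw [Pi.single_eq_same, Pi.single_eq_same, map_one]
        · rw [Pi.single_eq_of_ne (fun h1 => h (Sum.inr_injective h1)), map_zero,
            Pi.single_eq_of_ne (fun h1 => h (Fin.castSucc_injective n h1))]
    rw [pderiv_mul, e1, e2, e2, e2, pderiv_mul, hp, e3]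

/-- Specialisation of divergences. Proof: `spx` is an algebra homomorphism; `pderiv (castSucc l) (spx G θ) = spx (pderiv (inr l) G) θ` (induction on `G`), `spx (up h) θ = hP (spz h θ)`, `spx (tz s n) θ = X (last n)`. -/
theorem spx_dv {s n : ℕ} (h : Pz s n) (K : ℕ) (g : Fin n → Pz (s + 1) n) (θ : Fin s → ℚ) :
    spx (dv h K g) θ = divg (spz h θ) K fun l => spx (g l) θ := by
  have e0 : spx (dv h K g) θ = ∑ l, (spx (up h) θ * spx (pderiv (Sum.inr l) (g l)) θ +
      (spx (tz s n) θ - (K : Pt n)) * (spx (pderiv (Sum.inr l) (up h)) θ * spx (g l) θ)) := by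
    rw [dv, spx, map_sum]
    refine Finset.sum_congr rfl fun l _ => ?_
    rw [map_add, map_mul, map_mul, map_mul, map_sub, map_natCast]
    rfl
  rw [e0, divg]
  refine Finset.sum_congr rfl fun l _ => ?_
  rw [cc_up, cc_tz, cc_pd, cc_pd, cc_up]

private theorem cc_par {s n : ℕ} (c : MvPolynomial (Fin (s + 1)) ℚ) (θ : Fin s → ℚ) :
    spx (par n c) θ = beta n (spp c θ) := by
  induction c using MvPolynomial.induction_on with
  | C a =>
    rw [par, rename_C, spx, aeval_C, spp, aeval_C, beta]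
    simp
  | add p q hp hq =>
    have e1 : spx (par n (p + q)) θ = spx (par n p) θ + spx (par n q) θ := by
      rw [par, par, par, spx, spx, spx, map_add, map_add]
    have e2 : spp (p + q) θ = spp p θ + spp q θ := by
      rw [spp, spp, spp, map_add]
    rw [e1, e2, map_add, hp, hq]
  | mul_X p i hp =>
    have e1 : spx (par n (p * X i)) θ = spx (par n p) θ * spx (par n (X i)) θ := by
      rw [par, par, par, spx, spx, spx, map_mul, map_mul]
    have e2 : spp (p * X i) θ = spp p θ * spp (X i) θ := by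
      rw [spp, spp, spp, map_mul]
    rw [e1, e2, map_mul, hp]
    congr 1
    rw [par, rename_X, spx, aeval_X, Sum.elim_inl, spp, aeval_X]
    refine Fin.lastCases ?_ (fun m => ?_) i
    · rw [Fin.snoc_last, Fin.snoc_last, beta]
      simp
    · rw [Fin.snoc_castSucc, Fin.snoc_castSucc, beta]
      simp

private theorem cc_eval0 {s : ℕ} (c : MvPolynomial (Fin (s + 1)) ℚ) (θ : Fin s → ℚ) :
    (spp c θ).coeff 0 = eval θ (spt 0 c) := by
  rw [Polynomial.coeff_zero_eq_eval_zero]
  induction c using MvPolynomial.induction_on with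
  | C a =>
    rw [spp, aeval_C, spt, aeval_C]
    simp
  | add p q hp hq =>
    have e2 : spp (p + q) θ = spp p θ + spp q θ := by
      rw [spp, spp, spp, map_add]
    rw [e2, Polynomial.eval_add, hp, hq, map_add, map_add]
  | mul_X p i hp =>
    have e2 : spp (p * X i) θ = spp p θ * spp (X i) θ := by
      rw [spp, spp, spp, map_mul]
    rw [e2, Polynomial.eval_mul, hp, map_mul, map_mul]
    congr 1
    rw [spp, aeval_X, spt, aeval_X]
    refine Fin.lastCases ?_ (fun m => ?_) i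
    · rw [Fin.snoc_last, Fin.snoc_last]
      simp
    · rw [Fin.snoc_castSucc, Fin.snoc_castSucc]
      simp

private theorem cc_divg_C {n : ℕ} (h : MvPolynomial (Fin n) ℚ) (K : ℕ) (b : ℚ) (g : Fin n → Pt n) :
    divg h K (fun l => C b * g l) = C b * divg h K g := by
  rw [divg, divg, Finset.mul_sum]
  refine Finset.sum_congr rfl fun l _ => ?_
  rw [pderiv_mul, pderiv_C]
  ring

private theorem cc_divg_sum {n : ℕ} {ι : Type} [Fintype ι] (h : MvPolynomial (Fin n) ℚ) (K : ℕ) (b : ι → ℚ)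
    (g : ι → Fin n → Pt n) :
    divg h K (fun m => ∑ l, C (b l) * g l m) = ∑ l, C (b l) * divg h K (g l) := by
  have e : (fun m => ∑ l, C (b l) * g l m) = ∑ l, (fun m => C (b l) * g l m) := by
    funext m
    rw [Finset.sum_apply]
  rw [e, divg_sum]
  exact Finset.sum_congr rfl fun l _ => cc_divg_C h K (b l) (g l)

/-- From a generic identity to certificates at `θ`.

Proof. `SpanN` for `κ := K₀` and the finite family `w` (reindexed by `Fin M`). Let `θ` be rational with `d(θ) ≠ 0`, `c(θ, 0) ≠ 0` (these are the factors of `z'`), `P' h ^ K₀ = (∑ l, a_l w_l(θ)) Q'`. Specialise the identities (`spx`), multiply by `a_l / d(θ)` and add up: `t ^ s₀ c_θ(t) (W₁ h ^ (k + K + 1) - (∑ i, q_i W_i) h ^ (K₀ + K + 1)) = t ^ (s₀ + j) w' + divg h (k + K₀ + K) g'` with `W₁ = ∑ a_l w_l(θ)`,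
`q_i = ∑ l, a_l q_(l,i)(θ) / d(θ)`. Multiply by `Q' / c_θ(0)`, and `W₁ Q' = P' h ^ K₀`: this is `CertM` with `K := K₀ + K`, `s := s₀`, `1 + X A = c_θ / c_θ(0)` (`Polynomial.X_dvd_sub_C`-like). -/
theorem exists_cert {s n : ℕ} {h : Pz s n} {D : Bas s n} (hD : SpanN h D) {ι : Type} [Fintype ι] [DecidableEq ι] (K₀ : ℕ)
    (w : ι → Pz s n) :
    ∃ (z' : MvPolynomial (Fin s) ℚ) (q : ι → Fin D.N → MvPolynomial (Fin s) ℚ), z' ≠ 0 ∧
      ∀ θ : Fin s → ℚ, eval θ z' ≠ 0 → ∀ (a : ι → ℚ) (P Q : MvPolynomial (Fin n) ℚ),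
        P * spz h θ ^ K₀ = (∑ l, C (a l) * spz (w l) θ) * Q →
          CertM (spz h θ) D.k D.j (fun i => spz (D.W i) θ) (fun i => ∑ l, a l * (eval θ (q l i) / eval θ z')) P Q := by
  obtain ⟨d, q, s₀, c, K, w', g, hd, hc, H⟩ := hD K₀ (Fintype.card ι) fun m => w ((Fintype.equivFin ι).symm m)
  obtain ⟨e, he⟩ : ∃ e, e = Fintype.equivFin ι := ⟨_, rfl⟩
  rw [← he] at H
  refine ⟨d * spt 0 c, fun l i => q (e l) i * spt 0 c, mul_ne_zero hd hc, ?_⟩
  intro θ hθ a P Q hPQ
  rw [map_mul] at hθ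
  obtain ⟨d0, hd0⟩ : ∃ d0, d0 = eval θ d := ⟨_, rfl⟩
  obtain ⟨c0, hc0⟩ : ∃ c0, c0 = eval θ (spt 0 c) := ⟨_, rfl⟩
  rw [← hd0, ← hc0] at hθ
  have hd1 : d0 ≠ 0 := left_ne_zero_of_mul hθ
  have hc1 : c0 ≠ 0 := right_ne_zero_of_mul hθ
  -- the specialised identities
  have hspz : ∀ a b : Pz s n, spz (a * b) θ = spz a θ * spz b θ := fun a b => by
    rw [spz, spz, spz, map_mul]
  have hI : ∀ l : ι, X (Fin.last n) ^ s₀ * beta n (spp c θ) *
      (C d0 * hP (spz (w l) θ) * hP (spz h θ) ^ (D.k + K + 1) -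
        (∑ i, C (eval θ (q (e l) i)) * hP (spz (D.W i) θ)) * hP (spz h θ) ^ (K₀ + K + 1)) =
      X (Fin.last n) ^ (s₀ + D.j) * spx (w' (e l)) θ + divg (spz h θ) (D.k + K₀ + K) fun m => spx (g (e l) m) θ := by
    intro l
    have h1 := congrArg (fun G => spx G θ) (H (e l))
    have h2 : spx (tz s n ^ s₀ * par n c * up (par n d * w (e.symm (e l)) * h ^ (D.k + K + 1) -
        (∑ i, par n (q (e l) i) * D.W i) * h ^ (K₀ + K + 1))) θ =
        spx (tz s n) θ ^ s₀ * spx (par n c) θ * spx (up (par n d * w (e.symm (e l)) * h ^ (D.k + K + 1) -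
        (∑ i, par n (q (e l) i) * D.W i) * h ^ (K₀ + K + 1))) θ := by
      rw [spx, map_mul, map_mul, map_pow]
      rfl
    have h3 : spx (tz s n ^ (s₀ + D.j) * w' (e l) + dv h (D.k + K₀ + K) (g (e l))) θ =
        spx (tz s n) θ ^ (s₀ + D.j) * spx (w' (e l)) θ + spx (dv h (D.k + K₀ + K) (g (e l))) θ := by
      rw [spx, map_add, map_mul, map_pow]
      rfl
    have hpar : ∀ f : MvPolynomial (Fin s) ℚ, spz (par n f) θ = C (eval θ f) := by
      intro f
      rw [par, spz, aeval_rename]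
      have h5 : (Sum.elim (fun i => C (θ i)) X : Fin s ⊕ Fin n → MvPolynomial (Fin n) ℚ) ∘ Sum.inl =
          ⇑(algebraMap ℚ (MvPolynomial (Fin n) ℚ)) ∘ θ := by
        funext i
        rfl
      rw [h5, aeval_algebraMap_apply, algebraMap_eq]
      rfl
    have h4 : spz (par n d * w (e.symm (e l)) * h ^ (D.k + K + 1) -
        (∑ i, par n (q (e l) i) * D.W i) * h ^ (K₀ + K + 1)) θ =
        C d0 * spz (w l) θ * spz h θ ^ (D.k + K + 1) -
        (∑ i, C (eval θ (q (e l) i)) * spz (D.W i) θ) * spz h θ ^ (K₀ + K + 1) := by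
      rw [Equiv.symm_apply_apply, hd0, ← hpar d]
      have h6 : (∑ i, C (eval θ (q (e l) i)) * spz (D.W i) θ) = ∑ i, spz (par n (q (e l) i)) θ * spz (D.W i) θ :=
        Finset.sum_congr rfl fun i _ => by rw [hpar]
      rw [h6, spz, map_sub, map_mul, map_mul, map_mul, map_pow, map_pow, map_sum]
      congr 2
      refine Finset.sum_congr rfl fun i _ => ?_
      rw [map_mul]
      rfl
    beta_reduce at h1
    rw [h2, h3, cc_tz, cc_par, cc_up, spx_dv, h4, hP_sub, hP_mul, hP_mul, hP_mul, hP_pow, hP_pow, hP_C, hP_sum] at h1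
    rw [← h1]
    congr 2
    congr 1
    refine Finset.sum_congr rfl fun i _ => ?_
    rw [hP_mul, hP_C]
  -- the sum
  refine ⟨s₀, K₀ + K, Polynomial.C c0⁻¹ * (spp c θ).divX, ∑ l, C (a l / (d0 * c0)) * spx (w' (e l)) θ,
    fun m => ∑ l, C (a l / (d0 * c0)) * spx (g (e l) m) θ, ?_⟩
  have hA : (1 : Polynomial ℚ) + Polynomial.X * (Polynomial.C c0⁻¹ * (spp c θ).divX) = Polynomial.C c0⁻¹ * spp c θ := by
    have h1 := Polynomial.divX_mul_X_add (spp c θ)
    rw [cc_eval0, ← hc0] at h1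
    calc (1 : Polynomial ℚ) + Polynomial.X * (Polynomial.C c0⁻¹ * (spp c θ).divX) =
          Polynomial.C c0⁻¹ * ((spp c θ).divX * Polynomial.X + Polynomial.C c0) := by
          have h2 : (Polynomial.C c0⁻¹ * Polynomial.C c0 : Polynomial ℚ) = 1 := by
            rw [← Polynomial.C_mul, inv_mul_cancel₀ hc1, Polynomial.C_1]
          rw [mul_add, h2]
          ring
      _ = _ := by rw [h1]
  have hbX : beta n Polynomial.X = X (Fin.last n) := by
    rw [beta]
    simp
  have hbC : ∀ x : ℚ, beta n (Polynomial.C x) = C x := by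
    intro x
    rw [beta]
    simp
  rw [hA, beta_X_pow_mul, map_mul, map_pow, hbX, hbC]
  have hW : hP P * hP (spz h θ) ^ K₀ = (∑ l, C (a l) * hP (spz (w l) θ)) * hP Q := by
    have h1 := congrArg hP hPQ
    rw [hP_mul, hP_mul, hP_pow, hP_sum] at h1
    rw [h1]
    congr 1
    refine Finset.sum_congr rfl fun l _ => ?_
    rw [hP_mul, hP_C]
  have hT : hP (∑ i, C (∑ l, a l * (eval θ (q (e l) i * spt 0 c) / eval θ (d * spt 0 c))) * spz (D.W i) θ) =
      ∑ l, C (a l / d0) * ∑ i, C (eval θ (q (e l) i)) * hP (spz (D.W i) θ) := by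
    rw [hP_sum]
    have h1 : ∀ i, hP (C (∑ l, a l * (eval θ (q (e l) i * spt 0 c) / eval θ (d * spt 0 c))) * spz (D.W i) θ) =
        ∑ l, C (a l / d0) * (C (eval θ (q (e l) i)) * hP (spz (D.W i) θ)) := by
      intro i
      rw [hP_mul, hP_C, map_sum, Finset.sum_mul]
      refine Finset.sum_congr rfl fun l _ => ?_
      have hs : a l * (eval θ (q (e l) i * spt 0 c) / eval θ (d * spt 0 c)) = a l / d0 * eval θ (q (e l) i) := by
        rw [map_mul, map_mul, ← hd0, ← hc0]
        field_simp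
      rw [hs, C_mul, mul_assoc]
    rw [Finset.sum_congr rfl fun i _ => h1 i, Finset.sum_comm]
    exact Finset.sum_congr rfl fun l _ => (Finset.mul_sum _ _ _).symm
  rw [hT, cc_divg_sum]
  have hsum : ∑ l, C (a l / (d0 * c0)) * (X (Fin.last n) ^ s₀ * beta n (spp c θ) *
      (C d0 * hP (spz (w l) θ) * hP (spz h θ) ^ (D.k + K + 1) -
        (∑ i, C (eval θ (q (e l) i)) * hP (spz (D.W i) θ)) * hP (spz h θ) ^ (K₀ + K + 1))) =
      ∑ l, C (a l / (d0 * c0)) * (X (Fin.last n) ^ (s₀ + D.j) * spx (w' (e l)) θ +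
        divg (spz h θ) (D.k + K₀ + K) fun m => spx (g (e l) m) θ) :=
    Finset.sum_congr rfl fun l _ => by rw [hI l]
  have hL : ∑ l, C (a l / (d0 * c0)) * (X (Fin.last n) ^ s₀ * beta n (spp c θ) *
      (C d0 * hP (spz (w l) θ) * hP (spz h θ) ^ (D.k + K + 1) -
        (∑ i, C (eval θ (q (e l) i)) * hP (spz (D.W i) θ)) * hP (spz h θ) ^ (K₀ + K + 1))) =
      X (Fin.last n) ^ s₀ * (C c0⁻¹ * beta n (spp c θ)) *
        ((∑ l, C (a l) * hP (spz (w l) θ)) * hP (spz h θ) ^ (D.k + K + 1) -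
          (∑ l, C (a l / d0) * ∑ i, C (eval θ (q (e l) i)) * hP (spz (D.W i) θ)) *
            hP (spz h θ) ^ (K₀ + K + 1)) := by
    rw [Finset.sum_mul, Finset.sum_mul, ← Finset.sum_sub_distrib, Finset.mul_sum]
    refine Finset.sum_congr rfl fun l _ => ?_
    have h1 : (C (a l / (d0 * c0)) * C d0 : Pt n) = C c0⁻¹ * C (a l) := by
      rw [← C_mul, ← C_mul]
      congr 1
      field_simp
    have h2 : (C (a l / (d0 * c0)) : Pt n) = C c0⁻¹ * C (a l / d0) := by
      rw [← C_mul]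
      congr 1
      field_simp
    calc _ = X (Fin.last n) ^ s₀ * beta n (spp c θ) *
          ((C (a l / (d0 * c0)) * C d0) * hP (spz (w l) θ) * hP (spz h θ) ^ (D.k + K + 1) -
            C (a l / (d0 * c0)) * (∑ i, C (eval θ (q (e l) i)) * hP (spz (D.W i) θ)) *
              hP (spz h θ) ^ (K₀ + K + 1)) := by ring
      _ = _ := by
          rw [h1, h2]
          ring
  have hR : ∑ l, C (a l / (d0 * c0)) * (X (Fin.last n) ^ (s₀ + D.j) * spx (w' (e l)) θ +
        divg (spz h θ) (D.k + K₀ + K) fun m => spx (g (e l) m) θ) =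
      X (Fin.last n) ^ (s₀ + D.j) * (∑ l, C (a l / (d0 * c0)) * spx (w' (e l)) θ) +
        ∑ l, C (a l / (d0 * c0)) * divg (spz h θ) (D.k + K₀ + K) fun m => spx (g (e l) m) θ := by
    rw [Finset.mul_sum, ← Finset.sum_add_distrib]
    refine Finset.sum_congr rfl fun l _ => ?_
    ring
  rw [hL, hR] at hsum
  rw [show D.k + (K₀ + K) = D.k + K₀ + K by ring, ← hsum]
  have e1 : D.k + K₀ + K + 1 = K₀ + (D.k + K + 1) := by ring
  rw [e1, pow_add]
  calc _ = X (Fin.last n) ^ s₀ * (C c0⁻¹ * beta n (spp c θ)) *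
        ((hP P * hP (spz h θ) ^ K₀) * hP (spz h θ) ^ (D.k + K + 1) -
          hP Q * (∑ l, C (a l / d0) * ∑ i, C (eval θ (q (e l) i)) * hP (spz (D.W i) θ)) *
            hP (spz h θ) ^ (K₀ + K + 1)) := by ring
    _ = _ := by
        rw [hW]
        ring

/-- The certificates for the integrals supported on the family. Proof: `exists_num`, `exists_cert` for the index type `(Fin F.n → Fin (A + 1)) × (Fin F.r → Fin (A + 1))`, with `a (a', κ') = if κ' = κ then coeff / c else 0`. -/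
theorem cell_complete {s : ℕ} (F : Sup s) (σ : Fin F.r → Bool) {D : Bas s F.n} (hD : SpanN (hh (psg F σ)) D) (A : ℕ) :
    ∃ (z' : MvPolynomial (Fin s) ℚ)
      (qn : (Fin F.n → Fin (A + 1)) → (Fin F.r → Fin (A + 1)) → Fin D.N → MvPolynomial (Fin s) ℚ), z' ≠ 0 ∧
      ∀ θ : Fin s → ℚ, eval θ z' ≠ 0 → ∀ (I : IntCode) (c : ℚ) (κ : Fin F.r → Fin (A + 1)), I.1 = F.n →
        IsMon F θ c (fun j => (κ j : ℕ)) (pcPoly F.n I.2.1.2) → (pcPoly F.n I.2.1.1).totalDegree ≤ A →
          CertC F σ D θ I fun i => ∑ a, coeff (fx a) (pcPoly F.n I.2.1.1) / c * (eval θ (qn a κ i) / eval θ z') := by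
  obtain ⟨K, w, hw⟩ := exists_num F σ A
  obtain ⟨z', q, hz', H⟩ := exists_cert hD K
    (fun y : (Fin F.n → Fin (A + 1)) × (Fin F.r → Fin (A + 1)) => w y.1 y.2)
  refine ⟨z', fun a κ i => q (a, κ) i, hz', ?_⟩
  intro θ hθ I c κ hI hQ hP'
  have h1 := H θ hθ (fun y => if y.2 = κ then coeff (fx y.1) (pcPoly F.n I.2.1.1) / c else 0)
    (pcPoly F.n (bdInt I).2.1.1) (pcPoly F.n (bdInt I).2.1.2) ?_
  · have h2 : (fun i => ∑ y : (Fin F.n → Fin (A + 1)) × (Fin F.r → Fin (A + 1)),
        (if y.2 = κ then coeff (fx y.1) (pcPoly F.n I.2.1.1) / c else 0) * (eval θ (q y i) / eval θ z')) =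
        fun i => ∑ a, coeff (fx a) (pcPoly F.n I.2.1.1) / c * (eval θ (q (a, κ) i) / eval θ z') := by
      funext i
      rw [Fintype.sum_prod_type]
      refine Finset.sum_congr rfl fun a _ => ?_
      rw [Finset.sum_eq_single κ]
      · simp only [if_true]
      · intro b _ hb
        simp only [if_neg hb, zero_mul]
      · intro hb
        exact absurd (Finset.mem_univ _) hb
    rw [h2] at h1
    exact h1
  · rw [hw θ I c κ hI hQ hP']
    congr 1
    rw [Fintype.sum_prod_type]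
    refine Finset.sum_congr rfl fun a _ => ?_
    rw [Finset.sum_eq_single κ]
    · simp only [if_true]
    · intro b _ hb
      simp only [if_neg hb, C_0, zero_mul]
    · intro hb
      exact absurd (Finset.mem_univ _) hb

end Pool.Agent.Lib.MP_bbe012_lc.PN
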