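import Pool.Agent.Lib.MP_bbe012_lc.PN.Dy
import Pool.Agent.Lib.MP_bbe012_lc.PG.DHt

/-!
# Heights
-/

namespace Pool.Agent.Lib.MP_bbe012_lc.PN

open MvPolynomial MeasureTheory Set PP PG PM Filter Topology

theorem Ht.mono {B B' T : ℕ} {a : ℚ} (h : Ht B T a) (hT : 2 ≤ T) (hB : B ≤ B') : Ht B' T a := by
  obtain ⟨h1, N, hN1, hN2, hN3⟩ := h
  have h2 : (1 : ℚ) ≤ T := by exact_mod_cast (by omega : 1 ≤ T)
  exact ⟨h1.trans (pow_le_pow_right₀ h2 hB), N, hN1, hN2.trans (Nat.pow_le_pow_right (by omega) hB), hN3⟩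

private theorem ht_zero (B T : ℕ) (hT : 2 ≤ T) : Ht B T 0 :=
  ⟨by rw [abs_zero]; positivity, 1, le_rfl, Nat.one_le_pow _ _ (by omega), 0, by simp⟩

private theorem ht_one (B T : ℕ) (hT : 2 ≤ T) : Ht B T 1 := by
  have h2 : (1 : ℚ) ≤ T := by exact_mod_cast (by omega : 1 ≤ T)
  exact ⟨by rw [abs_one]; exact one_le_pow₀ h2, 1, le_rfl, Nat.one_le_pow _ _ (by omega), 1, by simp⟩

theorem Bdd.ht {A T q : ℕ} {a : ℚ} (h : Bdd A T q a) (hq : 1 ≤ q) (hqT : q ≤ T ^ A) : Ht A T a :=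
  ⟨h.1, q, hq, hqT, h.2⟩

theorem Ht.add {B B' T : ℕ} {a a' : ℚ} (hT : 2 ≤ T) (h : Ht B T a) (h' : Ht B' T a') : Ht (B + B' + 1) T (a + a') := by
  obtain ⟨h1, N, hN1, hN2, x, hN3⟩ := h
  obtain ⟨h1', N', hN1', hN2', x', hN3'⟩ := h'
  have hT1 : (1 : ℚ) ≤ T := by exact_mod_cast (by omega : 1 ≤ T)
  have hT2 : (2 : ℚ) ≤ T := by exact_mod_cast hT
  refine ⟨?_, N * N', Nat.mul_pos hN1 hN1', ?_, N' * x + N * x', ?_⟩
  · refine (abs_add_le _ _).trans ((add_le_add h1 h1').trans ?_)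
    have e1 : (T : ℚ) ^ B ≤ (T : ℚ) ^ (B + B') := pow_le_pow_right₀ hT1 (by omega)
    have e2 : (T : ℚ) ^ B' ≤ (T : ℚ) ^ (B + B') := pow_le_pow_right₀ hT1 (by omega)
    have e3 : (0 : ℚ) ≤ (T : ℚ) ^ (B + B') := by positivity
    rw [pow_succ]
    nlinarith
  · refine (Nat.mul_le_mul hN2 hN2').trans ?_
    rw [← pow_add]
    exact Nat.pow_le_pow_right (by omega) (by omega)
  · push_cast
    rw [← hN3, ← hN3']
    ring

theorem Ht.mul {B B' T : ℕ} {a a' : ℚ} (hT : 2 ≤ T) (h : Ht B T a) (h' : Ht B' T a') : Ht (B + B') T (a * a') := by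
  obtain ⟨h1, N, hN1, hN2, x, hN3⟩ := h
  obtain ⟨h1', N', hN1', hN2', x', hN3'⟩ := h'
  refine ⟨?_, N * N', Nat.mul_pos hN1 hN1', ?_, x * x', ?_⟩
  · rw [abs_mul, pow_add]
    exact mul_le_mul h1 h1' (abs_nonneg _) (by positivity)
  · rw [pow_add]
    exact Nat.mul_le_mul hN2 hN2'
  · push_cast
    rw [← hN3, ← hN3']
    ring

/-- Proof: `N a = x`, `x ≠ 0`, `|x| ≤ T ^ (2 B)`; `1 / a = N / x`, `|1 / a| ≤ N ≤ T ^ B`, `|x| * (1 / a) = ± N`. -/
theorem Ht.inv {B T : ℕ} {a : ℚ} (hT : 2 ≤ T) (h : Ht B T a) : Ht (2 * B) T a⁻¹ := by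
  obtain ⟨h1, N, hN1, hN2, x, hN3⟩ := h
  have hT1 : (1 : ℚ) ≤ T := by exact_mod_cast (by omega : 1 ≤ T)
  have hN0 : (0 : ℚ) < N := by exact_mod_cast hN1
  by_cases ha : a = 0
  · rw [ha, inv_zero]
    exact ht_zero _ _ hT
  have hx : x ≠ 0 := by
    rintro rfl
    rw [Int.cast_zero] at hN3
    rcases mul_eq_zero.1 hN3 with h | h
    · exact hN0.ne' h
    · exact ha h
  have hxa : (x : ℚ) ≠ 0 := by exact_mod_cast hx
  have hinv : a⁻¹ = N / x := by
    rw [← hN3]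
    field_simp
  have hx1 : (1 : ℚ) ≤ |(x : ℚ)| := by
    have : (1 : ℤ) ≤ |x| := Int.one_le_abs hx
    exact_mod_cast this
  have hN2q : (N : ℚ) ≤ (T : ℚ) ^ B := by exact_mod_cast hN2
  refine ⟨?_, x.natAbs, Int.natAbs_pos.2 hx, ?_, ?_⟩
  · rw [hinv, abs_div, abs_of_pos hN0]
    calc (N : ℚ) / |(x : ℚ)| ≤ N := div_le_self hN0.le hx1
      _ ≤ (T : ℚ) ^ B := hN2q
      _ ≤ (T : ℚ) ^ (2 * B) := pow_le_pow_right₀ hT1 (by omega)
  · have e1 : ((x.natAbs : ℕ) : ℚ) = |(x : ℚ)| := by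
      rw [Nat.cast_natAbs, Int.cast_abs]
    have e2 : ((x.natAbs : ℕ) : ℚ) ≤ ((T ^ (2 * B) : ℕ) : ℚ) := by
      rw [e1, ← hN3, abs_mul, abs_of_pos hN0]
      push_cast
      rw [two_mul, pow_add]
      exact mul_le_mul hN2q h1 (abs_nonneg _) (by positivity)
    exact_mod_cast e2
  · rcases le_total 0 x with h0 | h0
    · refine ⟨N, ?_⟩
      have e1 : ((x.natAbs : ℕ) : ℚ) = x := by
        rw [Nat.cast_natAbs, abs_of_nonneg h0]
      rw [e1, hinv]
      push_cast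
      field_simp
    · refine ⟨-N, ?_⟩
      have e1 : ((x.natAbs : ℕ) : ℚ) = -x := by
        rw [Nat.cast_natAbs, abs_of_nonpos h0]
        push_cast
        rfl
      rw [e1, hinv]
      push_cast
      field_simp

/-- Proof: induction on `S`, `Ht.add`. -/
theorem Ht.sum {ι : Type} (S : Finset ι) {B T : ℕ} {f : ι → ℚ} (hT : 2 ≤ T) (h : ∀ i ∈ S, Ht B T (f i)) :
    Ht (S.card * (B + 1)) T (∑ i ∈ S, f i) := by
  classical
  induction S using Finset.induction_on with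
  | empty =>
    rw [Finset.sum_empty]
    exact ht_zero _ _ hT
  | insert i S hi ih =>
    rw [Finset.sum_insert hi, Finset.card_insert_of_notMem hi]
    have h1 := Ht.add hT (h i (Finset.mem_insert_self _ _)) (ih fun k hk => h k (Finset.mem_insert_of_mem hk))
    exact h1.mono hT (le_of_eq (by ring))

/-- Values of a fixed polynomial. Proof: `poly_heights`. -/
theorem ht_poly {s : ℕ} {ι : Type} [Finite ι] (p : ι → MvPolynomial (Fin s) ℚ) : ∃ B : ℕ, ∀ T : ℕ, 2 ≤ T → ∀ θ : Fin s → ℚ,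
    (∀ i, HLE T (θ i)) → ∀ i, Ht B T (eval θ (p i)) := by
  obtain ⟨B, hB⟩ := poly_heights p
  refine ⟨B, fun T hT θ hθ i => ?_⟩
  obtain ⟨N, hN1, hN2, hN3⟩ := hB T hT θ hθ
  have h1 := hN3 i
  rw [MvPolynomial.aeval_eq_eval] at h1
  exact ⟨h1.1, N, hN1, hN2, h1.2⟩

/-- A common denominator. -/
theorem ht_common {ι : Type} [Fintype ι] {B T : ℕ} {f : ι → ℚ} (h : ∀ i, Ht B T (f i)) :
    ∃ N : ℕ, 1 ≤ N ∧ N ≤ T ^ (Fintype.card ι * B) ∧ ∀ i, ∃ x : ℤ, (N : ℚ) * f i = x := by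
  classical
  choose N hN1 hN2 x hx using fun i => (h i).2
  refine ⟨∏ i, N i, Nat.succ_le_of_lt (Finset.prod_pos fun i _ => hN1 i), ?_, fun i => ⟨(∏ k ∈ Finset.univ.erase i, (N k : ℤ)) * x i, ?_⟩⟩
  · refine (Finset.prod_le_prod' fun i _ => hN2 i).trans (le_of_eq ?_)
    rw [Finset.prod_const, Finset.card_univ, ← pow_mul, mul_comm]
  · rw [← Finset.prod_erase_mul _ _ (Finset.mem_univ i)]
    push_cast
    rw [mul_assoc, hx]

/-- Sums of polynomials. -/
theorem htp_add {N B B' T : ℕ} {P P' : MvPolynomial (Fin N) ℚ} (hT : 2 ≤ T) (h : ∀ u, Ht B T (coeff u P))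
    (h' : ∀ u, Ht B' T (coeff u P')) : ∀ u, Ht (B + B' + 1) T (coeff u (P + P')) := by
  intro u
  rw [coeff_add]
  exact Ht.add hT (h u) (h' u)

/-- The exponents in a box. -/
private noncomputable def ht_box (N A : ℕ) : Finset (Fin N →₀ ℕ) :=
  (Fintype.piFinset (fun _ : Fin N => Finset.range (A + 1))).image Finsupp.equivFunOnFinite.symm

private theorem ht_box_card (N A : ℕ) : (ht_box N A).card ≤ (A + 1) ^ N := by
  unfold ht_box
  refine Finset.card_image_le.trans (le_of_eq ?_)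
  rw [Fintype.card_piFinset, Finset.prod_const, Finset.card_range, Finset.card_univ, Fintype.card_fin]

private theorem ht_box_mem {N A : ℕ} {P : MvPolynomial (Fin N) ℚ} (hP : P.totalDegree ≤ A) {v : Fin N →₀ ℕ}
    (hv : v ∈ P.support) : v ∈ ht_box N A := by
  refine Finset.mem_image.2 ⟨fun i => v i, Fintype.mem_piFinset.2 fun i => ?_, ?_⟩
  · rw [Finset.mem_range, Nat.lt_succ_iff]
    have h1 : (v.sum fun _ e => e) ≤ A := (le_totalDegree hv).trans hP
    by_cases hi : v i = 0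
    · rw [hi]
      exact Nat.zero_le _
    · refine le_trans ?_ h1
      exact Finset.single_le_sum (f := fun k => v k) (fun _ _ => Nat.zero_le _) (Finsupp.mem_support_iff.2 hi)
  · refine Finsupp.ext fun i => ?_
    rfl

/-- Products of polynomials of bounded degree. Proof: `coeff_mul`; at most as many non zero terms as there are exponents of degree at most `A` (a finite set, which does not depend on `P`). -/
theorem htp_mul (N A B A' B' : ℕ) : ∃ B'' : ℕ, ∀ (T : ℕ) (P P' : MvPolynomial (Fin N) ℚ), 2 ≤ T → P.totalDegree ≤ A →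
    P'.totalDegree ≤ A' → (∀ u, Ht B T (coeff u P)) → (∀ u, Ht B' T (coeff u P')) → ∀ u, Ht B'' T (coeff u (P * P')) := by
  refine ⟨(ht_box N A).card * (B + B' + 1), fun T P P' hT hP _ h h' u => ?_⟩
  have h1 : P = ∑ v ∈ ht_box N A, monomial v (coeff v P) := by
    conv_lhs => rw [← support_sum_monomial_coeff P]
    refine Finset.sum_subset (fun v hv => ht_box_mem hP hv) fun v _ hv => ?_
    rw [notMem_support_iff.1 hv, monomial_zero]
  have h2 : coeff u (P * P') = ∑ v ∈ ht_box N A, coeff u (monomial v (coeff v P) * P') := by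
    conv_lhs => rw [h1]
    rw [Finset.sum_mul, coeff_sum]
  rw [h2]
  refine Ht.sum _ hT fun v _ => ?_
  rw [coeff_monomial_mul']
  by_cases hv : v ≤ u
  · rw [if_pos hv]
    exact Ht.mul hT (h v) (h' _)
  · rw [if_neg hv]
    exact ht_zero _ _ hT

/-- The sum of the absolute values of the coefficients. -/
private noncomputable def ht_l1 {N : ℕ} (P : MvPolynomial (Fin N) ℚ) : ℚ := ∑ v ∈ P.support, |coeff v P|

private theorem ht_l1_eq {N : ℕ} {P : MvPolynomial (Fin N) ℚ} {S : Finset (Fin N →₀ ℕ)} (hS : P.support ⊆ S) :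
    ht_l1 P = ∑ v ∈ S, |coeff v P| := by
  refine Finset.sum_subset hS fun v _ hv => ?_
  rw [notMem_support_iff.1 hv, abs_zero]

private theorem ht_l1_nonneg {N : ℕ} (P : MvPolynomial (Fin N) ℚ) : 0 ≤ ht_l1 P :=
  Finset.sum_nonneg fun _ _ => abs_nonneg _

private theorem ht_l1_add {N : ℕ} (P Q : MvPolynomial (Fin N) ℚ) : ht_l1 (P + Q) ≤ ht_l1 P + ht_l1 Q := by
  classical
  rw [ht_l1_eq (P := P + Q) (S := P.support ∪ Q.support) support_add,
    ht_l1_eq (P := P) (S := P.support ∪ Q.support) Finset.subset_union_left,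
    ht_l1_eq (P := Q) (S := P.support ∪ Q.support) Finset.subset_union_right, ← Finset.sum_add_distrib]
  refine Finset.sum_le_sum fun v _ => ?_
  rw [coeff_add]
  exact abs_add_le _ _

private theorem ht_l1_zero {N : ℕ} : ht_l1 (0 : MvPolynomial (Fin N) ℚ) = 0 := by
  unfold ht_l1
  rw [support_zero, Finset.sum_empty]

private theorem ht_l1_sum {N : ℕ} {ι : Type} (S : Finset ι) (P : ι → MvPolynomial (Fin N) ℚ) :
    ht_l1 (∑ i ∈ S, P i) ≤ ∑ i ∈ S, ht_l1 (P i) := by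
  classical
  induction S using Finset.induction_on with
  | empty =>
    rw [Finset.sum_empty, Finset.sum_empty, ht_l1_zero]
  | insert i S hi ih =>
    rw [Finset.sum_insert hi, Finset.sum_insert hi]
    exact (ht_l1_add _ _).trans (add_le_add le_rfl ih)

private theorem ht_l1_monomial {N : ℕ} (v : Fin N →₀ ℕ) (a : ℚ) : ht_l1 (monomial v a) ≤ |a| := by
  classical
  rw [ht_l1_eq (P := monomial v a) (S := {v}) support_monomial_subset, Finset.sum_singleton, coeff_monomial, if_pos rfl]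

private theorem ht_l1_mul {N : ℕ} (P Q : MvPolynomial (Fin N) ℚ) : ht_l1 (P * Q) ≤ ht_l1 P * ht_l1 Q := by
  classical
  have h1 : P * Q = ∑ v ∈ P.support, ∑ w ∈ Q.support, monomial (v + w) (coeff v P * coeff w Q) := by
    conv_lhs => rw [← support_sum_monomial_coeff P, ← support_sum_monomial_coeff Q]
    rw [Finset.sum_mul_sum]
    refine Finset.sum_congr rfl fun v _ => Finset.sum_congr rfl fun w _ => ?_
    rw [monomial_mul]
  rw [h1]
  refine (ht_l1_sum _ _).trans ?_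
  have h2 : ht_l1 P * ht_l1 Q = ∑ v ∈ P.support, ∑ w ∈ Q.support, |coeff v P * coeff w Q| := by
    unfold ht_l1
    rw [Finset.sum_mul_sum]
    refine Finset.sum_congr rfl fun v _ => Finset.sum_congr rfl fun w _ => ?_
    rw [abs_mul]
  rw [h2]
  refine Finset.sum_le_sum fun v _ => (ht_l1_sum _ _).trans (Finset.sum_le_sum fun w _ => ht_l1_monomial _ _)

private theorem ht_l1_one {N : ℕ} : ht_l1 (1 : MvPolynomial (Fin N) ℚ) ≤ 1 := by
  have h := ht_l1_monomial (0 : Fin N →₀ ℕ) 1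
  rw [abs_one] at h
  exact h

private theorem ht_l1_C {N : ℕ} (a : ℚ) : ht_l1 (C a : MvPolynomial (Fin N) ℚ) ≤ |a| := ht_l1_monomial 0 a

private theorem ht_l1_X {N : ℕ} (i : Fin N) : ht_l1 (X i : MvPolynomial (Fin N) ℚ) ≤ 1 := by
  have h := ht_l1_monomial (Finsupp.single i 1 : Fin N →₀ ℕ) 1
  rw [abs_one] at h
  exact h

private theorem ht_l1_pow {N : ℕ} (P : MvPolynomial (Fin N) ℚ) (L : ℚ) (hL : ht_l1 P ≤ L) (k : ℕ) : ht_l1 (P ^ k) ≤ L ^ k := by
  induction k with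
  | zero =>
    rw [pow_zero, pow_zero]
    exact ht_l1_one
  | succ k ih =>
    rw [pow_succ, pow_succ]
    exact (ht_l1_mul _ _).trans (mul_le_mul ih hL (ht_l1_nonneg _) ((ht_l1_nonneg _).trans ih))

private theorem ht_l1_prod {N : ℕ} {ι : Type} (S : Finset ι) (P : ι → MvPolynomial (Fin N) ℚ) (b : ι → ℚ)
    (h : ∀ i, ht_l1 (P i) ≤ b i) : ht_l1 (∏ i ∈ S, P i) ≤ ∏ i ∈ S, b i := by
  classical
  induction S using Finset.induction_on with
  | empty =>
    rw [Finset.prod_empty, Finset.prod_empty]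
    exact ht_l1_one
  | insert i S hi ih =>
    rw [Finset.prod_insert hi, Finset.prod_insert hi]
    exact (ht_l1_mul _ _).trans (mul_le_mul (h i) ih (ht_l1_nonneg _) ((ht_l1_nonneg _).trans (h i)))

private theorem ht_coeff_le {N : ℕ} (P : MvPolynomial (Fin N) ℚ) (u : Fin N →₀ ℕ) : |coeff u P| ≤ ht_l1 P := by
  classical
  by_cases hu : u ∈ P.support
  · exact Finset.single_le_sum (f := fun v => |coeff v P|) (fun _ _ => abs_nonneg _) hu
  · rw [notMem_support_iff.1 hu, abs_zero]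
    exact ht_l1_nonneg P

/-- Exponents of degree at most `k`. -/
private noncomputable def ht_exps (m : ℕ) : ℕ → Finset (Fin m →₀ ℕ)
  | 0 => {0}
  | k + 1 => ((Finset.univ : Finset (Option (Fin m))) ×ˢ ht_exps m k).image
      fun z => z.2 + z.1.elim 0 fun i => Finsupp.single i 1

private theorem ht_exps_card (m : ℕ) : ∀ k, (ht_exps m k).card ≤ (m + 1) ^ k := by
  intro k
  induction k with
  | zero =>
    rw [ht_exps, Finset.card_singleton, pow_zero]
  | succ k ih =>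
    rw [ht_exps]
    refine Finset.card_image_le.trans ?_
    rw [Finset.card_product, Finset.card_univ, Fintype.card_option, Fintype.card_fin, pow_succ, mul_comm]
    exact Nat.mul_le_mul_right _ ih

private theorem ht_exps_mem (m : ℕ) : ∀ (k : ℕ) (γ : Fin m →₀ ℕ), ∑ i, γ i ≤ k → γ ∈ ht_exps m k := by
  classical
  intro k
  induction k with
  | zero =>
    intro γ h
    rw [ht_exps, Finset.mem_singleton]
    refine Finsupp.ext fun i => ?_
    have h1 : γ i ≤ ∑ i, γ i := Finset.single_le_sum (f := fun i => γ i) (fun _ _ => Nat.zero_le _) (Finset.mem_univ i)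
    exact Nat.le_zero.1 (h1.trans h)
  | succ k ih =>
    intro γ h
    rw [ht_exps, Finset.mem_image]
    by_cases hk : ∑ i, γ i ≤ k
    · exact ⟨(none, γ), Finset.mem_product.2 ⟨Finset.mem_univ _, ih γ hk⟩, add_zero γ⟩
    · have hpos : ∑ i, γ i ≠ 0 := by omega
      obtain ⟨i, -, hi⟩ := Finset.exists_ne_zero_of_sum_ne_zero hpos
      have hle : Finsupp.single i 1 ≤ γ := by
        rw [Finsupp.single_le_iff]
        omega
      have hsub : γ - Finsupp.single i 1 + Finsupp.single i 1 = γ := tsub_add_cancel_of_le hle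
      refine ⟨(some i, γ - Finsupp.single i 1), Finset.mem_product.2 ⟨Finset.mem_univ _, ih _ ?_⟩, hsub⟩
      have h1 : ∑ j, γ j = ∑ j, (γ - Finsupp.single i 1 : Fin m →₀ ℕ) j + ∑ j, (Finsupp.single i 1 : Fin m →₀ ℕ) j := by
        rw [← Finset.sum_add_distrib]
        refine Finset.sum_congr rfl fun j _ => ?_
        rw [← Finsupp.add_apply, hsub]
      have h2 : ∑ j, (Finsupp.single i 1 : Fin m →₀ ℕ) j = 1 := by
        rw [Finset.sum_eq_single i]
        · rw [Finsupp.single_eq_same]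
        · intro j _ hj
          rw [Finsupp.single_eq_of_ne hj]
        · intro hi
          exact absurd (Finset.mem_univ i) hi
      show ∑ j, (γ - Finsupp.single i 1 : Fin m →₀ ℕ) j ≤ k
      omega

private theorem ht_aeval_eq {m N : ℕ} (G : MvPolynomial (Fin m) ℚ) (f : Fin m → MvPolynomial (Fin N) ℚ) :
    aeval f G = ∑ γ ∈ G.support, C (coeff γ G) * ∏ i, f i ^ γ i := by
  rw [aeval_def, eval₂_eq']
  rfl

private theorem ht_sum_le {m A : ℕ} {G : MvPolynomial (Fin m) ℚ} (hG : G.totalDegree ≤ A) {γ : Fin m →₀ ℕ}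
    (hγ : γ ∈ G.support) : ∑ i, γ i ≤ A := by
  have h1 := (le_totalDegree hγ).trans hG
  rwa [Finsupp.sum_fintype _ _ (fun _ => rfl)] at h1

private theorem ht_deg {m N A : ℕ} {G : MvPolynomial (Fin m) ℚ} {f : Fin m → MvPolynomial (Fin N) ℚ}
    (hG : G.totalDegree ≤ A) (hf : ∀ i, (f i).totalDegree ≤ 2) : (aeval f G).totalDegree ≤ 2 * A := by
  rw [ht_aeval_eq]
  refine totalDegree_finsetSum_le fun γ hγ => ?_
  refine (totalDegree_mul _ _).trans ?_
  rw [totalDegree_C, zero_add]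
  refine (totalDegree_finsetProd _ _).trans ?_
  calc ∑ i, (f i ^ γ i).totalDegree ≤ ∑ i, 2 * γ i := Finset.sum_le_sum fun i _ => by
        refine (totalDegree_pow _ _).trans ?_
        rw [mul_comm]
        exact Nat.mul_le_mul_right _ (hf i)
    _ = 2 * ∑ i, γ i := by rw [Finset.mul_sum]
    _ ≤ 2 * A := Nat.mul_le_mul_left _ (ht_sum_le hG hγ)

private theorem ht_size {m N A : ℕ} {G : MvPolynomial (Fin m) ℚ} {f : Fin m → MvPolynomial (Fin N) ℚ} {b L : ℚ}
    (hG : G.totalDegree ≤ A) (hb : ∀ u, |coeff u G| ≤ b) (hb0 : 0 ≤ b) (hL : 1 ≤ L) (hf : ∀ i, ht_l1 (f i) ≤ L) :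
    ht_l1 (aeval f G) ≤ (m + 1 : ℕ) ^ A * (b * L ^ A) := by
  rw [ht_aeval_eq]
  refine (ht_l1_sum _ _).trans ?_
  have h1 : ∀ γ ∈ G.support, ht_l1 (C (coeff γ G) * ∏ i, f i ^ γ i) ≤ b * L ^ A := by
    intro γ hγ
    refine (ht_l1_mul _ _).trans (mul_le_mul ((ht_l1_C _).trans (hb γ)) ?_ (ht_l1_nonneg _) hb0)
    refine (ht_l1_prod Finset.univ (fun i => f i ^ γ i) (fun i => L ^ γ i) fun i => ht_l1_pow _ _ (hf i) _).trans ?_
    rw [Finset.prod_pow_eq_pow_sum]
    exact pow_le_pow_right₀ hL (ht_sum_le hG hγ)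
  refine (Finset.sum_le_sum h1).trans ?_
  rw [Finset.sum_const, nsmul_eq_mul]
  refine mul_le_mul_of_nonneg_right ?_ (mul_nonneg hb0 (pow_nonneg (zero_le_one.trans hL) _))
  have h2 : G.support.card ≤ (m + 1) ^ A :=
    (Finset.card_le_card fun γ hγ => ht_exps_mem m A γ (ht_sum_le hG hγ)).trans (ht_exps_card m A)
  exact_mod_cast h2

/-- The polynomials with integral coefficients. -/
private noncomputable def ht_int (N : ℕ) : Subring (MvPolynomial (Fin N) ℚ) :=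
  (MvPolynomial.map (σ := Fin N) (Int.castRingHom ℚ)).range

private theorem ht_int_coeff {N : ℕ} {P : MvPolynomial (Fin N) ℚ} (h : P ∈ ht_int N) (u : Fin N →₀ ℕ) :
    ∃ x : ℤ, coeff u P = x := by
  obtain ⟨P', rfl⟩ := h
  exact ⟨coeff u P', by rw [coeff_map]; rfl⟩

private theorem ht_int_C {N : ℕ} {a : ℚ} (h : ∃ x : ℤ, a = x) : (C a : MvPolynomial (Fin N) ℚ) ∈ ht_int N := by
  obtain ⟨x, rfl⟩ := h
  exact ⟨C x, by rw [map_C]; rfl⟩

private theorem ht_int_X {N : ℕ} (i : Fin N) : (X i : MvPolynomial (Fin N) ℚ) ∈ ht_int N := ⟨X i, map_X _ _⟩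

private theorem ht_denom {m N A M M' : ℕ} {G : MvPolynomial (Fin m) ℚ} {f : Fin m → MvPolynomial (Fin N) ℚ}
    (hG : G.totalDegree ≤ A) (hM : ∀ u, ∃ x : ℤ, (M : ℚ) * coeff u G = x)
    (hf : ∀ i, C (M' : ℚ) * f i ∈ ht_int N) : C ((M : ℚ) * (M' : ℚ) ^ A) * aeval f G ∈ ht_int N := by
  rw [ht_aeval_eq, Finset.mul_sum]
  refine Subring.sum_mem _ fun γ hγ => ?_
  have h1 := ht_sum_le hG hγ
  have h2 : C ((M : ℚ) * (M' : ℚ) ^ A) * (C (coeff γ G) * ∏ i, f i ^ γ i) =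
      C ((M : ℚ) * coeff γ G) * (C (M' : ℚ) ^ (A - ∑ i, γ i) * ∏ i, (C (M' : ℚ) * f i) ^ γ i) := by
    have h3 : ∏ i, (C (M' : ℚ) * f i) ^ γ i = C (M' : ℚ) ^ (∑ i, γ i) * ∏ i, f i ^ γ i := by
      rw [← Finset.prod_pow_eq_pow_sum, ← Finset.prod_mul_distrib]
      exact Finset.prod_congr rfl fun i _ => mul_pow _ _ _
    have h4 : (C (M' : ℚ) ^ A : MvPolynomial (Fin N) ℚ) = C (M' : ℚ) ^ (A - ∑ i, γ i) * C (M' : ℚ) ^ (∑ i, γ i) := by
      rw [← pow_add, Nat.sub_add_cancel h1]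
    rw [h3, C_mul, C_mul, C_pow, h4]
    ring
  rw [h2]
  refine Subring.mul_mem _ (ht_int_C (hM γ)) (Subring.mul_mem _ (Subring.pow_mem _ (ht_int_C ⟨M', by push_cast; rfl⟩) _) ?_)
  exact Subring.prod_mem _ fun i _ => Subring.pow_mem _ (hf i) _

private theorem ht_lf_deg {N : ℕ} (q : Fin N → ℚ) : (lf q).totalDegree ≤ 1 := by
  unfold lf
  refine totalDegree_finsetSum_le fun i _ => ?_
  refine (totalDegree_mul _ _).trans ?_
  rw [totalDegree_C, totalDegree_X]

private theorem ht_lf_l1 {N : ℕ} {q : Fin N → ℚ} {b : ℚ} (h : ∀ y, |q y| ≤ b) (hb : 0 ≤ b) : ht_l1 (lf q) ≤ N * b := by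
  unfold lf
  refine (ht_l1_sum _ _).trans ?_
  have h1 : ∀ y ∈ (Finset.univ : Finset (Fin N)), ht_l1 (C (q y) * X y.castSucc : MvPolynomial (Fin (N + 1)) ℚ) ≤ b := by
    intro y _
    refine (ht_l1_mul _ _).trans ?_
    have := mul_le_mul ((ht_l1_C (N := N + 1) (q y)).trans (h y)) (ht_l1_X (y.castSucc)) (ht_l1_nonneg _) hb
    rwa [mul_one] at this
  refine (Finset.sum_le_sum h1).trans ?_
  rw [Finset.sum_const, nsmul_eq_mul, Finset.card_univ, Fintype.card_fin]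

private theorem ht_lf_int {N M' : ℕ} {q : Fin N → ℚ} (h : ∀ y, ∃ x : ℤ, (M' : ℚ) * q y = x) :
    C (M' : ℚ) * lf q ∈ ht_int (N + 1) := by
  unfold lf
  rw [Finset.mul_sum]
  refine Subring.sum_mem _ fun y _ => ?_
  rw [← mul_assoc, ← C_mul]
  exact Subring.mul_mem _ (ht_int_C (h y)) (ht_int_X _)

/-- Heights of expressions.

Proof. `exN x q q' = ∑ γ ∈ support G, C (coeff γ G) * ∏ i, L_i ^ γ i` for `G = pcPoly m x.1`, `m = x.2.length ≤ T ^ A`, `totalDegree G ≤ A`, `L_i = lf (q i) + X (last) * lf (q' i)` of degree at most `2` (`aeval_def`, `eval₂_eq'`). Denominators: the coefficients of `M' L_i` are integers (`M' L_i` is the image of a polynomial over `ℤ`), so those of `M' ^ A * ∏ i, L_i ^ γ i` are integers for `∑ γ i ≤ A`, and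
`M * M' ^ A` is a common denominator of the coefficients of `exN x q q'`. Size: for the sum `‖P‖` of the absolute values of the coefficients, `‖P P'‖ ≤ ‖P‖ ‖P'‖`, `‖L_i‖ ≤ 2 N T ^ A₁`, and there are at most `(m + 1) ^ A` exponents `γ` of degree at most `A`, so `‖exN x q q'‖ ≤ (T ^ A + 1) ^ A * T ^ A * (2 N T ^ A₁) ^ A + ...`, at most `T ^ A₂`. -/
theorem exN_ht (N A A₁ : ℕ) : ∃ A₂ : ℕ, ∀ (T M M' : ℕ) (x : PCode × List PeriodCode) (q q' : Fin x.2.length → Fin N → ℚ),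
    2 ≤ T → 1 ≤ M → M ≤ T ^ A₁ → 1 ≤ M' → M' ≤ T ^ A₁ →
    x.2.length ≤ T ^ A → (pcPoly x.2.length x.1).totalDegree ≤ A → (∀ u, Bdd A T M (coeff u (pcPoly x.2.length x.1))) →
    (∀ i y, Bdd A₁ T M' (q i y)) → (∀ i y, Bdd A₁ T M' (q' i y)) →
      (exN x q q').totalDegree ≤ A₂ ∧ ∀ u, Ht A₂ T (coeff u (exN x q q')) := by
  refine ⟨2 * A + (A + 1) * A + A + (2 * N + A₁) * A + A₁ * (A + 1), ?_⟩
  intro T M M' x q q' hT hM1 hMT hM1' hMT' hm hG hGT hq hq'
  have hT1 : (1 : ℚ) ≤ T := by exact_mod_cast (by omega : 1 ≤ T)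
  have hT2 : (2 : ℚ) ≤ T := by exact_mod_cast hT
  unfold exN
  have hdeg : ∀ i, (lf (q i) + X (Fin.last N) * lf (q' i)).totalDegree ≤ 2 := by
    intro i
    refine (totalDegree_add _ _).trans (max_le ((ht_lf_deg _).trans (by omega)) ((totalDegree_mul _ _).trans ?_))
    rw [totalDegree_X]
    have := ht_lf_deg (q' i)
    omega
  have hTA : (1 : ℚ) ≤ (T : ℚ) ^ A₁ := one_le_pow₀ hT1
  have hl1 : ∀ i, ht_l1 (lf (q i) + X (Fin.last N) * lf (q' i)) ≤ (T : ℚ) ^ (2 * N + A₁) := by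
    intro i
    have e1 : ht_l1 (lf (q i)) ≤ N * (T : ℚ) ^ A₁ := ht_lf_l1 (fun y => (hq i y).1) (by positivity)
    have e2 : ht_l1 (lf (q' i)) ≤ N * (T : ℚ) ^ A₁ := ht_lf_l1 (fun y => (hq' i y).1) (by positivity)
    have e3 : ht_l1 (X (Fin.last N) * lf (q' i)) ≤ N * (T : ℚ) ^ A₁ := by
      refine (ht_l1_mul _ _).trans ?_
      have := mul_le_mul (ht_l1_X (Fin.last N)) e2 (ht_l1_nonneg _) zero_le_one
      rwa [one_mul] at this
    refine (ht_l1_add _ _).trans ((add_le_add e1 e3).trans ?_)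
    have e4 : ((2 * N : ℕ) : ℚ) ≤ (T : ℚ) ^ (2 * N) := by
      have e5 : 2 * N ≤ T ^ (2 * N) := (Nat.lt_pow_self (by omega : 1 < T)).le
      exact_mod_cast e5
    rw [pow_add]
    calc (N : ℚ) * (T : ℚ) ^ A₁ + N * (T : ℚ) ^ A₁ = ((2 * N : ℕ) : ℚ) * (T : ℚ) ^ A₁ := by push_cast; ring
      _ ≤ (T : ℚ) ^ (2 * N) * (T : ℚ) ^ A₁ := mul_le_mul_of_nonneg_right e4 (by positivity)
  refine ⟨(ht_deg hG hdeg).trans (by
    have := Nat.zero_le ((A + 1) * A + A + (2 * N + A₁) * A + A₁ * (A + 1))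
    omega), fun u => ⟨?_, M * M' ^ A, ?_, ?_, ?_⟩⟩
  · refine (ht_coeff_le _ u).trans ((ht_size hG (fun u => (hGT u).1) (by positivity) (one_le_pow₀ hT1) hl1).trans ?_)
    have e1 : ((x.2.length + 1 : ℕ) : ℚ) ≤ (T : ℚ) ^ (A + 1) := by
      have e2 : x.2.length + 1 ≤ T ^ (A + 1) := by
        have e3 : 1 ≤ T ^ A := Nat.one_le_pow _ _ (by omega)
        rw [pow_succ]
        nlinarith
      exact_mod_cast e2
    calc ((x.2.length + 1 : ℕ) : ℚ) ^ A * ((T : ℚ) ^ A * ((T : ℚ) ^ (2 * N + A₁)) ^ A) ≤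
        ((T : ℚ) ^ (A + 1)) ^ A * ((T : ℚ) ^ A * ((T : ℚ) ^ (2 * N + A₁)) ^ A) :=
          mul_le_mul_of_nonneg_right (pow_le_pow_left₀ (by positivity) e1 A) (by positivity)
      _ = (T : ℚ) ^ ((A + 1) * A + A + (2 * N + A₁) * A) := by
          rw [← pow_mul, ← pow_mul, ← pow_add, ← pow_add, add_assoc]
      _ ≤ _ := pow_le_pow_right₀ hT1 (by omega)
  · exact Nat.mul_pos hM1 (Nat.pow_pos hM1')
  · calc M * M' ^ A ≤ T ^ A₁ * (T ^ A₁) ^ A := Nat.mul_le_mul hMT (Nat.pow_le_pow_left hMT' A)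
      _ = T ^ (A₁ * (A + 1)) := by
          rw [← pow_mul, ← pow_add]
          congr 1
          ring
      _ ≤ _ := Nat.pow_le_pow_right (by omega) (by omega)
  · have h1 : C ((M : ℚ) * (M' : ℚ) ^ A) * aeval (fun i => lf (q i) + X (Fin.last N) * lf (q' i))
        (pcPoly x.2.length x.1) ∈ ht_int (N + 1) := by
      refine ht_denom hG (fun u => (hGT u).2) fun i => ?_
      rw [mul_add]
      refine Subring.add_mem _ (ht_lf_int fun y => (hq i y).2) ?_
      rw [mul_left_comm]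
      exact Subring.mul_mem _ (ht_int_X _) (ht_lf_int fun y => (hq' i y).2)
    obtain ⟨y, hy⟩ := ht_int_coeff h1 u
    refine ⟨y, ?_⟩
    rw [← hy, coeff_C_mul]
    push_cast
    rfl

/-- The value of the expression. Proof: `exN` is an `aeval`; compose (`aeval` of `aeval`, as in `exists_total`, Total.lean): `aeval (ptI v) (lf q + X last * lf q') = ∑ q v + i ∑ q' v`, and `period X = value X.1 + i value X.2` (`Complex.mk_eq_add_mul_I`). -/
theorem exN_val {N : ℕ} {x : PCode × List PeriodCode} {q q' : Fin x.2.length → Fin N → ℚ} {v : Fin N → ℝ}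
    (h : ∀ i, value (x.2.get i).1 = ∑ y, (q i y : ℝ) * v y) (h' : ∀ i, value (x.2.get i).2 = ∑ y, (q' i y : ℝ) * v y) :
    aeval (ptI v) (exN x q q') = aeval (fun i : Fin x.2.length => period (x.2.get i)) (pcPoly x.2.length x.1) := by
  have hlf : ∀ q : Fin N → ℚ, aeval (ptI v) (lf q) = ((∑ y, (q y : ℝ) * v y : ℝ) : ℂ) := by
    intro q
    unfold lf
    rw [map_sum]
    push_cast
    refine Finset.sum_congr rfl fun y _ => ?_
    rw [map_mul, aeval_X, aeval_C]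
    have e1 : ptI v y.castSucc = (v y : ℂ) := by
      unfold ptI
      rw [Fin.snoc_castSucc]
    rw [e1]
    rfl
  have hI : ptI v (Fin.last N) = Complex.I := by
    unfold ptI
    rw [Fin.snoc_last]
  have key : ∀ P : MvPolynomial (Fin x.2.length) ℚ,
      aeval (ptI v) (aeval (fun i => lf (q i) + X (Fin.last N) * lf (q' i)) P) =
        aeval (fun i : Fin x.2.length => period (x.2.get i)) P := by
    intro P
    rw [← AlgHom.comp_apply]
    congr 1
    apply algHom_ext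
    intro i
    rw [AlgHom.comp_apply, aeval_X, aeval_X, map_add, map_mul, aeval_X, hlf, hlf, hI, ← h, ← h', period, mul_comm]
    exact (Complex.mk_eq_add_mul_I _ _).symm
  exact key _

end Pool.Agent.Lib.MP_bbe012_lc.PN
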