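import Pool.Agent.Lib.MP_bbe012_lc.PN.AFE
import Pool.Agent.Lib.MP_bbe012_lc.PN.ABas
import Pool.Agent.Lib.MP_bbe012_lc.PN.BVR
import Pool.Agent.Lib.MP_bbe012_lc.PN.CCell
import Pool.Agent.Lib.MP_bbe012_lc.PN.Ht

/-!
# The data for all cells; completeness of the representations
-/

namespace Pool.Agent.Lib.MP_bbe012_lc.PN

open MvPolynomial MeasureTheory Set PP PG PM Filter Topology

private noncomputable def crPhi (s : ℕ) : MvPolynomial (Fin (s + 1)) ℚ →ₐ[ℚ] Polynomial (MvPolynomial (Fin s) ℚ) :=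
  aeval (Fin.snoc (fun i => Polynomial.C (X i)) Polynomial.X : Fin (s + 1) → Polynomial (MvPolynomial (Fin s) ℚ))

private noncomputable def crPsi (s : ℕ) : Polynomial (MvPolynomial (Fin s) ℚ) →+* MvPolynomial (Fin (s + 1)) ℚ :=
  Polynomial.eval₂RingHom (rename Fin.castSucc : MvPolynomial (Fin s) ℚ →ₐ[ℚ] MvPolynomial (Fin (s + 1)) ℚ).toRingHom
    (X (Fin.last s))

private theorem crPsi_crPhi {s : ℕ} (b : MvPolynomial (Fin (s + 1)) ℚ) : crPsi s (crPhi s b) = b := by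
  induction b using MvPolynomial.induction_on with
  | C a =>
    rw [crPhi, aeval_C, Polynomial.algebraMap_apply, algebraMap_eq, crPsi, Polynomial.coe_eval₂RingHom,
      Polynomial.eval₂_C]
    exact rename_C _ _
  | add p q hp hq => rw [map_add, map_add, hp, hq]
  | mul_X p i hp =>
    rw [map_mul, map_mul, hp]
    congr 1
    rw [crPhi, aeval_X]
    refine Fin.lastCases ?_ (fun i => ?_) i
    · rw [Fin.snoc_last, crPsi, Polynomial.coe_eval₂RingHom, Polynomial.eval₂_X]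
    · rw [Fin.snoc_castSucc, crPsi, Polynomial.coe_eval₂RingHom, Polynomial.eval₂_C]
      exact rename_X _ _

private theorem spp_crPhi {s : ℕ} (b : MvPolynomial (Fin (s + 1)) ℚ) (θ : Fin s → ℚ) :
    Polynomial.map (eval θ) (crPhi s b) = spp b θ := by
  induction b using MvPolynomial.induction_on with
  | C a =>
    rw [crPhi, aeval_C, Polynomial.algebraMap_apply, algebraMap_eq, Polynomial.map_C, eval_C, spp, aeval_C]
    rfl
  | add p q hp hq =>
    have h1 : spp (p + q) θ = spp p θ + spp q θ := map_add _ _ _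
    rw [map_add, Polynomial.map_add, hp, hq, h1]
  | mul_X p i hp =>
    have h1 : spp (p * X i) θ = spp p θ * spp (X i) θ := map_mul _ _ _
    rw [map_mul, Polynomial.map_mul, hp, h1]
    congr 1
    rw [crPhi, aeval_X, spp, aeval_X]
    refine Fin.lastCases ?_ (fun i => ?_) i
    · rw [Fin.snoc_last, Fin.snoc_last, Polynomial.map_X]
    · rw [Fin.snoc_castSucc, Fin.snoc_castSucc, Polynomial.map_C, eval_X]

private theorem aeval_cst {s : ℕ} (θ : Fin s → ℚ) (p : MvPolynomial (Fin s) ℚ) :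
    aeval (cst θ) p = ((eval θ p : ℚ) : ℝ) := by
  induction p using MvPolynomial.induction_on with
  | C a => rw [aeval_C, eval_C]; rfl
  | add p q hp hq => rw [map_add, map_add, hp, hq, Rat.cast_add]
  | mul_X p i hp => rw [map_mul, map_mul, hp, Rat.cast_mul, aeval_X, eval_X]; rfl

private theorem hh_psg_ne {s : ℕ} (F : Sup s) (σ : Fin F.r → Bool) : hh (psg F σ) ≠ 0 := by
  rw [hh]
  refine mul_ne_zero (Finset.prod_ne_zero_iff.mpr fun j _ => ?_) (Finset.prod_ne_zero_iff.mpr fun i _ => ?_)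
  · rw [psg]
    split_ifs
    · exact sh_ne_zero (F.g0 j)
    · exact neg_ne_zero.mpr (sh_ne_zero (F.g0 j))
  · intro h0
    have h1 : vl (1 - X (Sum.inr i) ^ 2 : Pz s F.n) 0 0 = 1 := by
      simp [vl]
    rw [h0] at h1
    have h2 : vl (0 : Pz s F.n) 0 0 = 0 := map_zero _
    rw [h2] at h1
    exact zero_ne_one h1

/-- The data of a cell.

Proof. `h = hh (psg F σ) ≠ 0` (`sh_ne_zero`). `gen_FE` gives `kk, b`; let `j = (degree of b in the last variable) + 1`, so `(spp b θ).natDegree + 1 ≤ j`; some coefficient of a power of `t` in `b` is a non zero polynomial `β(θ)`, and `spp b θ ≠ 0` if `β(θ) ≠ 0`. `gen_basis` for `j` gives `D`. `exists_VR` for `D.W`, `D.k` gives `z₁, V`. For every `j`, `g_j(θ, x)` has a non zero coefficient `γ_j(θ)` (as polynomial in `x`).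
`z = z₁ β ∏ γ_j`. -/
theorem exists_bas {s : ℕ} (F : Sup s) (σ : Fin F.r → Bool) :
    ∃ (D : Bas s F.n) (z : MvPolynomial (Fin s) ℚ) (V : Fin D.N → (Fin s → ℝ) → ℝ), z ≠ 0 ∧ BasOK F σ D z V ∧
      SpanN (hh (psg F σ)) D := by
  have h0 := hh_psg_ne F σ
  obtain ⟨kk, b, hb0, hFE⟩ := gen_FE h0
  have hP0 : crPhi s b ≠ 0 := by
    intro h
    apply hb0
    rw [← crPsi_crPhi b, h, map_zero]
  obtain ⟨D, hDj, hspan⟩ := gen_basis h0 ((crPhi s b).natDegree + 1)
  obtain ⟨z₁, V, hz₁, hVa, hVr⟩ := exists_VR (psg F σ) h0 D.W D.k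
  obtain ⟨z₂, -, hz₂, -, hnz, -⟩ := exists_W
    ({ n := F.n, Q := 1, L := List.ofFn F.g, Q0 := one_ne_zero, L0 := by
        intro l hl
        obtain ⟨j, rfl⟩ := (List.mem_ofFn' _ _).mp hl
        exact F.g0 j } : Fam s) 0
  refine ⟨D, z₁ * ((crPhi s b).leadingCoeff * z₂), V,
    mul_ne_zero hz₁ (mul_ne_zero (Polynomial.leadingCoeff_ne_zero.mpr hP0) hz₂), ⟨?_, ?_, ?_, ?_⟩, hspan⟩
  · intro i θ hθ
    simp only [mem_ofPred_eq, map_mul] at hθ
    exact hVa i θ (left_ne_zero_of_mul hθ)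
  · intro θ hθ
    rw [map_mul] at hθ
    exact hVr θ (left_ne_zero_of_mul hθ)
  · intro θ hθ
    rw [map_mul, map_mul] at hθ
    have h1 := left_ne_zero_of_mul (right_ne_zero_of_mul hθ)
    rw [aeval_cst] at h1
    refine ⟨kk, spp b θ, ?_, ?_, hFE θ⟩
    · intro h2
      rw [← spp_crPhi] at h2
      have h3 := congrArg (fun p => Polynomial.coeff p (crPhi s b).natDegree) h2
      simp only [Polynomial.coeff_map, Polynomial.coeff_zero] at h3
      apply h1
      rw [Polynomial.leadingCoeff, h3, Rat.cast_zero]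
    · rw [hDj, ← spp_crPhi]
      exact Nat.succ_le_succ Polynomial.natDegree_map_le
  · intro θ hθ j
    rw [map_mul, map_mul] at hθ
    exact (hnz θ (right_ne_zero_of_mul (right_ne_zero_of_mul hθ))).2 (F.g j) ((List.mem_ofFn' _ _).mpr ⟨j, rfl⟩)

private theorem BasOK.mulR {s : ℕ} {F : Sup s} {σ : Fin F.r → Bool} {D : Bas s F.n} {z w : MvPolynomial (Fin s) ℚ}
    {V : Fin D.N → (Fin s → ℝ) → ℝ} (h : BasOK F σ D z V) : BasOK F σ D (z * w) V := by
  refine ⟨fun i θ hθ => ?_, fun θ hθ => ?_, fun θ hθ => ?_, fun θ hθ => ?_⟩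
  · simp only [mem_ofPred_eq, map_mul] at hθ
    exact h.ana i θ (left_ne_zero_of_mul hθ)
  · rw [map_mul] at hθ
    exact h.reg θ (left_ne_zero_of_mul hθ)
  · rw [map_mul] at hθ
    exact h.fe θ (left_ne_zero_of_mul hθ)
  · rw [map_mul] at hθ
    exact h.nz θ (left_ne_zero_of_mul hθ)

/-- The data of all cells. Proof: `exists_bas` for every cell, `z = ∏ z_l`; `BasOK` for `z_l` implies `BasOK` for a multiple. -/
theorem exists_all {s μ : ℕ} (F : Fin μ → Sup s) :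
    ∃ (D : (l : Lam F) → Bas s (F l.1).n) (z : MvPolynomial (Fin s) ℚ) (V : Ix D → (Fin s → ℝ) → ℝ), z ≠ 0 ∧
      (∀ l, BasOK (F l.1) l.2 (D l) z fun i => V ⟨l, i⟩) ∧ ∀ l, SpanN (hh (psg (F l.1) l.2)) (D l) := by
  classical
  choose D z V hz hOK hS using fun l : Lam F => exists_bas (F l.1) l.2
  refine ⟨D, ∏ l, z l, fun x => V x.1 x.2, Finset.prod_ne_zero_iff.mpr fun l _ => hz l, fun l => ?_, hS⟩
  rw [← Finset.mul_prod_erase _ _ (Finset.mem_univ l)]
  exact (hOK l).mulR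

private theorem bdd_zero (B T q : ℕ) : Bdd B T q 0 :=
  ⟨by rw [abs_zero]; positivity, 0, by simp⟩

/-- `∑ a, x a * y a` is bounded, with denominator `q N`. -/
private theorem bdd_sum {ι : Type} [Fintype ι] {A B C T q N : ℕ} {x y : ι → ℚ} (hT : 2 ≤ T) (hx : ∀ a, Bdd A T q (x a))
    (hy : ∀ a, |y a| ≤ (T : ℚ) ^ B ∧ ∃ z : ℤ, (N : ℚ) * y a = z) (hC : Fintype.card ι + (A + B) ≤ C) :
    Bdd C T (q * N) (∑ a, x a * y a) := by
  have hT1 : (1 : ℚ) ≤ T := by exact_mod_cast (by omega : 1 ≤ T)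
  constructor
  · calc |∑ a, x a * y a| ≤ ∑ a, |x a * y a| := Finset.abs_sum_le_sum_abs _ _
      _ ≤ ∑ _a : ι, (T : ℚ) ^ (A + B) := by
          refine Finset.sum_le_sum fun a _ => ?_
          rw [abs_mul, pow_add]
          exact mul_le_mul (hx a).1 (hy a).1 (abs_nonneg _) (by positivity)
      _ = (Fintype.card ι : ℚ) * (T : ℚ) ^ (A + B) := by
          rw [Finset.sum_const, Finset.card_univ, nsmul_eq_mul]
      _ ≤ (T : ℚ) ^ (Fintype.card ι) * (T : ℚ) ^ (A + B) := by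
          refine mul_le_mul_of_nonneg_right ?_ (by positivity)
          have h1 : Fintype.card ι ≤ T ^ Fintype.card ι :=
            (Nat.lt_two_pow_self).le.trans (Nat.pow_le_pow_left hT _)
          exact_mod_cast h1
      _ = (T : ℚ) ^ (Fintype.card ι + (A + B)) := by rw [← pow_add]
      _ ≤ (T : ℚ) ^ C := pow_le_pow_right₀ hT1 hC
  · choose u hu using fun a => (hx a).2
    choose v hv using fun a => (hy a).2
    refine ⟨∑ a, u a * v a, ?_⟩
    push_cast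
    rw [Finset.mul_sum]
    refine Finset.sum_congr rfl fun a _ => ?_
    rw [← hu, ← hv]
    ring

private theorem sgn_cases {s : ℕ} {F : Sup s} (σ : Fin F.r → Bool) {θ : Fin s → ℚ} {p : MvPolynomial (Fin F.n) ℚ}
    (h : ∃ c κ, IsMon F θ c κ p) : SgnT F σ θ true p ∨ SgnT F σ θ false p := by
  obtain ⟨c, κ, hc⟩ := h
  have h1 : c * ∏ j, sg (σ j) ^ κ j ≠ 0 := by
    refine mul_ne_zero hc.1 (Finset.prod_ne_zero_iff.mpr fun j _ => pow_ne_zero _ ?_)
    rw [sg]
    split_ifs <;> norm_num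
  rcases lt_or_gt_of_ne h1 with h2 | h2
  · right
    refine ⟨c, κ, hc, ?_⟩
    have : sg false = -1 := by simp [sg]
    rw [this]
    linarith
  · left
    refine ⟨c, κ, hc, ?_⟩
    have : sg true = 1 := by simp [sg]
    rw [this]
    linarith

/-- Every integral of the class has a representation, with bounded coefficients and a common denominator.

Proof. `z' = ∏ l, z'_l` with `cell_complete` for every cell and `A`. Let `ItemN (F k) A T q θ I`, with `c, κ` for the denominator. For the cells `l = (k, σ)`: every polynomial `t` of the system is `C c_t ∏ g_j ^ κ_j` with `c_t ≠ 0`, so `c_t * ∏ sg (σ j) ^ κ_j` is not zero: either all are positive (first alternative, with the coefficients of `cell_complete`), or one is negative (second alternative,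
`q = 0`). For `l.1 ≠ k`: `q = 0`. The finitely many numbers `eval θ (qn ..) / eval θ z'_l` have heights bounded by `ht_poly`, `Ht.inv`, `Ht.mul` and so a common denominator `N` (`ht_common`). -/
theorem rep_complete {s μ : ℕ} {F : Fin μ → Sup s} {D : (l : Lam F) → Bas s (F l.1).n}
    (hD : ∀ l, SpanN (hh (psg (F l.1) l.2)) (D l)) (A : ℕ) :
    ∃ (z' : MvPolynomial (Fin s) ℚ) (A₁ : ℕ), z' ≠ 0 ∧ ∀ T : ℕ, 2 ≤ T → ∀ θ : Fin s → ℚ, (∀ i, HLE T (θ i)) →
      eval θ z' ≠ 0 → ∃ N : ℕ, 1 ≤ N ∧ N ≤ T ^ A₁ ∧ ∀ (k : Fin μ) (q : ℕ) (I : IntCode), 1 ≤ q → q ≤ T ^ A →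
        ItemN (F k) A T q θ I → ∃ qv : Ix D → ℚ, RepN D θ I qv ∧ ∀ y, Bdd A₁ T (q * N) (qv y) := by
  classical
  choose z' qn hz' hqn using fun l : Lam F => cell_complete (F l.1) l.2 (hD l) A
  obtain ⟨B₁, hB₁⟩ := ht_poly (ι := Σ l : Lam F, (Fin (F l.1).n → Fin (A + 1)) × (Fin (F l.1).r → Fin (A + 1)) × Fin (D l).N)
    fun x => qn x.1 x.2.1 x.2.2.1 x.2.2.2
  obtain ⟨B₂, hB₂⟩ := ht_poly z'
  refine ⟨∏ l, z' l,
    Fintype.card (Σ l : Lam F, (Fin (F l.1).n → Fin (A + 1)) × (Fin (F l.1).r → Fin (A + 1)) × Fin (D l).N) *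
      (B₁ + 2 * B₂) + ((∑ k : Fin μ, Fintype.card (Fin (F k).n → Fin (A + 1))) + (A + (B₁ + 2 * B₂))),
    Finset.prod_ne_zero_iff.mpr fun l _ => hz' l, ?_⟩
  intro T hT θ hθ hz
  rw [map_prod, Finset.prod_ne_zero_iff] at hz
  have hr : ∀ y : Σ l : Lam F, (Fin (F l.1).n → Fin (A + 1)) × (Fin (F l.1).r → Fin (A + 1)) × Fin (D l).N,
      Ht (B₁ + 2 * B₂) T (eval θ (qn y.1 y.2.1 y.2.2.1 y.2.2.2) / eval θ (z' y.1)) := by
    intro y
    rw [div_eq_mul_inv]
    exact Ht.mul hT (hB₁ T hT θ hθ y) (Ht.inv hT (hB₂ T hT θ hθ y.1))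
  obtain ⟨N, hN1, hN2, hN3⟩ := ht_common hr
  refine ⟨N, hN1, hN2.trans (Nat.pow_le_pow_right (by omega) (Nat.le_add_right _ _)), ?_⟩
  intro k q I hq hqT hI
  obtain ⟨hI1, ⟨c, κ, hmon, hκ, hco⟩, hsys, hdeg⟩ := hI
  have key : ∀ l : Lam F, ∃ f : Fin (D l).N → ℚ,
      ((l.1 = k ∧ (∀ t ∈ I.2.2, SgnT (F l.1) l.2 θ true (pcPoly (F l.1).n t.2)) ∧ CertC (F l.1) l.2 (D l) θ I f) ∨
        ((l.1 ≠ k ∨ ∃ t ∈ I.2.2, SgnT (F l.1) l.2 θ false (pcPoly (F l.1).n t.2)) ∧ ∀ i, f i = 0)) ∧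
      ∀ i, Bdd (Fintype.card (Σ l : Lam F, (Fin (F l.1).n → Fin (A + 1)) × (Fin (F l.1).r → Fin (A + 1)) × Fin (D l).N) *
        (B₁ + 2 * B₂) + ((∑ k : Fin μ, Fintype.card (Fin (F k).n → Fin (A + 1))) + (A + (B₁ + 2 * B₂)))) T (q * N) (f i) := by
    rintro ⟨k', σ⟩
    by_cases hk : k' = k
    · subst hk
      by_cases hneg : ∃ t ∈ I.2.2, SgnT (F k') σ θ false (pcPoly (F k').n t.2)
      · exact ⟨fun _ => 0, Or.inr ⟨Or.inr hneg, fun _ => rfl⟩, fun _ => bdd_zero _ _ _⟩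
      · have hpos : ∀ t ∈ I.2.2, SgnT (F k') σ θ true (pcPoly (F k').n t.2) := by
          intro t ht
          rcases sgn_cases σ (hsys t ht) with h | h
          · exact h
          · exact absurd ⟨t, ht, h⟩ hneg
        let κ' : Fin (F k').r → Fin (A + 1) := fun j => ⟨κ j, Nat.lt_succ_of_le (hκ j)⟩
        have hc := hqn ⟨k', σ⟩ θ (hz _ (Finset.mem_univ _)) I c κ' hI1 hmon hdeg
        refine ⟨_, Or.inl ⟨rfl, hpos, hc⟩, fun i => ?_⟩
        refine bdd_sum hT (fun a => hco (fx a))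
          (fun a => ⟨(hr ⟨⟨k', σ⟩, a, κ', i⟩).1, hN3 ⟨⟨k', σ⟩, a, κ', i⟩⟩) ?_
        have h1 : Fintype.card (Fin (F k').n → Fin (A + 1)) ≤ ∑ k : Fin μ, Fintype.card (Fin (F k).n → Fin (A + 1)) :=
          Finset.single_le_sum (f := fun k : Fin μ => Fintype.card (Fin (F k).n → Fin (A + 1)))
            (fun _ _ => Nat.zero_le _) (Finset.mem_univ k')
        exact (Nat.add_le_add_right h1 _).trans (Nat.le_add_left _ _)
    · exact ⟨fun _ => 0, Or.inr ⟨Or.inl hk, fun _ => rfl⟩, fun _ => bdd_zero _ _ _⟩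
  choose f hf hfh using key
  exact ⟨fun y => f y.1 y.2, ⟨k, hI1, fun l => hf l⟩, fun y => hfh y.1 y.2⟩

end Pool.Agent.Lib.MP_bbe012_lc.PN
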