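import Pool.Agent.Lib.MP_bbe012_lc.PN.BCert

/-!
# The values of integrals as sums over cells
-/

namespace Pool.Agent.Lib.MP_bbe012_lc.PN

open MvPolynomial MeasureTheory Set PP PG PM Filter Topology

private theorem cv_cube {n : ℕ} (x : Fin n → ℝ) : x ∈ cube n ↔ ∀ i, x i ^ 2 < 1 := by
  constructor
  · intro hx i
    have := one_sub_sq_pos (hx i)
    linarith
  · intro hx i
    exact mem_Ioo_of_pos (by linarith [hx i])

private theorem cv_neg {s n : ℕ} (G : Pz s n) (θ : Fin s → ℝ) (x : Fin n → ℝ) : vl (-G) θ x = - vl G θ x :=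
  map_neg _ _

private theorem cv_cont {s n : ℕ} (G : Pz s n) (θ : Fin s → ℝ) : Continuous fun x => vl G θ x :=
  (vl_cont G).comp (continuous_const.prodMk continuous_id)

private theorem cv_psg {s : ℕ} (F : Sup s) (σ : Fin F.r → Bool) (j : Fin F.r) (θ : Fin s → ℝ) {y : Fin F.n → ℝ}
    (hy : y ∈ cube F.n) : 0 < vl (psg F σ j) θ y ↔ 0 < (sg (σ j) : ℝ) * vl (F.g j) θ (phi y) := by
  unfold psg sg
  split_ifs with h
  · rw [vl_sh_pos _ _ hy, Rat.cast_one, one_mul]
  · rw [cv_neg, vl_sh _ _ hy, ← mul_neg, mul_pos_iff_of_pos_left (pow_pos (ww_pos hy) _)]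
    push_cast
    rw [neg_one_mul]

private theorem cv_rg {s : ℕ} (F : Sup s) (σ : Fin F.r → Bool) (θ : Fin s → ℝ) (y : Fin F.n → ℝ) :
    y ∈ rg (psg F σ) θ ↔ y ∈ cube F.n ∧ ∀ j, 0 < (sg (σ j) : ℝ) * vl (F.g j) θ (phi y) := by
  rw [rg, mem_ofPred_eq, ← cv_cube]
  exact and_congr_right fun hy => forall_congr' fun j => cv_psg F σ j θ hy

/-- The substitution maps the region `rg (psg F σ) θ` onto the cell. Proof: as `image_rg` (PM/Wx.lean): `vl_sh_pos`, `phi_surj`. -/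
theorem image_psg {s : ℕ} (F : Sup s) (σ : Fin F.r → Bool) (θ : Fin s → ℝ) :
    phi '' rg (psg F σ) θ = {x | ∀ j, 0 < (sg (σ j) : ℝ) * vl (F.g j) θ x} := by
  ext x
  constructor
  · rintro ⟨y, hy, rfl⟩
    exact ((cv_rg F σ θ y).mp hy).2
  · intro hx
    obtain ⟨y, hy, rfl⟩ := phi_surj x
    exact ⟨y, (cv_rg F σ θ y).mpr ⟨hy, hx⟩, rfl⟩

private theorem cv_open {s n r : ℕ} (p : Fin r → Pz s n) (θ : Fin s → ℝ) : IsOpen (rg p θ) := by
  have h1 : rg p θ = cube n ∩ ⋂ j, {x | 0 < vl (p j) θ x} := by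
    ext x
    rw [rg, mem_ofPred_eq, mem_inter_iff, cv_cube, mem_iInter]
    rfl
  rw [h1]
  exact isOpen_cube.inter (isOpen_iInter_of_finite fun j => isOpen_lt continuous_const (cv_cont _ θ))

private theorem cv_cell {s : ℕ} (F : Sup s) (σ : Fin F.r → Bool) (θ : Fin s → ℝ) :
    IsOpen {x | ∀ j, 0 < (sg (σ j) : ℝ) * vl (F.g j) θ x} := by
  have h1 : {x | ∀ j, 0 < (sg (σ j) : ℝ) * vl (F.g j) θ x} =
      ⋂ j, {x | 0 < (sg (σ j) : ℝ) * vl (F.g j) θ x} := by
    ext x
    rw [mem_iInter]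
    rfl
  rw [h1]
  exact isOpen_iInter_of_finite fun j => isOpen_lt continuous_const (continuous_const.mul (cv_cont _ θ))

/-- The part of an admissible integral over a cell contained in the domain.

Proof. `bdInt` (Bd.lean): `integrand (bdInt I) y = jac y * integrand I (phi y)` on the cube (`integrand_bdInt`), `change_integral`, `change_integrable`, `image_psg`. -/
theorem cell_bd {s : ℕ} (F : Sup s) (σ : Fin F.r → Bool) (θ : Fin s → ℝ) (P Q : PCode) (S : SysCode)
    (hi : IntegrableOn (fun x => pcEval F.n P x / pcEval F.n Q x) {x | ∀ j, 0 < (sg (σ j) : ℝ) * vl (F.g j) θ x}) :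
    IntegrableOn (fun y => evR (pcPoly F.n (bdInt (F.n, (P, Q), S)).2.1.1) y /
      evR (pcPoly F.n (bdInt (F.n, (P, Q), S)).2.1.2) y) (rg (psg F σ) θ) ∧
    ∫ x in {x | ∀ j, 0 < (sg (σ j) : ℝ) * vl (F.g j) θ x}, pcEval F.n P x / pcEval F.n Q x =
      ∫ y in rg (psg F σ) θ, evR (pcPoly F.n (bdInt (F.n, (P, Q), S)).2.1.1) y /
        evR (pcPoly F.n (bdInt (F.n, (P, Q), S)).2.1.2) y := by
  have hm : MeasurableSet (rg (psg F σ) θ) := (cv_open _ θ).measurableSet
  have hsub : rg (psg F σ) θ ⊆ cube F.n := fun y hy => ((cv_rg F σ θ y).mp hy).1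
  have hE : ∀ y ∈ rg (psg F σ) θ, evR (pcPoly F.n (bdInt (F.n, (P, Q), S)).2.1.1) y /
      evR (pcPoly F.n (bdInt (F.n, (P, Q), S)).2.1.2) y =
      jac y * (pcEval F.n P (phi y) / pcEval F.n Q (phi y)) := fun y hy =>
    integrand_bdInt P Q S (hsub hy)
  rw [← image_psg] at hi ⊢
  constructor
  · rw [change_integrable hm hsub] at hi
    exact (integrableOn_congr_fun hE hm).mpr hi
  · rw [change_integral hm hsub]
    exact setIntegral_congr_fun hm fun y hy => (hE y hy).symm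

private theorem cv_sg (b : Bool) : (sg b : ℝ) * sg b = 1 := by
  unfold sg
  split_ifs <;> norm_num

/-- the sign of a polynomial on a cell -/
private theorem cv_sgn {s : ℕ} {F : Sup s} {σ : Fin F.r → Bool} {θ : Fin s → ℚ} {b : Bool}
    {p : MvPolynomial (Fin F.n) ℚ} (h : SgnT F σ θ b p) {x : Fin F.n → ℝ}
    (hx : ∀ j, 0 < (sg (σ j) : ℝ) * vl (F.g j) (cst θ) x) : 0 < (sg b : ℝ) * aeval x p := by
  obtain ⟨c, κ, ⟨-, hp⟩, hs⟩ := h
  have h1 : aeval x p = (c : ℝ) * ∏ j, vl (F.g j) (cst θ) x ^ κ j := by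
    rw [hp, map_mul, map_prod, aeval_C, eq_ratCast]
    congr 1
    exact Finset.prod_congr rfl fun j _ => by rw [map_pow, vl_spz]
  have h2 : ∏ j, vl (F.g j) (cst θ) x ^ κ j =
      (∏ j, (sg (σ j) : ℝ) ^ κ j) * ∏ j, ((sg (σ j) : ℝ) * vl (F.g j) (cst θ) x) ^ κ j := by
    rw [← Finset.prod_mul_distrib]
    refine Finset.prod_congr rfl fun j _ => ?_
    rw [← mul_pow, ← mul_assoc, cv_sg, one_mul]
  have h3 : 0 < ((sg b * c * ∏ j, sg (σ j) ^ κ j : ℚ) : ℝ) := by exact_mod_cast hs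
  have h4 : 0 < ∏ j, ((sg (σ j) : ℝ) * vl (F.g j) (cst θ) x) ^ κ j :=
    Finset.prod_pos fun j _ => pow_pos (hx j) _
  have h5 := mul_pos h3 h4
  push_cast at h5
  rw [h1, h2]
  have e : (sg b : ℝ) * ((c : ℝ) * ((∏ j, (sg (σ j) : ℝ) ^ κ j) *
      ∏ j, ((sg (σ j) : ℝ) * vl (F.g j) (cst θ) x) ^ κ j)) = sg b * c * (∏ j, (sg (σ j) : ℝ) ^ κ j) *
      ∏ j, ((sg (σ j) : ℝ) * vl (F.g j) (cst θ) x) ^ κ j := by ring
  rw [e]
  exact h5

/-- almost all points are in a cell -/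
private theorem cv_ae {s : ℕ} {F : Sup s} {θ : Fin s → ℚ}
    (h : ∀ j, ∃ x, vl (F.g j) (cst θ) x ≠ 0) :
    ∀ᵐ x : Fin F.n → ℝ, ∃ σ : Fin F.r → Bool, ∀ j, 0 < (sg (σ j) : ℝ) * vl (F.g j) (cst θ) x := by
  have h1 : ∀ j, ∀ᵐ x : Fin F.n → ℝ, vl (F.g j) (cst θ) x ≠ 0 := by
    intro j
    obtain ⟨p, hp⟩ := exists_pcPoly (spz (F.g j) θ)
    have hp0 : pcPoly F.n p ≠ 0 := by
      rw [hp]
      intro h0
      obtain ⟨x, hx⟩ := h j
      apply hx
      rw [vl_spz, h0, map_zero]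
    filter_upwards [ae_pcEval_ne_zero hp0] with x hx
    rw [pcEval, hp] at hx
    rwa [vl_spz]
  filter_upwards [ae_all_iff.2 h1] with x hx
  refine ⟨fun j => decide (0 < vl (F.g j) (cst θ) x), fun j => ?_⟩
  unfold sg
  by_cases h2 : 0 < vl (F.g j) (cst θ) x
  · rw [if_pos (decide_eq_true h2), Rat.cast_one, one_mul]
    exact h2
  · rw [if_neg (by simpa using h2)]
    push_cast
    have := lt_of_le_of_ne (not_lt.1 h2) (hx j)
    linarith

/-- The value of an integral with a representation.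

Proof. `RepN` gives `k` with `I.1 = (F k).n`: `I = ((F k).n, (P, Q), S)` (`obtain`, `subst`). Let `C σ` be the cells of `F k` at `θ` (the sets in `image_psg`): pairwise disjoint, open, and their union is the set where no `g_j(θ, x)` vanishes, of full measure (`BasOK.nz`, `ae_vl_ne_zero` PM/Vm.lean). On `C σ` the polynomial `C c * ∏ spz (g j) θ ^ κ j` has the sign of `c * ∏ sg (σ j) ^ κ j`; so if all `SgnT .. true` hold, `C σ ⊆ domain I`;
if some `SgnT .. false` holds, `C σ ∩ domain I = ∅`. So `value I = ∑ σ, ∫ over C σ ∩ domain I = ∑ over the σ of the first kind of ∫ over C σ` (almost everywhere disjoint decomposition: `MeasureTheory.integral_finset_biUnion`, or integrate the sum of the indicators), each is integrable, and `= ∑ i, q_i V_i` by `cell_bd`, `certM_sound` (the denominator of `bdInt I` is not zero: `admissible_bdInt`)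
and `BasOK`. For `l.1 ≠ k` all `q = 0`. Finally `Fintype.sum_sigma`. -/
theorem rep_sound {s μ : ℕ} {F : Fin μ → Sup s} {D : (l : Lam F) → Bas s (F l.1).n} {z : MvPolynomial (Fin s) ℚ}
    {V : Ix D → (Fin s → ℝ) → ℝ} (hD : ∀ l, BasOK (F l.1) l.2 (D l) z fun i => V ⟨l, i⟩) {θ : Fin s → ℚ}
    (hz : aeval (cst θ) z ≠ 0) {I : IntCode} (hI : Admissible I) {q : Ix D → ℚ} (hq : RepN D θ I q) :
    value I = ∑ y, (q y : ℝ) * V y (cst θ) := by
  classical
  obtain ⟨k, hk, hq⟩ := hq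
  obtain ⟨n, ⟨P, Q⟩, S⟩ := I
  change n = (F k).n at hk
  subst hk
  obtain ⟨C, hC⟩ : ∃ C : (Fin (F k).r → Bool) → Set (Fin (F k).n → ℝ),
      C = fun σ => {x | ∀ j, 0 < (sg (σ j) : ℝ) * vl ((F k).g j) (cst θ) x} := ⟨_, rfl⟩
  obtain ⟨f, hf⟩ : ∃ f : (Fin (F k).n → ℝ) → ℝ, f = fun x => pcEval (F k).n P x / pcEval (F k).n Q x :=
    ⟨_, rfl⟩
  have hCo : ∀ σ, MeasurableSet (C σ) := fun σ => by
    rw [hC]
    exact (cv_cell (F k) σ (cst θ)).measurableSet
  have hSm : MeasurableSet (sysSet (F k).n S) := measurableSet_sysSet _ _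
  have hfi : IntegrableOn f (sysSet (F k).n S) := by
    rw [hf]
    exact hI.2
  have hval : value ((F k).n, (P, Q), S) = ∫ x in sysSet (F k).n S, f x := by
    rw [hf]
    rfl
  have hdis : Pairwise (Function.onFun Disjoint fun σ => sysSet (F k).n S ∩ C σ) := by
    intro σ τ hστ
    rw [Function.onFun, Set.disjoint_left]
    rintro x ⟨-, h1⟩ ⟨-, h2⟩
    rw [hC] at h1 h2
    apply hστ
    funext j
    have h3 := h1 j
    have h4 := h2 j
    by_contra hne
    cases hs : σ j <;> cases ht : τ j <;> rw [hs] at h3 hne <;> rw [ht] at h4 hne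
    · exact hne rfl
    · simp only [sg] at h3 h4
      norm_num at h3 h4
      linarith
    · simp only [sg] at h3 h4
      norm_num at h3 h4
      linarith
    · exact hne rfl
  have hae : (sysSet (F k).n S : Set (Fin (F k).n → ℝ)) =ᵐ[volume] ⋃ σ, (sysSet (F k).n S ∩ C σ) := by
    have h1 := cv_ae (F := F k) (θ := θ) ((hD ⟨k, fun _ => true⟩).nz (cst θ) hz)
    filter_upwards [h1] with x hx
    apply propext
    constructor
    · intro h2
      obtain ⟨σ, hσ⟩ := hx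
      refine Set.mem_iUnion.2 ⟨σ, h2, ?_⟩
      rw [hC]
      exact hσ
    · intro h2
      obtain ⟨σ, hσ⟩ := Set.mem_iUnion.1 h2
      exact hσ.1
  have hsum : value ((F k).n, (P, Q), S) = ∑ σ, ∫ x in sysSet (F k).n S ∩ C σ, f x := by
    rw [hval, setIntegral_congr_set hae]
    exact integral_iUnion_fintype (fun σ => hSm.inter (hCo σ)) hdis
      (fun σ => hfi.mono_set Set.inter_subset_left)
  have hcell : ∀ σ : Fin (F k).r → Bool, ∫ x in sysSet (F k).n S ∩ C σ, f x =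
      ∑ i, (q ⟨⟨k, σ⟩, i⟩ : ℝ) * V ⟨⟨k, σ⟩, i⟩ (cst θ) := by
    intro σ
    rcases hq ⟨k, σ⟩ with ⟨-, h1, h2⟩ | ⟨h1, h2⟩
    · have hsub : C σ ⊆ sysSet (F k).n S := by
        intro x hx c hc
        rw [hC] at hx
        have h3 := cv_sgn (h1 c hc) hx
        have h4 : 0 < pcEval (F k).n c.2 x := by
          unfold sg at h3
          rw [if_pos rfl, Rat.cast_one, one_mul] at h3
          exact h3
        exact ⟨fun _ => h4, fun _ => h4.le⟩
      rw [Set.inter_eq_right.2 hsub]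
      have hi : IntegrableOn f (C σ) := hfi.mono_set hsub
      rw [hf, hC] at hi ⊢
      obtain ⟨h3, h4⟩ := cell_bd (F k) σ (cst θ) P Q S hi
      rw [h4]
      obtain ⟨kk, b, hb0, hbd, hb⟩ := (hD ⟨k, σ⟩).fe θ hz
      exact certM_sound hb0 hb hbd ((hD ⟨k, σ⟩).reg (cst θ) hz) (admissible_bdInt hI).1 h2 h3
    · have h3 : ∃ t ∈ S, SgnT (F k) σ θ false (pcPoly (F k).n t.2) := by
        rcases h1 with h1 | h1
        · exact absurd rfl h1
        · exact h1
      obtain ⟨t, ht, h3⟩ := h3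
      have hemp : sysSet (F k).n S ∩ C σ = ∅ := by
        rw [Set.eq_empty_iff_forall_notMem]
        rintro x ⟨hx1, hx2⟩
        rw [hC] at hx2
        have h4 := cv_sgn h3 hx2
        have h5 : pcEval (F k).n t.2 x < 0 := by
          unfold sg at h4
          rw [if_neg Bool.false_ne_true] at h4
          push_cast at h4
          have h6 : pcEval (F k).n t.2 x = aeval x (pcPoly (F k).n t.2) := rfl
          rw [h6]
          linarith
        obtain ⟨h6, h7⟩ := hx1 t ht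
        cases hb : t.1
        · exact absurd (h7 hb) (not_le.2 h5)
        · exact absurd (h6 hb) (not_lt.2 h5.le)
      rw [hemp, setIntegral_empty]
      symm
      exact Finset.sum_eq_zero fun i _ => by rw [h2 i, Rat.cast_zero, zero_mul]
  rw [hsum, Fintype.sum_sigma, Fintype.sum_sigma, Finset.sum_eq_single k]
  · exact Finset.sum_congr rfl fun σ _ => hcell σ
  · intro k' _ hne
    refine Finset.sum_eq_zero fun σ _ => Finset.sum_eq_zero fun i _ => ?_
    rcases hq ⟨k', σ⟩ with ⟨h1, -⟩ | ⟨-, h2⟩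
    · exact absurd h1 hne
    · rw [h2 i, Rat.cast_zero, zero_mul]
  · intro h
    exact absurd (Finset.mem_univ k) h

end Pool.Agent.Lib.MP_bbe012_lc.PN
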