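import Pool.Agent.Lib.MP_bbe012_lc.PN.Dy
import Pool.Agent.Lib.MP_bbe012_lc.PM.Ct4

/-!
# Few exceptional parameters
-/

namespace Pool.Agent.Lib.MP_bbe012_lc.PN

open MvPolynomial MeasureTheory Set PP PG PM Filter Topology

private theorem cont_aevalX {s : ℕ} (z : MvPolynomial (Fin s) ℚ) : Continuous fun θ : Fin s → ℝ => (aeval θ z : ℝ) := by
  have h : (fun θ : Fin s → ℝ => (aeval θ z : ℝ)) = fun θ => eval θ (map (algebraMap ℚ ℝ) z) := by
    funext θ
    rw [eval_map, aeval_def]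
  rw [h]
  exact MvPolynomial.continuous_eval _

/-- Few exceptional parameters in a compact set.

Proof. Let `Ω = Om z e` (open: `{aeval θ z ≠ 0}` is open, `IsOpen.connectedComponentIn`; preconnected: `isPreconnected_connectedComponentIn`). The set `S ∩ Ω` is compact: `S` is compact and contained in `{z ≠ 0}`, and `S \ Ω` is relatively open in `S` (a point `θ ∉ Ω` with `z(θ) ≠ 0` has the open neighbourhood `connectedComponentIn {z ≠ 0} θ`, disjoint from `Ω`). So `WHyp Ω (S ∩ Ω) V'`; apply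
`count_badQ hs _ A₃` (PM/Ct4.lean). -/
theorem few_rel {s r : ℕ} (hs : 0 < s) {z : MvPolynomial (Fin s) ℚ} {e : Fin s → ℚ} {S : Set (Fin s → ℝ)} (hS : IsCompact S)
    (hSz : ∀ θ ∈ S, aeval θ z ≠ 0) {V' : Fin r → (Fin s → ℝ) → ℝ} (hV : ∀ i, AnalyticOnNhd ℝ (V' i) (Om z e))
    (hI : ∀ P : Fin r → MvPolynomial (Fin s) ℚ, (∀ θ ∈ Om z e, ∑ i, aeval θ (P i) * V' i θ = 0) → ∀ i, P i = 0) (A₃ : ℕ) :
    ∃ C η : ℝ, 0 < C ∧ 0 < η ∧ ∀ T : ℕ, 1 ≤ T →
      ({θ : Fin s → ℚ | (∀ i, HLE T (θ i)) ∧ cst θ ∈ S ∩ Om z e ∧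
        ∃ cc : Fin r → ℤ, cc ≠ 0 ∧ (∀ i, |cc i| ≤ (T : ℤ) ^ A₃) ∧ ∑ i, (cc i : ℝ) * V' i (cst θ) = 0}.ncard : ℝ) ≤
        C * (T : ℝ) ^ (2 * (s : ℝ) - η) := by
  have hop : IsOpen {θ : Fin s → ℝ | aeval θ z ≠ 0} :=
    isOpen_ne_fun (cont_aevalX z) continuous_const
  have hΩ : IsOpen (Om z e) := hop.connectedComponentIn
  have hcl : IsClosed (S ∩ Om z e) := by
    have e1 : S ∩ Om z e = S ∩ (⋃ θ ∈ {θ : Fin s → ℝ | aeval θ z ≠ 0} \ Om z e,
        connectedComponentIn {θ : Fin s → ℝ | aeval θ z ≠ 0} θ)ᶜ := by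
      ext θ
      simp only [Set.mem_inter_iff, Set.mem_compl_iff, Set.mem_iUnion, not_exists]
      refine and_congr_right fun hθ => ⟨fun h θ' hθ' h2 => ?_, fun h => ?_⟩
      · have h3 : connectedComponentIn {θ : Fin s → ℝ | aeval θ z ≠ 0} θ' =
            connectedComponentIn {θ : Fin s → ℝ | aeval θ z ≠ 0} θ := connectedComponentIn_eq h2
        have h4 : connectedComponentIn {θ : Fin s → ℝ | aeval θ z ≠ 0} (cst e) =
            connectedComponentIn {θ : Fin s → ℝ | aeval θ z ≠ 0} θ := connectedComponentIn_eq h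
        apply hθ'.2
        rw [Om, h4, ← h3]
        exact mem_connectedComponentIn hθ'.1
      · by_contra h2
        exact h θ ⟨hSz θ hθ, h2⟩ (mem_connectedComponentIn (hSz θ hθ))
    rw [e1]
    refine hS.isClosed.inter (isOpen_biUnion fun θ _ => ?_).isClosed_compl
    exact hop.connectedComponentIn
  have hW : WHyp (Om z e) (S ∩ Om z e) V' :=
    { op := hΩ
      conn := isPreconnected_connectedComponentIn
      compact := hS.of_isClosed_subset hcl Set.inter_subset_left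
      sub := Set.inter_subset_right
      ana := hV
      indep := hI }
  exact count_badQ hs hW A₃

end Pool.Agent.Lib.MP_bbe012_lc.PN
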