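import Pool.Agent.Lib.MP_bbe012_lc.PN.Ht
import Pool.Agent.Lib.MP_bbe012_lc.PM.Rl

/-!
# Polynomial relations over `ℚ[θ]`
-/

namespace Pool.Agent.Lib.MP_bbe012_lc.PN

open MvPolynomial MeasureTheory Set PP PG PM Filter Topology

/-- The ideal of relations is finitely generated. Proof: the polynomials `G ∈ Pz s (N + 1)` which vanish on the graph form an ideal of a Noetherian ring (`MvPolynomial.isNoetherianRing`, finitely many variables); `Ideal.fg`, `Submodule.fg_iff_exists_fin_generating_family`-like, `Ideal.mem_span_range_iff_exists_fun`. -/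
theorem exists_gens {s N : ℕ} (Ω : Set (Fin s → ℝ)) (V : Fin N → (Fin s → ℝ) → ℝ) :
    ∃ (m : ℕ) (R : Fin m → Pz s (N + 1)), GensOK Ω V R := by
  classical
  let J : Ideal (Pz s (N + 1)) :=
    { carrier := {G | ∀ θ ∈ Ω, (aeval (Sum.elim (fun i => (θ i : ℂ)) (ptI fun i => V i θ)) G : ℂ) = 0}
      add_mem' := by
        intro a b ha hb θ hθ
        rw [map_add, ha θ hθ, hb θ hθ, add_zero]
      zero_mem' := by
        intro θ _
        rw [map_zero]
      smul_mem' := by
        intro c a ha θ hθ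
        rw [smul_eq_mul, map_mul, ha θ hθ, mul_zero] }
  obtain ⟨S, hS⟩ := (isNoetherianRing_iff_ideal_fg _).mp (inferInstance : IsNoetherianRing (Pz s (N + 1))) J
  have hr : (S : Set (Pz s (N + 1))) = range (fun a : Fin S.card => (S.equivFin.symm a : Pz s (N + 1))) := by
    ext G
    constructor
    · intro hG
      refine ⟨S.equivFin ⟨G, hG⟩, ?_⟩
      simp only [Equiv.symm_apply_apply]
    · rintro ⟨a, rfl⟩
      exact (S.equivFin.symm a).2
  refine ⟨S.card, fun a => (S.equivFin.symm a : Pz s (N + 1)), ?_, ?_⟩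
  · intro a
    have h1 : (S.equivFin.symm a : Pz s (N + 1)) ∈ J := by
      rw [← hS]
      exact Ideal.subset_span (Finset.mem_coe.mpr (S.equivFin.symm a).2)
    exact h1
  · intro G hG
    have h1 : G ∈ J := hG
    rw [← hS, hr, Ideal.mem_span_range_iff_exists_fun] at h1
    obtain ⟨c, hc⟩ := h1
    exact ⟨c, hc.symm⟩

private theorem aeval_ptI_spz {s N : ℕ} (V : Fin N → (Fin s → ℝ) → ℝ) (θ : Fin s → ℚ) (G : Pz s (N + 1)) :
    aeval (ptI fun i => V i (cst θ)) (spz G θ) =
      (aeval (Sum.elim (fun i => (cst θ i : ℂ)) (ptI fun i => V i (cst θ))) G : ℂ) := by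
  unfold spz
  rw [← AlgHom.comp_apply]
  congr 1
  apply algHom_ext
  rintro (i | i)
  · rw [AlgHom.comp_apply, aeval_X, aeval_X, Sum.elim_inl, Sum.elim_inl, algHom_C, cst]
    simp
  · rw [AlgHom.comp_apply, aeval_X, aeval_X, Sum.elim_inr, Sum.elim_inr, aeval_X]

/-- Specialised relations are relations. Proof: `aeval (ptI ..) (spz (R a) θ) = aeval (Sum.elim ..) (R a)` (algebra homomorphisms). -/
theorem gens_sound {s N m : ℕ} {Ω : Set (Fin s → ℝ)} {V : Fin N → (Fin s → ℝ) → ℝ} {R : Fin m → Pz s (N + 1)}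
    (hR : GensOK Ω V R) {θ : Fin s → ℚ} (hθ : cst θ ∈ Ω) {P : MvPolynomial (Fin (N + 1)) ℚ}
    {C : Fin m → MvPolynomial (Fin (N + 1)) ℚ} (hP : P = ∑ a, C a * spz (R a) θ) :
    aeval (ptI fun i => V i (cst θ)) P = 0 := by
  rw [hP, map_sum]
  refine Finset.sum_eq_zero fun a _ => ?_
  rw [map_mul, aeval_ptI_spz, hR.1 a (cst θ) hθ, mul_zero]

/-- Real part of `i ^ e`. -/
private def reI : ℕ → ℤ × ℤ
  | 0 => (1, 0)
  | e + 1 => (-(reI e).2, (reI e).1)

private theorem I_pow (e : ℕ) : (Complex.I : ℂ) ^ e = ((reI e).1 : ℂ) + ((reI e).2 : ℂ) * Complex.I := by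
  induction e with
  | zero => simp [reI]
  | succ e ih =>
    rw [pow_succ, ih, reI]
    have h := Complex.I_mul_I
    push_cast
    linear_combination ((reI e).2 : ℂ) * h

private theorem reI_abs (e : ℕ) : |(reI e).1| ≤ 1 ∧ |(reI e).2| ≤ 1 := by
  induction e with
  | zero => simp [reI]
  | succ e ih =>
    rw [reI]
    simp only [abs_neg]
    exact ⟨ih.2, ih.1⟩

private theorem ht_int {T : ℕ} {z : ℤ} (h : |z| ≤ 1) : Ht 0 T (z : ℚ) := by
  refine ⟨?_, 1, le_refl _, ?_, z, ?_⟩
  · rw [pow_zero]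
    exact_mod_cast h
  · rw [pow_zero]
  · push_cast
    ring

/-- A polynomial of degree at most `D` in each variable is the sum of its monomials. -/
theorem eq_sum_fx {N D : ℕ} {P : MvPolynomial (Fin N) ℚ} (hP : ∀ i, degreeOf i P ≤ D) :
    P = ∑ a : Fin N → Fin (D + 1), monomial (fx a) (coeff (fx a) P) := by
  classical
  apply MvPolynomial.ext
  intro u
  rw [coeff_sum]
  simp only [coeff_monomial]
  by_cases hu : ∀ i, u i ≤ D
  · have h1 : fx (fun i => (⟨u i, Nat.lt_succ_of_le (hu i)⟩ : Fin (D + 1))) = u := by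
      apply Finsupp.ext
      intro i
      rfl
    rw [Finset.sum_eq_single (fun i => (⟨u i, Nat.lt_succ_of_le (hu i)⟩ : Fin (D + 1)))]
    · rw [if_pos h1, h1]
    · intro b _ hb
      rw [if_neg]
      intro h
      apply hb
      funext i
      apply Fin.ext
      change (b i : ℕ) = u i
      rw [← h]
      rfl
    · intro h
      exact absurd (Finset.mem_univ _) h
  · have h2 : ∃ i, D < u i := by
      by_contra hcon
      exact hu fun i => not_lt.mp fun hi => hcon ⟨i, hi⟩
    obtain ⟨i, hi⟩ := h2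
    have h3 : coeff u P = 0 := by
      by_contra h0
      have h4 := (degreeOf_le_iff (n := i) (f := P) (d := D)).mp (hP i) u (mem_support_iff.mpr h0)
      omega
    rw [h3]
    symm
    apply Finset.sum_eq_zero
    intro b _
    rw [if_neg]
    intro h
    have h5 : (fx b) i = u i := by rw [h]
    have h6 : (b i : ℕ) = u i := h5
    have h7 := (b i).2
    omega

/-- The monomial in the first `N` variables with the exponents `a`, generically. -/
private noncomputable def monG {s N D : ℕ} (a : Fin N → Fin (D + 1)) : Pz s (N + 1) :=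
  ∏ i : Fin N, X (Sum.inr i.castSucc) ^ (a i : ℕ)

private noncomputable def monS {N D : ℕ} (a : Fin N → Fin (D + 1)) : MvPolynomial (Fin (N + 1)) ℚ :=
  ∏ i : Fin N, X i.castSucc ^ (a i : ℕ)

private theorem spz_monG {s N D : ℕ} (a : Fin N → Fin (D + 1)) (θ : Fin s → ℚ) :
    spz (monG a : Pz s (N + 1)) θ = monS a := by
  unfold spz monG monS
  rw [map_prod]
  refine Finset.prod_congr rfl fun i _ => ?_
  rw [map_pow, aeval_X]
  rfl

private theorem aeval_monG {s N D : ℕ} (a : Fin N → Fin (D + 1)) (θ : Fin s → ℝ) (v : Fin N → ℝ) :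
    (aeval (Sum.elim (fun i => (θ i : ℂ)) (ptI v)) (monG a : Pz s (N + 1)) : ℂ) =
      ((∏ i, v i ^ (a i : ℕ) : ℝ) : ℂ) := by
  unfold monG
  rw [map_prod, Complex.ofReal_prod]
  refine Finset.prod_congr rfl fun i _ => ?_
  rw [map_pow, aeval_X, Sum.elim_inr, ptI, Fin.snoc_castSucc, Complex.ofReal_pow]

private theorem aeval_monS {N D : ℕ} (a : Fin N → Fin (D + 1)) (v : Fin N → ℝ) :
    (aeval (ptI v) (monS a) : ℂ) = ((∏ i, v i ^ (a i : ℕ) : ℝ) : ℂ) := by
  unfold monS
  rw [map_prod, Complex.ofReal_prod]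
  refine Finset.prod_congr rfl fun i _ => ?_
  rw [map_pow, aeval_X, ptI, Fin.snoc_castSucc, Complex.ofReal_pow]

private theorem spz_par' {s N : ℕ} (c : MvPolynomial (Fin s) ℚ) (θ : Fin s → ℚ) :
    spz (par N c) θ = C (eval θ c) := by
  unfold spz par
  rw [aeval_rename]
  have h : (Sum.elim (fun i => C (θ i)) X ∘ Sum.inl : Fin s → MvPolynomial (Fin N) ℚ) = fun i => C (θ i) := rfl
  rw [h]
  induction c using MvPolynomial.induction_on with
  | C r => simp
  | add p q hp hq => rw [map_add, hp, hq, map_add, map_add]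
  | mul_X p i hp => rw [map_mul, hp, aeval_X, map_mul, eval_X, map_mul]

private theorem aeval_ofReal {s : ℕ} (c : MvPolynomial (Fin s) ℚ) (θ : Fin s → ℝ) :
    (aeval (fun i => (θ i : ℂ)) c : ℂ) = ((aeval θ c : ℝ) : ℂ) := by
  induction c using MvPolynomial.induction_on with
  | C r => simp
  | add p q hp hq => rw [map_add, hp, hq, map_add, Complex.ofReal_add]
  | mul_X p i hp => rw [map_mul, hp, aeval_X, map_mul, aeval_X, Complex.ofReal_mul]

private theorem aeval_par' {s N : ℕ} (c : MvPolynomial (Fin s) ℚ) (θ : Fin s → ℝ) (y : Fin N → ℂ) :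
    (aeval (Sum.elim (fun i => (θ i : ℂ)) y) (par N c) : ℂ) = ((aeval θ c : ℝ) : ℂ) := by
  unfold par
  rw [aeval_rename, ← aeval_ofReal]
  rfl

private theorem re_im_zero {a b : ℝ} (h : (a : ℂ) + Complex.I * (b : ℂ) = 0) : a = 0 ∧ b = 0 := by
  have h1 := congrArg Complex.re h
  have h2 := congrArg Complex.im h
  simp only [Complex.add_re, Complex.mul_re, Complex.ofReal_re, Complex.ofReal_im, Complex.I_re, Complex.I_im,
    Complex.zero_re] at h1
  simp only [Complex.add_im, Complex.mul_im, Complex.ofReal_re, Complex.ofReal_im, Complex.I_re, Complex.I_im,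
    Complex.zero_im] at h2
  constructor <;> linarith

private theorem monomial_fx {N D : ℕ} (a : Fin (N + 1) → Fin (D + 1)) (c : ℚ) :
    monomial (fx a) c = C c * (monS (fun i : Fin N => a i.castSucc) * X (Fin.last N) ^ (a (Fin.last N) : ℕ)) := by
  unfold monS
  rw [monomial_eq, Finsupp.prod_fintype _ _ (fun i => pow_zero _), Fin.prod_univ_castSucc]
  rfl

/-- A relation at a rational point is a specialised relation, or it gives an exceptional linear relation.

Proof. Let `E` be the finite set of the exponents `α : Fin N →₀ ℕ` of degree at most `A₂` and `V^α = ∏ V_i ^ α_i` (`α ∈ E`); `exists_relations` (PM/Rl.lean) gives `B ⊆ E`, `δ`, `ρ`: `δ V^β = ∑ α ∈ B, ρ β α V^α` on `Ω`, the `V^α`, `α ∈ B`, are independent; `V'` is the family `(V^α)_{α ∈ B}` (`Finset.equivFin`), analytic. For `β ∈ E` the polynomial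
`G_β = δ(θ) Y^β - ∑ α ∈ B, ρ β α (θ) Y^α` (in `Pz s (N + 1)`) vanishes on the graph, and so does `Y_N ^ 2 + 1` (`Y_N` the last variable); so (`GensOK`) they are combinations of the `R_a`, and their specialisations at `θ` are combinations of the `spz (R a) θ`: let `J ⊆ ℚ[Y]` be the ideal of the `spz (R a) θ`.
Let `P` be as in the statement. Modulo `Y_N ^ 2 + 1`, `P ≡ P₀ + Y_N P₁` with `P₀, P₁ ∈ ℚ[Y_0, ..., Y_(N-1)]` of degree at most `A₂`, whose coefficients are sums of at most `A₂ + 1` coefficients of `P` with signs (`Y_N ^ (2 m) ≡ (-1) ^ m`); the vanishing of `P` at `(V(θ), i)` means `P₀(V(θ)) = P₁(V(θ)) = 0` (real and imaginary parts). Let `P₀ = ∑ β ∈ E, n_β Y^β`; `∑ α ∈ B, (∑ β, n_β ρ β α (θ)) V^α(θ) = δ(θ) P₀(V(θ)) = 0`.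
If the numbers `N_α = ∑ β, n_β ρ β α (θ)` are all zero, `δ(θ) P₀ = ∑ β, n_β G_β(θ) ∈ J`, so `P₀ ∈ J`. Otherwise multiply by a common denominator (`ht_common`, `ht_poly`, `Ht.mul`, `Ht.sum`): integers of absolute value at most `T ^ A₃`, not all zero: exceptional relation. Similarly for `P₁`. If `P₀, P₁ ∈ J` then `P ∈ J`. -/
theorem gens_complete {s N m : ℕ} {Ω : Set (Fin s → ℝ)} {V : Fin N → (Fin s → ℝ) → ℝ} {R : Fin m → Pz s (N + 1)}
    (hR : GensOK Ω V R) (hV : ∀ i, AnalyticOnNhd ℝ (V i) Ω) (A₂ : ℕ) :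
    ∃ (δ : MvPolynomial (Fin s) ℚ) (r : ℕ) (V' : Fin r → (Fin s → ℝ) → ℝ) (A₃ : ℕ), δ ≠ 0 ∧
      (∀ i, AnalyticOnNhd ℝ (V' i) Ω) ∧
      (∀ P : Fin r → MvPolynomial (Fin s) ℚ, (∀ θ ∈ Ω, ∑ i, aeval θ (P i) * V' i θ = 0) → ∀ i, P i = 0) ∧
      ∀ T : ℕ, 2 ≤ T → ∀ θ : Fin s → ℚ, (∀ i, HLE T (θ i)) → cst θ ∈ Ω → eval θ δ ≠ 0 →
        ∀ P : MvPolynomial (Fin (N + 1)) ℚ, P.totalDegree ≤ A₂ → (∀ u, Ht A₂ T (coeff u P)) →
          aeval (ptI fun i => V i (cst θ)) P = 0 →
            (∃ C : Fin m → MvPolynomial (Fin (N + 1)) ℚ, P = ∑ a, C a * spz (R a) θ) ∨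
              ∃ cc : Fin r → ℤ, cc ≠ 0 ∧ (∀ i, |cc i| ≤ (T : ℤ) ^ A₃) ∧ ∑ i, (cc i : ℝ) * V' i (cst θ) = 0 := by
  classical
  obtain ⟨B, δ, ρ, hδ, hind, hrel⟩ := exists_relations Ω
    (fun (a : Fin N → Fin (A₂ + 1)) θ => ∏ i, V i θ ^ (a i : ℕ))
  obtain ⟨B₀, hB₀⟩ := ht_poly (s := s) (fun ab : (Fin N → Fin (A₂ + 1)) × (Fin N → Fin (A₂ + 1)) => ρ ab.1 ab.2)
  set B₁ : ℕ := (Finset.univ : Finset (Fin (N + 1) → Fin (A₂ + 1))).card * ((A₂ + 0 + B₀) + 1) with hB₁
  set e : Fin B.card ≃ B := B.equivFin.symm with he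
  refine ⟨δ, B.card, fun i θ => ∏ k, V k θ ^ (((e i : Fin N → Fin (A₂ + 1)) k : Fin (A₂ + 1)) : ℕ),
    Fintype.card (Fin B.card) * B₁ + B₁, hδ, ?_, ?_, ?_⟩
  · intro i
    exact Finset.analyticOnNhd_fun_prod _ fun k _ => (hV k).fun_pow _
  · intro P hP i
    have h1 := hind (fun b => if h : b ∈ B then P (e.symm ⟨b, h⟩) else 0) (fun θ hθ => by
      have h2 := hP θ hθ
      rw [← Finset.sum_coe_sort B]
      rw [← h2, ← Equiv.sum_comp e]
      refine Finset.sum_congr rfl fun j _ => ?_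
      rw [dif_pos (e j).2, Subtype.coe_eta, Equiv.symm_apply_apply]) (e i : Fin N → Fin (A₂ + 1)) (e i).2
    rw [dif_pos (e i).2, Subtype.coe_eta, Equiv.symm_apply_apply] at h1
    exact h1
  · intro T hT θ hθT hθ hδθ P hPd hPh hP0
    set J : Ideal (MvPolynomial (Fin (N + 1)) ℚ) := Ideal.span (range fun a => spz (R a) θ) with hJ
    have hgen : ∀ G : Pz s (N + 1), (∀ θ ∈ Ω, (aeval (Sum.elim (fun i => (θ i : ℂ)) (ptI fun i => V i θ)) G : ℂ) = 0) →
        spz G θ ∈ J := by
      intro G hG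
      obtain ⟨Cf, hCf⟩ := hR.2 G hG
      rw [hCf]
      have h1 : spz (∑ a, Cf a * R a) θ = ∑ a, spz (Cf a) θ * spz (R a) θ := by
        unfold spz
        rw [map_sum]
        exact Finset.sum_congr rfl fun a _ => map_mul _ _ _
      rw [h1]
      exact Ideal.sum_mem _ fun a _ => Ideal.mul_mem_left _ _ (Ideal.subset_span ⟨a, rfl⟩)
    have hJ0 : ∀ Q ∈ J, aeval (ptI fun i => V i (cst θ)) Q = 0 := by
      intro Q hQ
      rw [hJ, Ideal.mem_span_range_iff_exists_fun] at hQ
      obtain ⟨c, hc⟩ := hQ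
      exact gens_sound hR hθ hc.symm
    -- the last variable
    have hI1 : (X (Fin.last N) : MvPolynomial (Fin (N + 1)) ℚ) ^ 2 + 1 ∈ J := by
      have h1 := hgen (X (Sum.inr (Fin.last N)) ^ 2 + 1) (fun θ _ => by
        rw [map_add, map_pow, aeval_X, map_one, Sum.elim_inr, ptI, Fin.snoc_last, Complex.I_sq]
        ring)
      have h2 : spz (X (Sum.inr (Fin.last N)) ^ 2 + 1 : Pz s (N + 1)) θ = X (Fin.last N) ^ 2 + 1 := by
        unfold spz
        rw [map_add, map_pow, aeval_X, map_one, Sum.elim_inr]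
      rwa [h2] at h1
    have hI : ∀ k : ℕ, (X (Fin.last N) : MvPolynomial (Fin (N + 1)) ℚ) ^ k -
        (C ((reI k).1 : ℚ) + C ((reI k).2 : ℚ) * X (Fin.last N)) ∈ J := by
      intro k
      induction k with
      | zero => simp [reI]
      | succ k ih =>
        have h1 := J.mul_mem_left (X (Fin.last N)) ih
        have h2 := J.mul_mem_left (C ((reI k).2 : ℚ)) hI1
        have h3 := J.add_mem h1 h2
        have h4 : (X (Fin.last N) : MvPolynomial (Fin (N + 1)) ℚ) ^ (k + 1) -
            (C ((reI (k + 1)).1 : ℚ) + C ((reI (k + 1)).2 : ℚ) * X (Fin.last N)) =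
            X (Fin.last N) * (X (Fin.last N) ^ k - (C ((reI k).1 : ℚ) + C ((reI k).2 : ℚ) * X (Fin.last N))) +
              C ((reI k).2 : ℚ) * (X (Fin.last N) ^ 2 + 1) := by
          rw [reI]
          simp only
          push_cast
          rw [map_neg]
          ring
        rw [h4]
        exact h3
    -- the monomials
    have hM : ∀ a : Fin N → Fin (A₂ + 1), C (eval θ δ) * monS a - ∑ b ∈ B, C (eval θ (ρ a b)) * monS b ∈ J := by
      intro a
      have h1 := hgen (par (N + 1) δ * monG a - ∑ b ∈ B, par (N + 1) (ρ a b) * monG b) (fun θ' hθ' => by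
        have h2 := hrel a θ' hθ'
        rw [map_sub, map_mul, map_sum, aeval_par', aeval_monG]
        have h3 : ∑ b ∈ B, (aeval (Sum.elim (fun i => (θ' i : ℂ)) (ptI fun i => V i θ'))
            (par (N + 1) (ρ a b) * monG b) : ℂ) =
            ((∑ b ∈ B, aeval θ' (ρ a b) * ∏ i, V i θ' ^ (b i : ℕ) : ℝ) : ℂ) := by
          rw [Complex.ofReal_sum]
          refine Finset.sum_congr rfl fun b _ => ?_
          rw [map_mul, aeval_par', aeval_monG, Complex.ofReal_mul]
        rw [h3, ← h2, Complex.ofReal_mul, sub_self])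
      have h4 : spz (par (N + 1) δ * monG a - ∑ b ∈ B, par (N + 1) (ρ a b) * monG b) θ =
          spz (par (N + 1) δ) θ * spz (monG a : Pz s (N + 1)) θ -
            ∑ b ∈ B, spz (par (N + 1) (ρ a b)) θ * spz (monG b : Pz s (N + 1)) θ := by
        unfold spz
        rw [map_sub, map_mul, map_sum]
        congr 1
        refine Finset.sum_congr rfl fun b _ => ?_
        rw [map_mul]
      have h5 : ∑ b ∈ B, spz (par (N + 1) (ρ a b)) θ * spz (monG b : Pz s (N + 1)) θ =
          ∑ b ∈ B, C (eval θ (ρ a b)) * monS b :=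
        Finset.sum_congr rfl fun b _ => by rw [spz_par', spz_monG]
      rw [h4, spz_par', spz_monG, h5] at h1
      exact h1
    -- reduction of `P`
    set N0 : (Fin N → Fin (A₂ + 1)) → ℚ := fun b => ∑ a : Fin (N + 1) → Fin (A₂ + 1),
      coeff (fx a) P * ((reI (a (Fin.last N))).1 : ℚ) * eval θ (ρ (fun i => a i.castSucc) b) with hN0
    set N1 : (Fin N → Fin (A₂ + 1)) → ℚ := fun b => ∑ a : Fin (N + 1) → Fin (A₂ + 1),
      coeff (fx a) P * ((reI (a (Fin.last N))).2 : ℚ) * eval θ (ρ (fun i => a i.castSucc) b) with hN1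
    have hPdeg : ∀ i, degreeOf i P ≤ A₂ := fun i => (degreeOf_le_totalDegree P i).trans hPd
    have hred : C (eval θ δ) * P - (∑ b ∈ B, C (N0 b) * monS b + X (Fin.last N) * ∑ b ∈ B, C (N1 b) * monS b) ∈ J := by
      have h1 : C (eval θ δ) * P - (∑ b ∈ B, C (N0 b) * monS b + X (Fin.last N) * ∑ b ∈ B, C (N1 b) * monS b) =
          ∑ a : Fin (N + 1) → Fin (A₂ + 1), (C (coeff (fx a) P) * (C (eval θ δ) * monS (fun i => a i.castSucc)) *
            (X (Fin.last N) ^ (a (Fin.last N) : ℕ) - (C ((reI (a (Fin.last N))).1 : ℚ) +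
              C ((reI (a (Fin.last N))).2 : ℚ) * X (Fin.last N))) +
            C (coeff (fx a) P) * (C ((reI (a (Fin.last N))).1 : ℚ) +
              C ((reI (a (Fin.last N))).2 : ℚ) * X (Fin.last N)) *
            (C (eval θ δ) * monS (fun i => a i.castSucc) -
              ∑ b ∈ B, C (eval θ (ρ (fun i => a i.castSucc) b)) * monS b)) := by
        have h2 : C (eval θ δ) * P = ∑ a : Fin (N + 1) → Fin (A₂ + 1), C (eval θ δ) *
            (C (coeff (fx a) P) * (monS (fun i => a i.castSucc) * X (Fin.last N) ^ (a (Fin.last N) : ℕ))) := by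
          conv_lhs => rw [eq_sum_fx hPdeg, Finset.mul_sum]
          refine Finset.sum_congr rfl fun a _ => ?_
          rw [monomial_fx]
        have h3 : ∑ b ∈ B, C (N0 b) * monS b = ∑ a : Fin (N + 1) → Fin (A₂ + 1), ∑ b ∈ B,
            C (coeff (fx a) P) * C ((reI (a (Fin.last N))).1 : ℚ) * C (eval θ (ρ (fun i => a i.castSucc) b)) * monS b := by
          rw [Finset.sum_comm]
          refine Finset.sum_congr rfl fun b _ => ?_
          rw [hN0]
          simp only
          rw [map_sum, Finset.sum_mul]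
          refine Finset.sum_congr rfl fun a _ => ?_
          rw [map_mul, map_mul]
        have h4 : X (Fin.last N) * ∑ b ∈ B, C (N1 b) * monS b = ∑ a : Fin (N + 1) → Fin (A₂ + 1), ∑ b ∈ B,
            X (Fin.last N) *
            (C (coeff (fx a) P) * C ((reI (a (Fin.last N))).2 : ℚ) * C (eval θ (ρ (fun i => a i.castSucc) b)) * monS b) := by
          rw [Finset.sum_comm, Finset.mul_sum]
          refine Finset.sum_congr rfl fun b _ => ?_
          rw [hN1]
          simp only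
          rw [map_sum, Finset.sum_mul, Finset.mul_sum]
          refine Finset.sum_congr rfl fun a _ => ?_
          rw [map_mul, map_mul]
        rw [h2, h3, h4, ← Finset.sum_add_distrib, ← Finset.sum_sub_distrib]
        refine Finset.sum_congr rfl fun a _ => ?_
        have h5 : C (coeff (fx a) P) * (C ((reI (a (Fin.last N))).1 : ℚ) +
              C ((reI (a (Fin.last N))).2 : ℚ) * X (Fin.last N)) *
            (∑ b ∈ B, C (eval θ (ρ (fun i => a i.castSucc) b)) * monS b) =
            ∑ b ∈ B, C (coeff (fx a) P) * C ((reI (a (Fin.last N))).1 : ℚ) *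
              C (eval θ (ρ (fun i => a i.castSucc) b)) * monS b +
            ∑ b ∈ B, X (Fin.last N) * (C (coeff (fx a) P) * C ((reI (a (Fin.last N))).2 : ℚ) *
              C (eval θ (ρ (fun i => a i.castSucc) b)) * monS b) := by
          rw [← Finset.sum_add_distrib, Finset.mul_sum]
          refine Finset.sum_congr rfl fun b _ => ?_
          ring
        rw [← h5]
        ring
      rw [h1]
      refine Ideal.sum_mem _ fun a _ => J.add_mem ?_ ?_
      · exact J.mul_mem_left _ (hI _)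
      · exact J.mul_mem_left _ (hM _)
    have hval : ((∑ b ∈ B, (N0 b : ℝ) * ∏ i, V i (cst θ) ^ (b i : ℕ) : ℝ) : ℂ) +
        Complex.I * ((∑ b ∈ B, (N1 b : ℝ) * ∏ i, V i (cst θ) ^ (b i : ℕ) : ℝ) : ℂ) = 0 := by
      have h1 := hJ0 _ hred
      rw [map_sub, map_mul, hP0, mul_zero, zero_sub, neg_eq_zero, map_add, map_mul, aeval_X, map_sum, map_sum, ptI,
        Fin.snoc_last] at h1
      rw [← h1, Complex.ofReal_sum, Complex.ofReal_sum]
      congr 1
      · refine Finset.sum_congr rfl fun b _ => ?_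
        have h2 := aeval_monS b (fun i => V i (cst θ))
        rw [ptI] at h2
        rw [map_mul, h2, aeval_C, Complex.ofReal_mul]
        simp
      · congr 1
        refine Finset.sum_congr rfl fun b _ => ?_
        have h2 := aeval_monS b (fun i => V i (cst θ))
        rw [ptI] at h2
        rw [map_mul, h2, aeval_C, Complex.ofReal_mul]
        simp
    obtain ⟨hre, him⟩ := re_im_zero hval
    -- exceptional relations
    have hexc : ∀ n : (Fin N → Fin (A₂ + 1)) → ℚ, (∀ b, Ht B₁ T (n b)) →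
        ∑ b ∈ B, (n b : ℝ) * ∏ i, V i (cst θ) ^ (b i : ℕ) = 0 → (∃ b ∈ B, n b ≠ 0) →
        ∃ cc : Fin B.card → ℤ, cc ≠ 0 ∧ (∀ i, |cc i| ≤ (T : ℤ) ^ (Fintype.card (Fin B.card) * B₁ + B₁)) ∧
          ∑ i, (cc i : ℝ) * ∏ k, V k (cst θ) ^ (((e i : Fin N → Fin (A₂ + 1)) k : Fin (A₂ + 1)) : ℕ) = 0 := by
      intro n hn hsum hne
      obtain ⟨M, hM1, hM2, hM3⟩ := ht_common (ι := Fin B.card) (B := B₁) (T := T)
        (f := fun i => n (e i : Fin N → Fin (A₂ + 1))) fun i => hn _
      choose x hx using hM3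
      have hMQ : (0 : ℚ) < (M : ℚ) := by exact_mod_cast hM1
      refine ⟨x, ?_, ?_, ?_⟩
      · intro h0
        obtain ⟨b, hb, hnb⟩ := hne
        have h1 := hx (e.symm ⟨b, hb⟩)
        rw [Equiv.apply_symm_apply, h0] at h1
        simp only [Pi.zero_apply, Int.cast_zero] at h1
        rcases mul_eq_zero.mp h1 with h2 | h2
        · exact absurd h2 (ne_of_gt hMQ)
        · exact hnb h2
      · intro i
        have h1 := hx i
        have h2 := (hn (e i : Fin N → Fin (A₂ + 1))).1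
        have h3 : (|x i| : ℚ) ≤ (T : ℚ) ^ (Fintype.card (Fin B.card) * B₁ + B₁) := by
          rw [← h1, abs_mul, abs_of_pos hMQ, pow_add]
          refine mul_le_mul ?_ h2 (abs_nonneg _) (by positivity)
          exact_mod_cast hM2
        exact_mod_cast h3
      · have h1 : ∀ i, (x i : ℝ) = (M : ℝ) * (n (e i : Fin N → Fin (A₂ + 1)) : ℝ) := by
          intro i
          have h2 := hx i
          have h3 : ((x i : ℚ) : ℝ) = (((M : ℚ) * n (e i : Fin N → Fin (A₂ + 1)) : ℚ) : ℝ) := by rw [h2]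
          rw [Rat.cast_intCast, Rat.cast_mul, Rat.cast_natCast] at h3
          exact h3
        have h4 : ∑ i, (x i : ℝ) * ∏ k, V k (cst θ) ^ (((e i : Fin N → Fin (A₂ + 1)) k : Fin (A₂ + 1)) : ℕ) =
            (M : ℝ) * ∑ b ∈ B, (n b : ℝ) * ∏ i, V i (cst θ) ^ (b i : ℕ) := by
          rw [← Finset.sum_coe_sort B, ← Equiv.sum_comp e, Finset.mul_sum]
          refine Finset.sum_congr rfl fun i _ => ?_
          rw [h1, mul_assoc]
        rw [h4, hsum, mul_zero]
    have hht : ∀ w : ℕ → ℤ, (∀ k, |w k| ≤ 1) → ∀ b, Ht B₁ T (∑ a : Fin (N + 1) → Fin (A₂ + 1),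
        coeff (fx a) P * (w (a (Fin.last N)) : ℚ) * eval θ (ρ (fun i => a i.castSucc) b)) := by
      intro w hw b
      refine Ht.sum _ hT fun a _ => ?_
      exact Ht.mul hT (Ht.mul hT (hPh _) (ht_int (hw _))) (hB₀ T hT θ hθT (fun i => a i.castSucc, b))
    by_cases h0 : ∃ b ∈ B, N0 b ≠ 0
    · exact Or.inr (hexc N0 (hht (fun k => (reI k).1) fun k => (reI_abs k).1) hre h0)
    by_cases h1 : ∃ b ∈ B, N1 b ≠ 0
    · exact Or.inr (hexc N1 (hht (fun k => (reI k).2) fun k => (reI_abs k).2) him h1)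
    left
    have h2 : ∑ b ∈ B, C (N0 b) * (monS b : MvPolynomial (Fin (N + 1)) ℚ) = 0 := by
      refine Finset.sum_eq_zero fun b hb => ?_
      have h3 : N0 b = 0 := by
        by_contra h
        exact h0 ⟨b, hb, h⟩
      rw [h3, map_zero, zero_mul]
    have h3 : ∑ b ∈ B, C (N1 b) * (monS b : MvPolynomial (Fin (N + 1)) ℚ) = 0 := by
      refine Finset.sum_eq_zero fun b hb => ?_
      have h3 : N1 b = 0 := by
        by_contra h
        exact h1 ⟨b, hb, h⟩
      rw [h3, map_zero, zero_mul]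
    rw [h2, h3, mul_zero, add_zero, sub_zero] at hred
    have h4 : P ∈ J := by
      have h5 := J.mul_mem_left (C (eval θ δ)⁻¹) hred
      rwa [← mul_assoc, ← C_mul, inv_mul_cancel₀ hδθ, C_1, one_mul] at h5
    rw [hJ, Ideal.mem_span_range_iff_exists_fun] at h4
    obtain ⟨c, hc⟩ := h4
    exact ⟨c, hc.symm⟩

end Pool.Agent.Lib.MP_bbe012_lc.PN
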