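import Pool.Agent.Lib.MP_bbe012_lc.PN.CVal
import Pool.Agent.Lib.MP_bbe012_lc.PN.GI
import Pool.Agent.Lib.MP_bbe012_lc.PM.Cc
import Pool.Agent.Lib.MP_bbe012_lc.PM.Dens

/-!
# Almost all supports: certificates are correct
-/

namespace Pool.Agent.Lib.MP_bbe012_lc.PN

open MvPolynomial MeasureTheory Set PP PG PM Filter Topology

/-- Certificates are correct. Proof: `rep_sound` for the two integrals of every `X_i`, `exN_val` with `v y = V ((Fintype.equivFin _).symm y) (cst θ)` (reindex the sums by `Fintype.equivFin`), `gens_sound` for `Ω = Om z e`; `cst θ ∈ Om z e` gives `z(θ) ≠ 0` (`connectedComponentIn_subset`). `Vanishes` is by definition the vanishing of the right side of `exN_val`. -/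
theorem good_soundX {s μ m : ℕ} {F : Fin μ → Sup s} {D : (l : Lam F) → Bas s (F l.1).n} {z : MvPolynomial (Fin s) ℚ}
    {V : Ix D → (Fin s → ℝ) → ℝ} (hD : ∀ l, BasOK (F l.1) l.2 (D l) z fun i => V ⟨l, i⟩) {e : Fin s → ℚ}
    {R : Fin m → Pz s (Fintype.card (Ix D) + 1)}
    (hR : GensOK (Om z e) (fun y => V ((Fintype.equivFin (Ix D)).symm y)) R) {x : PCode × List PeriodCode}
    (hx : ∀ X ∈ x.2, PeriodAdmissible X) (hG : GoodX D z e R x) : Vanishes x := by
  obtain ⟨θ, hθ, q, q', hq, C, hC⟩ := hG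
  have hz : aeval (cst θ) z ≠ 0 := by
    have h1 : Om z e ⊆ {θ | aeval θ z ≠ 0} := connectedComponentIn_subset _ _
    exact h1 hθ
  have key : ∀ (I : IntCode), Admissible I → ∀ p : Fin (Fintype.card (Ix D)) → ℚ,
      RepN D θ I (fun y => p (Fintype.equivFin _ y)) →
        value I = ∑ y, (p y : ℝ) * V ((Fintype.equivFin (Ix D)).symm y) (cst θ) := by
    intro I hI p hp
    rw [rep_sound hD hz hI hp, ← (Fintype.equivFin (Ix D)).sum_comp]
    refine Finset.sum_congr rfl fun y _ => ?_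
    rw [Equiv.symm_apply_apply]
  have h0 : aeval (ptI fun y => V ((Fintype.equivFin (Ix D)).symm y) (cst θ)) (exN x q q') = 0 :=
    gens_sound hR hθ hC
  have hadm : ∀ i : Fin x.2.length, PeriodAdmissible (x.2.get i) := fun i => hx _ (List.get_mem _ _)
  rw [exN_val (v := fun y => V ((Fintype.equivFin (Ix D)).symm y) (cst θ))
    (fun i => key _ (hadm i).1 _ (hq i).1) (fun i => key _ (hadm i).2 _ (hq i).2)] at h0
  exact h0

end Pool.Agent.Lib.MP_bbe012_lc.PN
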