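import Pool.Agent.Lib.MP_bbe012_lc.PN.CVal
import Pool.Agent.Lib.MP_bbe012_lc.PN.CRep
import Pool.Agent.Lib.MP_bbe012_lc.PN.GI

/-!
# Almost all supports: completeness on one component
-/

namespace Pool.Agent.Lib.MP_bbe012_lc.PN

open MvPolynomial MeasureTheory Set PP PG PM Filter Topology

/-- Completeness on one component.

Proof. `rep_complete` for `A` gives `z', A₀`, `A₁ = A + A₀`; `exN_ht` gives `A₂`; `gens_complete` for `A₂` (enlarged so that the heights fit) gives `δ, r, V', A₃`; `δ := δ * z'`. For `x` in the class with `Vanishes x`: representations `q i, q' i` of the two integrals of every `X_i` (reindexed by `Fintype.equivFin`), heights `A₁`; `exN x q q'` has degree and heights `≤ A₂`, and vanishes at `ptI V(θ)` by `rep_sound`, `exN_val`. -/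
theorem complete_one {s μ m : ℕ} {F : Fin μ → Sup s} {D : (l : Lam F) → Bas s (F l.1).n} {z : MvPolynomial (Fin s) ℚ}
    {V : Ix D → (Fin s → ℝ) → ℝ} (hD : ∀ l, BasOK (F l.1) l.2 (D l) z fun i => V ⟨l, i⟩)
    (hS : ∀ l, SpanN (hh (psg (F l.1) l.2)) (D l)) {e : Fin s → ℚ} {R : Fin m → Pz s (Fintype.card (Ix D) + 1)}
    (hR : GensOK (Om z e) (fun y => V ((Fintype.equivFin (Ix D)).symm y)) R) (A : ℕ) :
    ∃ (δ : MvPolynomial (Fin s) ℚ) (r : ℕ) (V' : Fin r → (Fin s → ℝ) → ℝ) (A₃ : ℕ), δ ≠ 0 ∧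
      (∀ i, AnalyticOnNhd ℝ (V' i) (Om z e)) ∧
      (∀ P : Fin r → MvPolynomial (Fin s) ℚ, (∀ θ ∈ Om z e, ∑ i, aeval θ (P i) * V' i θ = 0) → ∀ i, P i = 0) ∧
      ∀ T : ℕ, 2 ≤ T → ∀ θ : Fin s → ℚ, (∀ i, HLE T (θ i)) → cst θ ∈ Om z e → eval θ δ ≠ 0 →
        ∀ x, InN F A T θ x → Vanishes x → GoodX D z e R x ∨
          ∃ cc : Fin r → ℤ, cc ≠ 0 ∧ (∀ i, |cc i| ≤ (T : ℤ) ^ A₃) ∧ ∑ i, (cc i : ℝ) * V' i (cst θ) = 0 := by
  have hOm : Om z e ⊆ {θ | aeval θ z ≠ 0} := connectedComponentIn_subset _ _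
  obtain ⟨z', A₀, hz', hrep⟩ := rep_complete hS A
  obtain ⟨A₁, hA₁⟩ : ∃ A₁ : ℕ, A₁ = A + A₀ := ⟨_, rfl⟩
  obtain ⟨A₂, hA₂⟩ := exN_ht (Fintype.card (Ix D)) A A₁
  have hana : ∀ i, AnalyticOnNhd ℝ ((fun y => V ((Fintype.equivFin (Ix D)).symm y)) i) (Om z e) := by
    intro i
    have h := (hD ((Fintype.equivFin (Ix D)).symm i).1).ana ((Fintype.equivFin (Ix D)).symm i).2
    exact h.mono hOm
  obtain ⟨δ, r, V', A₃, hδ, hV', hind, hall⟩ := gens_complete hR hana A₂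
  refine ⟨δ * z', r, V', A₃, mul_ne_zero hδ hz', hV', hind, ?_⟩
  intro T hT θ hθ hO hev x hx hv
  rw [map_mul] at hev
  have hevδ : eval θ δ ≠ 0 := left_ne_zero_of_mul hev
  have hevz : eval θ z' ≠ 0 := right_ne_zero_of_mul hev
  obtain ⟨hadm, hlen, hdeg, q, hq1, hqT, hcoef, hX⟩ := hx
  have hz : aeval (cst θ) z ≠ 0 := hOm hO
  obtain ⟨N, hN1, hNT, hrepN⟩ := hrep T hT θ hθ hevz
  have hT1 : 1 ≤ T := by omega
  have hbd : ∀ {a : ℚ}, Bdd A₀ T (q * N) a → Bdd A₁ T (q * N) a := by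
    rintro a ⟨b1, b2⟩
    refine ⟨b1.trans (pow_le_pow_right₀ (by exact_mod_cast hT1) (by omega)), b2⟩
  have hM1 : q ≤ T ^ A₁ := hqT.trans (Nat.pow_le_pow_right hT1 (by omega))
  have hM2 : q * N ≤ T ^ A₁ := by
    rw [hA₁, pow_add]
    exact Nat.mul_le_mul hqT hNT
  have hM3 : 1 ≤ q * N := Nat.one_le_iff_ne_zero.2 (Nat.mul_ne_zero (by omega) (by omega))
  have h1 : ∀ i : Fin x.2.length, ∃ qv : Ix D → ℚ, RepN D θ (x.2.get i).1 qv ∧ ∀ y, Bdd A₁ T (q * N) (qv y) := by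
    intro i
    obtain ⟨⟨k, hk⟩, _⟩ := hX (x.2.get i) (List.get_mem _ _)
    obtain ⟨qv, hv1, hv2⟩ := hrepN k q (x.2.get i).1 hq1 hqT hk
    exact ⟨qv, hv1, fun y => hbd (hv2 y)⟩
  have h2 : ∀ i : Fin x.2.length, ∃ qv : Ix D → ℚ, RepN D θ (x.2.get i).2 qv ∧ ∀ y, Bdd A₁ T (q * N) (qv y) := by
    intro i
    obtain ⟨_, ⟨k, hk⟩⟩ := hX (x.2.get i) (List.get_mem _ _)
    obtain ⟨qv, hv1, hv2⟩ := hrepN k q (x.2.get i).2 hq1 hqT hk
    exact ⟨qv, hv1, fun y => hbd (hv2 y)⟩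
  choose p hp hpH using h1
  choose p' hp' hpH' using h2
  have hval : ∀ (I : IntCode) (w : Ix D → ℚ), Admissible I → RepN D θ I w →
      value I = ∑ y : Fin (Fintype.card (Ix D)), (w ((Fintype.equivFin (Ix D)).symm y) : ℝ) *
        V ((Fintype.equivFin (Ix D)).symm y) (cst θ) := by
    intro I w hI hw
    rw [rep_sound hD hz hI hw]
    exact (Equiv.sum_comp (Fintype.equivFin (Ix D)).symm fun y => (w y : ℝ) * V y (cst θ)).symm
  have hex := hA₂ T q (q * N) x (fun i y => p i ((Fintype.equivFin (Ix D)).symm y))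
    (fun i y => p' i ((Fintype.equivFin (Ix D)).symm y)) hT hq1 hM1 hM3 hM2 hlen hdeg hcoef
    (fun i y => hpH i _) (fun i y => hpH' i _)
  have hzero : aeval (ptI fun y => V ((Fintype.equivFin (Ix D)).symm y) (cst θ))
      (exN x (fun i y => p i ((Fintype.equivFin (Ix D)).symm y))
        (fun i y => p' i ((Fintype.equivFin (Ix D)).symm y))) = 0 := by
    rw [exN_val (v := fun y => V ((Fintype.equivFin (Ix D)).symm y) (cst θ))
      (fun i => hval _ _ (hadm _ (List.get_mem _ _)).1 (hp i))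
      (fun i => hval _ _ (hadm _ (List.get_mem _ _)).2 (hp' i))]
    exact hv
  rcases hall T hT θ hθ hO hevδ _ hex.1 hex.2 hzero with ⟨C, hC⟩ | h
  · left
    refine ⟨θ, hO, fun i y => p i ((Fintype.equivFin (Ix D)).symm y),
      fun i y => p' i ((Fintype.equivFin (Ix D)).symm y), fun i => ⟨?_, ?_⟩, C, hC⟩
    · simpa using hp i
    · simpa using hp' i
  · exact Or.inr h

end Pool.Agent.Lib.MP_bbe012_lc.PN
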