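import Pool.Agent.Lib.MP_bbe012_lc.PN.Defs
import Pool.Agent.Lib.MP_bbe012_lc.PM.Nv

/-!
# Non zero values of expressions are recognised
-/

namespace Pool.Agent.Lib.MP_bbe012_lc.PN

open MvPolynomial MeasureTheory Set PP PG PM

theorem exists_nv : ∃ g : PCode × List PeriodCode →. Unit, Partrec g ∧
    ∀ x : PCode × List PeriodCode, (∀ X ∈ x.2, PeriodAdmissible X) → ((g x).Dom ↔ ¬ Vanishes x) :=
  PM.exists_nv

end Pool.Agent.Lib.MP_bbe012_lc.PN
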