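import Pool.Agent.Lib.MP_bbe012_lc.PN.PA
import Pool.Agent.Lib.MP_bbe012_lc.PM.Pr3

/-!
# The search for certificates
-/

namespace Pool.Agent.Lib.MP_bbe012_lc.PN

open MvPolynomial MeasureTheory Set PP PG PM

private theorem isZero_subB {n : ℕ} (a b : PCode) :
    pcIsZero n (a ++ pcNeg b) ↔ pcPoly n a = pcPoly n b := by
  rw [pcIsZero_iff, pcPoly_append, pcPoly_neg, ← sub_eq_add_neg, sub_eq_zero]

private theorem pr_spcB {α : Type} [Primcodable α] (s n : ℕ) {x : α → List QCode} {p : α → PCode}
    (hx : Primrec x) (hp : Primrec p) : Primrec fun a => spc s n (x a) (p a) := by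
  have h1 : Primrec fun q : α × ℕ => ([((x q.1).getD q.2 (qnat 0), [])] : PCode) :=
    pr_const1 ((Primrec.list_getD (qnat 0)).comp (hx.comp Primrec.fst) Primrec.snd)
  have h2 : Primrec fun q : α × ℕ => pcVar (q.2 - s) :=
    pr_var (Primrec.nat_sub.comp Primrec.snd (Primrec.const s))
  have h3 : Primrec fun q : α × ℕ => if q.2 < s then
      ([((x q.1).getD q.2 (qnat 0), [])] : PCode) else pcVar (q.2 - s) :=
    Primrec.ite (Primrec.nat_lt.comp Primrec.snd (Primrec.const s)) h1 h2
  exact pr_subst (L := fun a i => if i < s then ([((x a).getD i (qnat 0), [])] : PCode)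
    else pcVar (i - s)) (Primrec.const (s + n)) h3.to₂ hp

/-- The code of a linear form. -/
private def lfC (N : ℕ) (ql : List QCode) : PCode :=
  pcSumRange N fun j => pcMul [(ql.getD j (qnat 0), [])] (pcVar j)

private theorem pcPoly_lfC (N : ℕ) (ql : List QCode) :
    pcPoly (N + 1) (lfC N ql) = lf (fun y : Fin N => qval (ql.getD y (qnat 0))) := by
  rw [lfC, pcPoly_sumRange, lf]
  refine Finset.sum_congr rfl fun j _ => ?_
  rw [pcPoly_mul, pcPoly_const, pcPoly_var (j.2.trans (Nat.lt_succ_self N))]
  rfl

private theorem pr_lfC {α : Type} [Primcodable α] (N : ℕ) {ql : α → List QCode} (h : Primrec ql) :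
    Primrec fun a => lfC N (ql a) := by
  have h1 : Primrec fun q : α × ℕ => ([((ql q.1).getD q.2 (qnat 0), [])] : PCode) :=
    pr_const1 ((Primrec.list_getD (qnat 0)).comp (h.comp Primrec.fst) Primrec.snd)
  exact pr_sumRange (g := fun a j => pcMul [((ql a).getD j (qnat 0), [])] (pcVar j)) (Primrec.const N)
    (pr_mul h1 (pr_var Primrec.snd)).to₂

/-- The code of the expression. -/
private def exC (N : ℕ) (x : PCode × List PeriodCode) (qs : List (List QCode × List QCode)) : PCode :=
  pcSubst x.2.length (fun i => lfC N (qs.getD i ([], [])).1 ++ pcMul (pcVar N) (lfC N (qs.getD i ([], [])).2)) x.1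

private theorem pcPoly_exC (N : ℕ) (x : PCode × List PeriodCode) (qs : List (List QCode × List QCode)) :
    pcPoly (N + 1) (exC N x qs) = exN (N := N) x (fun i y => qval ((qs.getD i ([], [])).1.getD y (qnat 0)))
        (fun i y => qval ((qs.getD i ([], [])).2.getD y (qnat 0))) := by
  rw [exC, pcPoly_subst, exN]
  have h : (fun i : Fin x.2.length => pcPoly (N + 1)
      (lfC N (qs.getD i ([], [])).1 ++ pcMul (pcVar N) (lfC N (qs.getD i ([], [])).2))) =
      fun i : Fin x.2.length => lf (fun y : Fin N => qval ((qs.getD i ([], [])).1.getD y (qnat 0))) +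
        X (Fin.last N) * lf (fun y : Fin N => qval ((qs.getD i ([], [])).2.getD y (qnat 0))) := by
    funext i
    rw [pcPoly_append, pcPoly_mul, pcPoly_lfC, pcPoly_lfC, pcPoly_var (Nat.lt_succ_self N)]
    rfl
  rw [h]

private theorem pr_exC {α : Type} [Primcodable α] (N : ℕ) {x : α → PCode × List PeriodCode}
    {qs : α → List (List QCode × List QCode)} (hx : Primrec x) (hqs : Primrec qs) :
    Primrec fun a => exC N (x a) (qs a) := by
  have h1 : Primrec fun q : α × ℕ => (qs q.1).getD q.2 ([], []) :=
    (Primrec.list_getD ([], [])).comp (hqs.comp Primrec.fst) Primrec.snd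
  have h2 : Primrec fun q : α × ℕ => lfC N ((qs q.1).getD q.2 ([], [])).1 ++
      pcMul (pcVar N) (lfC N ((qs q.1).getD q.2 ([], [])).2) :=
    pr_append (pr_lfC N (Primrec.fst.comp h1)) (pr_mul (pr_var (Primrec.const N)) (pr_lfC N (Primrec.snd.comp h1)))
  exact pr_subst (L := fun a i => lfC N ((qs a).getD i ([], [])).1 ++
      pcMul (pcVar N) (lfC N ((qs a).getD i ([], [])).2)) (Primrec.list_length.comp (Primrec.snd.comp hx)) h2.to₂
    (Primrec.fst.comp hx)

/-- The final identity, on codes: `x = (G, Xs)`, `qs` the list of the pairs of coefficient lists, `cs` the cofactors.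

Proof. Let `N = card (Ix D)`, and for a list `ql` let `lfC ql = pcSumRange N fun j => pcMul [(ql.getD j (qnat 0), [])] (pcVar j)`, a code (in `N + 1` variables) of `lf (fun y => qval (ql.getD y _))`. A code of `exN x q q'` is `pcSubst x.2.length (fun i => lfC (qs.getD i ([], [])).1 ++ pcMul (pcVar N) (lfC (qs.getD i ([], [])).2)) x.1` (`pcPoly_subst`). The right side: `∑ a, pcMul (cs.getD a []) (spc s (N + 1) x₀ (R₀.getD a []))`
for the list `R₀` of the codes of `rename finSumFinEquiv (R a)`. The statement is `pcIsZero (N + 1) (exCode ++ pcNeg rhs)`: `pr_isZero`, `pr_subst`, `pr_sumRange`, ... -/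
theorem fin_pr {s N m : ℕ} (R : Fin m → Pz s (N + 1)) :
    PrimrecPred fun p : (PCode × List PeriodCode) × (List QCode × (List (List QCode × List QCode) × List PCode)) =>
      exN p.1 (fun i y => qval ((p.2.2.1.getD i ([], [])).1.getD y (qnat 0)))
        (fun i y => qval ((p.2.2.1.getD i ([], [])).2.getD y (qnat 0))) =
      ∑ a : Fin m, pcPoly (N + 1) (p.2.2.2.getD a []) * spz (R a) (ptq s p.2.1) := by
  choose rc hrc using fun a : Fin m => exists_pcPoly (rename finSumFinEquiv (R a))
  have key : ∀ p : (PCode × List PeriodCode) × (List QCode × (List (List QCode × List QCode) × List PCode)),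
      (pcIsZero (N + 1) (exC N p.1 p.2.2.1 ++ pcNeg (pcSumRange m fun a => pcMul (p.2.2.2.getD a [])
        (spc s (N + 1) p.2.1 ((List.ofFn rc).getD a [])))) ↔
      exN p.1 (fun i y => qval ((p.2.2.1.getD i ([], [])).1.getD y (qnat 0)))
        (fun i y => qval ((p.2.2.1.getD i ([], [])).2.getD y (qnat 0))) =
      ∑ a : Fin m, pcPoly (N + 1) (p.2.2.2.getD a []) * spz (R a) (ptq s p.2.1)) := by
    intro p
    rw [isZero_subB, pcPoly_exC, pcPoly_sumRange]
    have h : ∀ a : Fin m, pcPoly (N + 1) (pcMul (p.2.2.2.getD a [])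
        (spc s (N + 1) p.2.1 ((List.ofFn rc).getD a []))) =
        pcPoly (N + 1) (p.2.2.2.getD a []) * spz (R a) (ptq s p.2.1) := by
      intro a
      rw [pcPoly_mul, getD_ofFn, pcPoly_spc _ (hrc a)]
    rw [Finset.sum_congr rfl fun a _ => h a]
  have hx : Primrec fun p : (PCode × List PeriodCode) ×
      (List QCode × (List (List QCode × List QCode) × List PCode)) => p.1 := Primrec.fst
  have h0 : Primrec fun p : (PCode × List PeriodCode) ×
      (List QCode × (List (List QCode × List QCode) × List PCode)) => p.2.1 := Primrec.fst.comp Primrec.snd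
  have hqs : Primrec fun p : (PCode × List PeriodCode) ×
      (List QCode × (List (List QCode × List QCode) × List PCode)) => p.2.2.1 :=
    Primrec.fst.comp (Primrec.snd.comp Primrec.snd)
  have hcs : Primrec fun p : (PCode × List PeriodCode) ×
      (List QCode × (List (List QCode × List QCode) × List PCode)) => p.2.2.2 :=
    Primrec.snd.comp (Primrec.snd.comp Primrec.snd)
  have g1 : Primrec fun z : ((PCode × List PeriodCode) ×
      (List QCode × (List (List QCode × List QCode) × List PCode))) × ℕ => z.1.2.2.2.getD z.2 [] :=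
    (Primrec.list_getD []).comp (hcs.comp Primrec.fst) Primrec.snd
  have g2 : Primrec fun z : ((PCode × List PeriodCode) ×
      (List QCode × (List (List QCode × List QCode) × List PCode))) × ℕ =>
      spc s (N + 1) z.1.2.1 ((List.ofFn rc).getD z.2 []) :=
    pr_spcB s (N + 1) (h0.comp Primrec.fst) ((Primrec.list_getD []).comp (Primrec.const _) Primrec.snd)
  have h1 : PrimrecPred fun p : (PCode × List PeriodCode) ×
      (List QCode × (List (List QCode × List QCode) × List PCode)) =>
      pcIsZero (N + 1) (exC N p.1 p.2.2.1 ++ pcNeg (pcSumRange m fun a => pcMul (p.2.2.2.getD a [])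
        (spc s (N + 1) p.2.1 ((List.ofFn rc).getD a [])))) :=
    pr_isZero (Primrec.const (N + 1)) (pr_append (pr_exC N hx hqs) (pr_neg
      (pr_sumRange (g := fun (p : (PCode × List PeriodCode) ×
        (List QCode × (List (List QCode × List QCode) × List PCode))) a => pcMul (p.2.2.2.getD a [])
        (spc s (N + 1) p.2.1 ((List.ofFn rc).getD a []))) (Primrec.const m) (pr_mul g1 g2).to₂)))
  exact h1.of_eq key

private theorem exN_congr {N : ℕ} (x : PCode × List PeriodCode) {q q' r r' : Fin x.2.length → Fin N → ℚ}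
    (h : ∀ i y, q i y = r i y) (h' : ∀ i y, q' i y = r' i y) : exN x q q' = exN x r r' := by
  have h1 : q = r := by funext i y; exact h i y
  have h2 : q' = r' := by funext i y; exact h' i y
  rw [h1, h2]

/-- The existence of certificates is semidecidable.

Proof. `GoodX D z e R x ↔ ∃ x₀ : List QCode, cst (ptq s x₀) ∈ Om z e ∧ ∃ (qs : List (List QCode × List QCode)) (cs : List PCode), (∀ i < x.2.length, Rep (x₀, (x.2.getD i default).1, (qs.getD i _).1) ∧ Rep (x₀, (x.2.getD i default).2, (qs.getD i _).2)) ∧ (identity of fin_pr)`, with `Rep` as in `rep_ce` (all rational points, families of rational numbers and polynomials have codes: `exists_ptq`, `exists_qval`, `exists_pcPoly`,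
`List.ofFn`). `comp_pr` (PM/Pr3.lean), `rep_ce`, `fin_pr`, `CE.all_lt`, `CE.and`, `CE.ex`. -/
theorem good_ceX {s μ m : ℕ} {F : Fin μ → Sup s} (D : (l : Lam F) → Bas s (F l.1).n) (z : MvPolynomial (Fin s) ℚ)
    (e : Fin s → ℚ) (he : aeval (cst e) z ≠ 0) (R : Fin m → Pz s (Fintype.card (Ix D) + 1)) : CE (GoodX D z e R) := by
  obtain ⟨Rc, hRc, hRc2⟩ := comp_pr z e he
  -- the component
  have c1 : CE fun x₀ : List QCode => cst (ptq s x₀) ∈ Om z e := by
    have h1 : CE fun x₀ : List QCode => ∃ c : List (List QCode) × ℕ, Rc x₀ c := CE.ex (CE.of_primrec hRc)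
    exact h1.congr hRc2
  have d : PeriodCode := default
  -- the representations
  have c2 : CE fun p : (PCode × List PeriodCode) × (List QCode × (List (List QCode × List QCode) × List PCode)) =>
      ∀ i < p.1.2.length,
        RepN D (ptq s p.2.1) (p.1.2.getD i d).1 (fun y => qval ((p.2.2.1.getD i ([], [])).1.getD
          (Fintype.equivFin (Ix D) y) (qnat 0))) ∧
        RepN D (ptq s p.2.1) (p.1.2.getD i d).2 (fun y => qval ((p.2.2.1.getD i ([], [])).2.getD
          (Fintype.equivFin (Ix D) y) (qnat 0))) := by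
    have f0 : Primrec fun q : ((PCode × List PeriodCode) ×
        (List QCode × (List (List QCode × List QCode) × List PCode))) × ℕ => q.1.2.1 :=
      Primrec.fst.comp (Primrec.snd.comp Primrec.fst)
    have f1 : Primrec fun q : ((PCode × List PeriodCode) ×
        (List QCode × (List (List QCode × List QCode) × List PCode))) × ℕ => q.1.1.2.getD q.2 d :=
      (Primrec.list_getD d).comp (Primrec.snd.comp (Primrec.fst.comp Primrec.fst)) Primrec.snd
    have f2 : Primrec fun q : ((PCode × List PeriodCode) ×
        (List QCode × (List (List QCode × List QCode) × List PCode))) × ℕ => q.1.2.2.1.getD q.2 ([], []) :=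
      (Primrec.list_getD ([], [])).comp (Primrec.fst.comp (Primrec.snd.comp (Primrec.snd.comp Primrec.fst)))
        Primrec.snd
    have g1 := (rep_ce D).comp (f0.pair ((Primrec.fst.comp f1).pair (Primrec.fst.comp f2)))
    have g2 := (rep_ce D).comp (f0.pair ((Primrec.snd.comp f1).pair (Primrec.snd.comp f2)))
    exact CE.all_lt (g1.and g2) (Primrec.list_length.comp (Primrec.snd.comp Primrec.fst))
  have c3 := CE.of_primrec (fin_pr R)
  have c4 := CE.ex ((c1.comp (Primrec.fst.comp (Primrec.snd (α := PCode × List PeriodCode)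
    (β := List QCode × (List (List QCode × List QCode) × List PCode))))).and (c2.and c3))
  refine c4.congr fun x => ?_
  constructor
  · rintro ⟨⟨x₀, qs, cs⟩, h1, h2, h3⟩
    refine ⟨ptq s x₀, h1, fun i y => qval ((qs.getD i ([], [])).1.getD y (qnat 0)),
      fun i y => qval ((qs.getD i ([], [])).2.getD y (qnat 0)), fun i => ?_,
      fun a => pcPoly (Fintype.card (Ix D) + 1) (cs.getD a []), h3⟩
    have h4 := h2 i i.2
    have h5 : x.2.getD i d = x.2.get i := by
      rw [List.getD_eq_getElem _ _ i.2]
      rfl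
    simp only [h5] at h4
    exact h4
  · rintro ⟨θ, h1, q, q', h2, C₀, h3⟩
    obtain ⟨x₀, hx₀⟩ := exists_ptq θ
    choose qc hqc using fun (i : Fin x.2.length) (y : Fin (Fintype.card (Ix D))) => exists_qval (q i y)
    choose qc' hqc' using fun (i : Fin x.2.length) (y : Fin (Fintype.card (Ix D))) => exists_qval (q' i y)
    choose cc hcc using fun a => exists_pcPoly (C₀ a)
    have e1 : ∀ (i : Fin x.2.length) (y : Fin (Fintype.card (Ix D))),
        qval (((List.ofFn fun i => (List.ofFn (qc i), List.ofFn (qc' i))).getD i ([], [])).1.getD y (qnat 0)) = q i y := by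
      intro i y
      rw [getD_ofFn, getD_ofFn, hqc]
    have e2 : ∀ (i : Fin x.2.length) (y : Fin (Fintype.card (Ix D))),
        qval (((List.ofFn fun i => (List.ofFn (qc i), List.ofFn (qc' i))).getD i ([], [])).2.getD y (qnat 0)) = q' i y := by
      intro i y
      rw [getD_ofFn, getD_ofFn, hqc']
    refine ⟨⟨x₀, List.ofFn fun i => (List.ofFn (qc i), List.ofFn (qc' i)), List.ofFn cc⟩, ?_, ?_, ?_⟩
    · change cst (ptq s x₀) ∈ Om z e
      rw [hx₀]
      exact h1
    · intro i hi
      have h5 : x.2.getD i d = x.2.get ⟨i, hi⟩ := by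
        rw [List.getD_eq_getElem _ _ hi]
        rfl
      have e3 : (fun y => qval (((List.ofFn fun i => (List.ofFn (qc i), List.ofFn (qc' i))).getD i ([], [])).1.getD
          (Fintype.equivFin (Ix D) y) (qnat 0))) = fun y => q ⟨i, hi⟩ (Fintype.equivFin _ y) := by
        funext y
        exact e1 ⟨i, hi⟩ _
      have e4 : (fun y => qval (((List.ofFn fun i => (List.ofFn (qc i), List.ofFn (qc' i))).getD i ([], [])).2.getD
          (Fintype.equivFin (Ix D) y) (qnat 0))) = fun y => q' ⟨i, hi⟩ (Fintype.equivFin _ y) := by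
        funext y
        exact e2 ⟨i, hi⟩ _
      change RepN D (ptq s x₀) (x.2.getD i d).1 (fun y => qval (((List.ofFn fun i =>
        (List.ofFn (qc i), List.ofFn (qc' i))).getD i ([], [])).1.getD (Fintype.equivFin (Ix D) y) (qnat 0))) ∧
        RepN D (ptq s x₀) (x.2.getD i d).2 (fun y => qval (((List.ofFn fun i =>
        (List.ofFn (qc i), List.ofFn (qc' i))).getD i ([], [])).2.getD (Fintype.equivFin (Ix D) y) (qnat 0)))
      rw [e3, e4, h5, hx₀]
      exact h2 ⟨i, hi⟩
    · change exN x (fun i y => qval (((List.ofFn fun i =>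
        (List.ofFn (qc i), List.ofFn (qc' i))).getD i ([], [])).1.getD y (qnat 0)))
        (fun i y => qval (((List.ofFn fun i =>
        (List.ofFn (qc i), List.ofFn (qc' i))).getD i ([], [])).2.getD y (qnat 0))) =
        ∑ a : Fin m, pcPoly (Fintype.card (Ix D) + 1) ((List.ofFn cc).getD a []) * spz (R a) (ptq s x₀)
      rw [exN_congr x e1 e2, h3, hx₀]
      refine Finset.sum_congr rfl fun a _ => ?_
      rw [getD_ofFn, hcc]

end Pool.Agent.Lib.MP_bbe012_lc.PN
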