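import Pool.Agent.Lib.MP_bbe012_lc.PN.Dy
import Pool.Agent.Lib.MP_bbe012_lc.PM.GenFE

/-!
# The generic functional equation
-/

namespace Pool.Agent.Lib.MP_bbe012_lc.PN

open MvPolynomial MeasureTheory Set PP PG PM Filter Topology

/-- Generic version of `functional_equation` (Ident2.lean), over the domain `ℚ[θ][t]`, specialised at `θ`. -/
theorem gen_FE {s n : ℕ} {h : Pz s n} (h0 : h ≠ 0) :
    ∃ (kk : ℕ) (b : MvPolynomial (Fin (s + 1)) ℚ), b ≠ 0 ∧ ∀ θ : Fin s → ℚ, FEq (spz h θ) kk (spp b θ) :=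
  PM.gen_FE h0

end Pool.Agent.Lib.MP_bbe012_lc.PN
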