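import Pool.Agent.Lib.MP_bbe012_lc.PN.BReg
import Pool.Agent.Lib.MP_bbe012_lc.PG.BFam

/-!
# Soundness of the certificates
-/

namespace Pool.Agent.Lib.MP_bbe012_lc.PN

open MvPolynomial MeasureTheory Set PP PG PM Filter Topology

private theorem bCert_hh {s n r : ℕ} (p : Fin r → Pz s n) (θ : Fin s → ℝ) (x : Fin n → ℝ) :
    vl (hh p) θ x = (∏ j, vl (p j) θ x) * ∏ i, (1 - x i ^ 2) := by
  unfold vl hh
  rw [map_mul, map_prod, map_prod]
  congr 1
  refine Finset.prod_congr rfl fun i _ => ?_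
  rw [map_sub, map_one, map_pow, aeval_X]
  rfl

private theorem bCert_evR {s n : ℕ} (D : Pz s n) (θ : Fin s → ℚ) (x : Fin n → ℝ) :
    evR (spz D θ) x = vl D (cst θ) x := (vl_spz D θ x).symm

/-- At a rational `θ` the set `rg p (cst θ)` is a region for `spz (hh p) θ`. Proof: `vl D (cst θ) x = evR (spz D θ) x` (`vl_spz`, PG/BFam.lean); bounded: contained in the cube; positive: `vx_hh_pos` (PM/Vx3.lean); open and closed in the complement of the zeros of `h`: at a point with `h ≠ 0` no `p_j` and no `1 - x_i ^ 2` vanishes, so all the signs are locally constant. -/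
theorem rg_region {s n r : ℕ} (p : Fin r → Pz s n) (θ : Fin s → ℚ) : Region (spz (hh p) θ) (rg p (cst θ)) := by
  refine ⟨isCompact_Icc.isBounded.subset (vx_rg_sub p (cst θ)), fun x hx => ?_, fun x hx => ?_⟩
  · rw [bCert_evR]
    exact vx_hh_pos p (cst θ) hx
  · rw [bCert_evR, bCert_hh] at hx
    have h1 : ∀ j, vl (p j) (cst θ) x ≠ 0 := fun j => Finset.prod_ne_zero_iff.1 (left_ne_zero_of_mul hx) j
      (Finset.mem_univ j)
    have h2 : ∀ i, 1 - x i ^ 2 ≠ 0 := fun i => Finset.prod_ne_zero_iff.1 (right_ne_zero_of_mul hx) i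
      (Finset.mem_univ i)
    by_cases hxr : x ∈ rg p (cst θ)
    · exact Or.inl ((vx_rg_open p (cst θ)).mem_nhds hxr)
    · right
      by_cases h3 : ∀ i, x i ^ 2 < 1
      · have h4 : ∃ j, vl (p j) (cst θ) x < 0 := by
          by_contra hcon
          refine hxr ⟨h3, fun j => ?_⟩
          have h5 : ¬ vl (p j) (cst θ) x < 0 := fun h => hcon ⟨j, h⟩
          exact lt_of_le_of_ne (not_lt.1 h5) (h1 j).symm
        obtain ⟨j, hj⟩ := h4
        have h6 : {y : Fin n → ℝ | vl (p j) (cst θ) y < 0} ∈ 𝓝 x :=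
          (isOpen_lt (vx_vl_cont (p j) (cst θ)) continuous_const).mem_nhds hj
        filter_upwards [h6] with y hy hyr
        exact lt_asymm hy (hyr.2 j)
      · have h4 : ∃ i, 1 < x i ^ 2 := by
          by_contra hcon
          refine h3 fun i => ?_
          have h5 : ¬ 1 < x i ^ 2 := fun h => hcon ⟨i, h⟩
          refine lt_of_le_of_ne (not_lt.1 h5) fun h => h2 i ?_
          rw [h, sub_self]
        obtain ⟨i, hi⟩ := h4
        have h6 : {y : Fin n → ℝ | 1 < y i ^ 2} ∈ 𝓝 x :=
          (isOpen_lt continuous_const ((continuous_apply i).pow 2)).mem_nhds hi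
        filter_upwards [h6] with y hy hyr
        exact lt_asymm hy (hyr.1 i)

/-- A certificate of high order shows that the regularised value is zero.

Proof. Proof of `Region.sound` (Sound.lean) with another end. Let `h = spz (hh p) θ`, `U = rg p (cst θ)` (`rg_region`). For `t` large `c(t) ∫ u h ^ t = t ^ (ord c + j) ∫ w h ^ (t - K - 1)` (Stokes: `Region.integral_divg`) and, by `Region.feqN`, `B(t) ∫ w h ^ (t - K - 1) = ∫ G' h ^ (t + 1)`, with a polynomial `B ≠ 0` which has the order at most `b.natDegree` at `0` (`prodShift`,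
`natTrailingDegree_prodShift`). So `Δ = c B`, `Ψ(t) = t ^ (ord c + j) ∫ G' h ^ (t + 1)`, analytic for `t > 0` and bounded for `t → 0+` apart from the power (`Region.exists_analytic`), and `Ψ / Δ → 0` for `t → 0+`, as the order of `Δ` at `0` is at most `ord c + b.natDegree < ord c + j`; `L = 0`, `v = 0`. Integrability of `u h ^ t` for large `t`: `c(t) u h ^ (K + 1)` is almost everywhere equal to a continuous function. -/
theorem reg_cert {s n r : ℕ} {p : Fin r → Pz s n} {θ : Fin s → ℚ} {kk : ℕ} {b : Polynomial ℚ} (hb0 : b ≠ 0)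
    (hb : FEq (spz (hh p) θ) kk b) {u : (Fin n → ℝ) → ℝ} (hm : Measurable u) {c : Polynomial ℚ} (hc : c ≠ 0) {j K : ℕ}
    (hj : b.natDegree + 1 ≤ j) {w : Pt n} {g : Fin n → Pt n}
    (hid : ∀ᵐ x ∂(volume.restrict (rg p (cst θ))), ∀ t : ℝ,
      Polynomial.aeval t c * (u x * evR (spz (hh p) θ) x ^ (K + 1)) =
        t ^ (c.natTrailingDegree + j) * evT w t x + evT (divg (spz (hh p) θ) K g) t x) :
    RegV p (cst θ) u 0 := by
  have H := rg_region p θ
  obtain ⟨h, hh0⟩ : ∃ h, h = spz (hh p) θ := ⟨_, rfl⟩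
  obtain ⟨U, hU0⟩ : ∃ U, U = rg p (cst θ) := ⟨_, rfl⟩
  have hev : ∀ x, vl (hh p) (cst θ) x = evR h x := fun x => by rw [hh0, bCert_evR]
  unfold RegV
  simp only [hev]
  rw [← hU0] at H hid ⊢
  rw [← hh0] at H hb hid
  obtain ⟨w', T, hw'⟩ := H.feqN hb (K + 2) (-((K : ℤ) + 1)) w
  have hK : (0 : ℝ) ≤ K := Nat.cast_nonneg K
  -- the pointwise identity
  have hpt : ∀ t : ℝ, ∀ᵐ x ∂(volume.restrict U), Polynomial.aeval t c * (u x * evR h x ^ t) =
      t ^ (c.natTrailingDegree + j) * (evT w t x * evR h x ^ (t + ((-((K : ℤ) + 1) : ℤ) : ℝ))) +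
        evT (divg h K g) t x * evR h x ^ (t - K - 1) := by
    intro t
    filter_upwards [hid, ae_restrict_mem H.measurableSet] with x h3 hx
    have hp := H.pos x hx
    replace h3 := h3 t
    have r1 : evR h x ^ t = evR h x ^ (K + 1) * evR h x ^ (t - K - 1) := by
      rw [← Real.rpow_natCast, ← Real.rpow_add hp]
      congr 1; push_cast; ring
    have r2 : evR h x ^ (t + ((-((K : ℤ) + 1) : ℤ) : ℝ)) = evR h x ^ (t - K - 1) := by
      congr 1; push_cast; ring
    rw [r1, r2]
    linear_combination (evR h x ^ (t - K - 1)) * h3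
  have hi1 : ∀ t : ℝ, (K : ℝ) + 1 < t → IntegrableOn (fun x => t ^ (c.natTrailingDegree + j) *
      (evT w t x * evR h x ^ (t + ((-((K : ℤ) + 1) : ℤ) : ℝ)))) U := fun t ht =>
    (H.integrable (continuous_evT w t) (by push_cast; linarith)).const_mul _
  have hi2 : ∀ t : ℝ, (K : ℝ) + 1 < t → IntegrableOn (fun x => evT (divg h K g) t x * evR h x ^ (t - K - 1)) U :=
    fun t ht => H.integrable (continuous_evT _ t) (by linarith)
  have hint : ∀ t : ℝ, (K : ℝ) + 1 < t → Polynomial.aeval t c ≠ 0 → IntegrableOn (fun x => u x * evR h x ^ t) U := by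
    intro t ht hct
    have h1 : IntegrableOn (fun x => (Polynomial.aeval t c)⁻¹ * (t ^ (c.natTrailingDegree + j) *
        (evT w t x * evR h x ^ (t + ((-((K : ℤ) + 1) : ℤ) : ℝ))) +
          evT (divg h K g) t x * evR h x ^ (t - K - 1))) U :=
      (Integrable.add (hi1 t ht) (hi2 t ht)).const_mul _
    refine h1.congr ?_
    filter_upwards [hpt t] with x hx
    rw [← hx, inv_mul_cancel_left₀ hct]
  -- the identity for large exponents
  have hlarge : ∀ t > max T (K + 1), Polynomial.aeval t (c * prodShift b kk K) *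
      (∫ x in U, u x * evR h x ^ t) =
      t ^ (c.natTrailingDegree + j) * ∫ x in U, evT w' t x * evR h x ^ (t + 1) := by
    intro t ht
    have ht1 : t > T := lt_of_le_of_lt (le_max_left _ _) ht
    have ht2 : (K : ℝ) + 1 < t := lt_of_le_of_lt (le_max_right _ _) ht
    have h1 := hw' t ht1
    have h2 := H.integral_divg K g ht2
    have e1 : t + ((-((K : ℤ) + 1) : ℤ) : ℝ) + ((K + 2 : ℕ) : ℝ) = t + 1 := by push_cast; ring
    rw [e1] at h1
    have e2 : Polynomial.aeval t c * (∫ x in U, u x * evR h x ^ t) =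
        t ^ (c.natTrailingDegree + j) *
          ∫ x in U, evT w t x * evR h x ^ (t + ((-((K : ℤ) + 1) : ℤ) : ℝ)) := by
      rw [← integral_const_mul, ← integral_const_mul]
      have e3 : ∫ x in U, Polynomial.aeval t c * (u x * evR h x ^ t) =
          ∫ x in U, (t ^ (c.natTrailingDegree + j) *
            (evT w t x * evR h x ^ (t + ((-((K : ℤ) + 1) : ℤ) : ℝ))) +
            evT (divg h K g) t x * evR h x ^ (t - K - 1)) := integral_congr_ae (hpt t)
      rw [e3, integral_add (hi1 t ht2) (hi2 t ht2), h2, add_zero]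
    have e4 : Polynomial.aeval t (prodShift b kk K) =
        ∏ i ∈ Finset.range (K + 2), Polynomial.aeval
          (t + (((-((K : ℤ) + 1) : ℤ) : ℝ) + i - kk)) b := by
      rw [prodShift, map_prod]
      refine Finset.prod_congr rfl fun i _ => ?_
      rw [Polynomial.aeval_comp]
      congr 1
      simp
    rw [map_mul, e4, mul_comm (Polynomial.aeval t c), mul_assoc, e2, mul_left_comm, h1]
  obtain ⟨⟨F, hF, hF2⟩, L, hL⟩ := H.exists_analytic w'
  obtain ⟨D, hD⟩ : ∃ D, D = c * prodShift b kk K := ⟨_, rfl⟩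
  rw [← hD] at hlarge
  have hD0 : D ≠ 0 := by
    rw [hD]
    exact mul_ne_zero hc (prodShift_ne_zero hb0 kk K)
  have hF3 : ∀ t : ℝ, 0 ≤ t → (F (t : ℂ)).re = ∫ x in U, evT w' t x * evR h x ^ (t + 1) := by
    intro t ht
    rw [hF2 t ht, Complex.ofReal_re]
  obtain ⟨D', hD'⟩ := eq_X_pow_mul D
  have hD'0 := coeff_zero_ne_of_eq hD0 hD'
  have hord : D.natTrailingDegree + 1 ≤ c.natTrailingDegree + j := by
    rw [hD, Polynomial.natTrailingDegree_mul hc (prodShift_ne_zero hb0 kk K)]
    have := natTrailingDegree_prodShift hb0 kk K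
    omega
  obtain ⟨e, he⟩ := Nat.exists_eq_add_of_le hord
  refine ⟨D.map (algebraMap ℚ ℝ), fun t => t ^ (c.natTrailingDegree + j) * (F (t : ℂ)).re, ?_, ?_, ?_, 0,
    fun i => i.elim0, ?_⟩
  · exact (Polynomial.map_ne_zero_iff (algebraMap ℚ ℝ).injective).2 hD0
  · intro t ht
    refine AnalyticAt.mul (analyticAt_id.pow _) ?_
    have h1 : AnalyticAt ℝ F ((t : ℝ) : ℂ) := (hF (t : ℂ) (by
      change 0 < ((t : ℂ)).re
      rw [Complex.ofReal_re]
      exact ht)).restrictScalars
    have h2 : AnalyticAt ℝ (fun t : ℝ => F (t : ℂ)) t :=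
      AnalyticAt.comp (g := F) (f := fun t : ℝ => (t : ℂ)) h1 (Complex.ofRealCLM.analyticAt t)
    exact (Complex.reCLM.analyticAt _).comp h2
  · have h1 : ∀ᶠ t : ℝ in atTop, Polynomial.aeval t c ≠ 0 := by
      have h2 : c.map (algebraMap ℚ ℝ) ≠ 0 := (Polynomial.map_ne_zero_iff (algebraMap ℚ ℝ).injective).2 hc
      filter_upwards [Polynomial.eventually_atTop_not_isRoot _ h2] with t ht h3
      apply ht
      rw [Polynomial.IsRoot.def, Polynomial.eval_map_algebraMap]
      exact h3
    filter_upwards [h1, eventually_gt_atTop (max 0 (max T (K + 1)))] with t ht1 ht2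
    have ht3 : 0 < t := lt_of_le_of_lt (le_max_left _ _) ht2
    have ht4 : max T (K + 1) < t := lt_of_le_of_lt (le_max_right _ _) ht2
    refine ⟨hint t (lt_of_le_of_lt (le_max_right _ _) ht4) ht1, ?_⟩
    rw [Polynomial.eval_map_algebraMap, hlarge t ht4, hF3 t ht3.le]
  · have hne : Polynomial.aeval (0 : ℝ) D' ≠ 0 := by
      rw [← Polynomial.coeff_zero_eq_aeval_zero']
      simpa using hD'0
    have lim1 : Tendsto (fun t : ℝ => Polynomial.aeval t D') (𝓝[>] 0) (𝓝 (Polynomial.aeval (0 : ℝ) D')) :=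
      ((Polynomial.continuous_aeval D').tendsto 0).mono_left nhdsWithin_le_nhds
    have lim2 : Tendsto (fun t : ℝ => t ^ (1 + e) * ∫ x in U, evT w' t x * evR h x ^ (t + 1)) (𝓝[>] 0)
        (𝓝 ((0 : ℝ) ^ (1 + e) * L)) := by
      refine Tendsto.mul ?_ hL
      exact ((continuous_pow (1 + e)).tendsto 0).mono_left nhdsWithin_le_nhds
    have lim3 := lim2.div lim1 hne
    rw [zero_pow (by omega), zero_mul, zero_div] at lim3
    refine lim3.congr' ?_
    filter_upwards [self_mem_nhdsWithin] with t ht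
    have ht0 : (0 : ℝ) < t := ht
    have h2 : Polynomial.aeval t D = t ^ D.natTrailingDegree * Polynomial.aeval t D' := by
      conv_lhs => rw [hD']
      rw [map_mul, map_pow, Polynomial.aeval_X]
    rw [Finset.univ_eq_empty, Finset.sum_empty, sub_zero, Polynomial.eval_map_algebraMap, h2, hF3 t ht0.le, he,
      add_assoc, pow_add t D.natTrailingDegree, mul_assoc, mul_div_mul_left _ _ (pow_ne_zero _ ht0.ne')]
    rfl

private theorem bCert_ae {n : ℕ} {Q : MvPolynomial (Fin n) ℚ} (hQ : Q ≠ 0) :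
    ∀ᵐ x : Fin n → ℝ, evR Q x ≠ 0 := by
  have h0 : MvPolynomial.map (algebraMap ℚ ℝ) Q ≠ 0 := by
    intro h
    exact hQ (map_injective _ (algebraMap ℚ ℝ).injective (h.trans (map_zero _).symm))
  filter_upwards [ae_eval_ne_zero h0] with x hx
  rw [eval_map] at hx
  exact hx

/-- The certificates `CertM` are correct.

Proof. Let `u = P / Q - ∑ q_i W_i / h ^ k` on the region. As in `check_sound_aux` (Check.lean), the identity in `CertM` at `(x, t)`, divided by `Q(x)` (not zero almost everywhere), gives the hypothesis of `reg_cert` with `c = X ^ s * (1 + X * A)` (`natTrailingDegree_mult`), `K := k + K`; so `RegV u 0`. `RegV (P / Q) (∫ P / Q)` by `reg_int`, `RegV (∑ q_i W_i / h ^ k) (∑ q_i v_i)` by `RegV.sum`;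
so `RegV u (∫ P / Q - ∑ q_i v_i)` and `RegV.unique`. -/
theorem certM_sound {s n r N : ℕ} {p : Fin r → Pz s n} {θ : Fin s → ℚ} {kk : ℕ} {b : Polynomial ℚ} (hb0 : b ≠ 0)
    (hb : FEq (spz (hh p) θ) kk b) {k j : ℕ} (hj : b.natDegree + 1 ≤ j) {W : Fin N → Pz s n} {v : Fin N → ℝ}
    (hv : ∀ i, RegV p (cst θ) (fun y => vl (W i) (cst θ) y / vl (hh p) (cst θ) y ^ k) (v i)) {q : Fin N → ℚ}
    {P Q : MvPolynomial (Fin n) ℚ} (hQ : Q ≠ 0) (hc : CertM (spz (hh p) θ) k j (fun i => spz (W i) θ) q P Q)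
    (hu : IntegrableOn (fun x => evR P x / evR Q x) (rg p (cst θ))) :
    ∫ x in rg p (cst θ), evR P x / evR Q x = ∑ i, (q i : ℝ) * v i := by
  obtain ⟨s', K, A, w, g, hchk⟩ := hc
  obtain ⟨hs, hc0⟩ := natTrailingDegree_mult s' A
  have H := rg_region p θ
  have hmW : ∀ i, Measurable fun y => vl (W i) (cst θ) y / vl (hh p) (cst θ) y ^ k := fun i =>
    (vx_vl_cont (W i) (cst θ)).measurable.div ((vx_vl_cont (hh p) (cst θ)).measurable.pow_const k)
  have hm : Measurable fun x => evR P x / evR Q x +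
      (-1) * ∑ i, (q i : ℝ) * (vl (W i) (cst θ) x / vl (hh p) (cst θ) x ^ k) :=
    ((continuous_evR P).measurable.div (continuous_evR Q).measurable).add
      (measurable_const.mul (Finset.measurable_sum _ fun i _ => measurable_const.mul (hmW i)))
  have hz : RegV p (cst θ) (fun x => evR P x / evR Q x +
      (-1) * ∑ i, (q i : ℝ) * (vl (W i) (cst θ) x / vl (hh p) (cst θ) x ^ k)) 0 := by
    refine reg_cert (K := k + K) (w := w) (g := g) hb0 hb hm hc0 hj ?_
    have hQ' := ae_restrict_of_ae (s := rg p (cst θ)) (bCert_ae hQ)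
    filter_upwards [ae_restrict_mem H.measurableSet, hQ'] with x hx hQx t
    have hp := H.pos x hx
    have h1 := congrArg (fun F => evT F t x) hchk
    have e0 : ∀ F : Pt n, evT (-F) t x = - evT F t x := fun F => map_neg _ F
    simp only [evT_add, evT_mul, evT_pow, evT_hP, evT_beta, sub_eq_add_neg, e0] at h1
    rw [map_pow, Polynomial.aeval_X] at h1
    have hG : evR (∑ i, C (q i) * spz (W i) θ) x = ∑ i, (q i : ℝ) * vl (W i) (cst θ) x := by
      unfold evR
      rw [map_sum]
      refine Finset.sum_congr rfl fun i _ => ?_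
      rw [map_mul, aeval_C, vl_spz]
      rfl
    rw [hG] at h1
    have hh1 : vl (hh p) (cst θ) x = evR (spz (hh p) θ) x := (bCert_evR _ _ _).symm
    rw [hs, hh1]
    have e1 : ∑ i, (q i : ℝ) * (vl (W i) (cst θ) x / evR (spz (hh p) θ) x ^ k) =
        (∑ i, (q i : ℝ) * vl (W i) (cst θ) x) / evR (spz (hh p) θ) x ^ k := by
      rw [Finset.sum_div]
      exact Finset.sum_congr rfl fun i _ => (mul_div_assoc _ _ _).symm
    rw [e1]
    generalize ∑ i, (q i : ℝ) * vl (W i) (cst θ) x = G at h1 ⊢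
    generalize evR (spz (hh p) θ) x = hx0 at h1 hp ⊢
    have e2 : (evR P x / evR Q x + (-1) * (G / hx0 ^ k)) * hx0 ^ (k + K + 1) =
        (evR P x * hx0 ^ (k + K + 1) + -(evR Q x * G * hx0 ^ (K + 1))) / evR Q x := by
      have e3 : hx0 ^ (k + K + 1) = hx0 ^ k * hx0 ^ (K + 1) := by
        rw [← pow_add, add_assoc]
      rw [e3]
      field_simp
    rw [e2, ← mul_div_assoc, h1]
    field_simp
  have hr := RegV.add (reg_int p (cst θ) hu) (RegV.smul (RegV.sum hv fun i => (q i : ℝ)) (-1))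
  have h2 := RegV.unique hr hz
  linarith

end Pool.Agent.Lib.MP_bbe012_lc.PN
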