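import Pool.Agent.Lib.MP_bbe012_lc.PN.Dy
import Pool.Agent.Lib.MP_bbe012_lc.PM.An

/-!
# Regularised values: general properties
-/

namespace Pool.Agent.Lib.MP_bbe012_lc.PN

open MvPolynomial MeasureTheory Set PP PG PM Filter Topology

variable {s n r : ℕ}

/-! ### The finite part of the expansion as a polynomial in `t⁻¹` -/

theorem br_to (L : ℕ) (a : Fin L → ℝ) :
    ∃ P : Polynomial ℝ, ∀ y : ℝ, ∑ i, a i * y ^ ((i : ℕ) + 1) = (Polynomial.X * P).eval y := by
  refine ⟨∑ i, Polynomial.C (a i) * Polynomial.X ^ (i : ℕ), fun y => ?_⟩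
  rw [Polynomial.eval_mul, Polynomial.eval_X, Polynomial.eval_finsetSum, Finset.mul_sum]
  refine Finset.sum_congr rfl fun i _ => ?_
  rw [Polynomial.eval_mul, Polynomial.eval_C, Polynomial.eval_pow, Polynomial.eval_X]
  ring

theorem br_of (P : Polynomial ℝ) :
    ∃ (L : ℕ) (a : Fin L → ℝ), ∀ y : ℝ, ∑ i, a i * y ^ ((i : ℕ) + 1) = (Polynomial.X * P).eval y := by
  refine ⟨P.natDegree + 1, fun i => P.coeff i, fun y => ?_⟩
  rw [Polynomial.eval_mul, Polynomial.eval_X, Polynomial.eval_eq_sum_range, Finset.mul_sum,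
    ← Fin.sum_univ_eq_sum_range (fun i => y * (P.coeff i * y ^ i))]
  exact Finset.sum_congr rfl fun i _ => by ring

/-- Reformulation of the definition. -/
theorem reg_iff {p : Fin r → Pz s n} {θ : Fin s → ℝ} {u : (Fin n → ℝ) → ℝ} {v : ℝ} :
    RegV p θ u v ↔ ∃ (Δ : Polynomial ℝ) (Ψ : ℝ → ℝ) (P : Polynomial ℝ), Δ ≠ 0 ∧ AnalyticOnNhd ℝ Ψ (Ioi 0) ∧
    (∀ᶠ t : ℝ in atTop, IntegrableOn (fun x => u x * vl (hh p) θ x ^ t) (rg p θ) ∧
      Δ.eval t * ∫ x in rg p θ, u x * vl (hh p) θ x ^ t = Ψ t) ∧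
    Tendsto (fun t : ℝ => Ψ t / Δ.eval t - (Polynomial.X * P).eval t⁻¹) (𝓝[>] 0) (𝓝 v) := by
  constructor
  · rintro ⟨Δ, Ψ, h0, h1, h2, L, a, h3⟩
    obtain ⟨P, hP⟩ := br_to L a
    exact ⟨Δ, Ψ, P, h0, h1, h2, by simpa only [hP] using h3⟩
  · rintro ⟨Δ, Ψ, P, h0, h1, h2, h3⟩
    obtain ⟨L, a, ha⟩ := br_of P
    exact ⟨Δ, Ψ, h0, h1, h2, L, a, by simpa only [ha] using h3⟩

/-- A polynomial which is not zero has no zeros in a punctured neighbourhood. -/
theorem br_ne {Δ : Polynomial ℝ} (h : Δ ≠ 0) : ∀ᶠ t : ℝ in 𝓝[>] 0, Δ.eval t ≠ 0 := by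
  have h1 : {t : ℝ | Δ.IsRoot t}.Finite := Polynomial.finite_setOfPred_isRoot h
  have h2 : ∀ᶠ t : ℝ in 𝓝[≠] 0, t ∉ {t : ℝ | Δ.IsRoot t} :=
    h1.eventually_cofinite_notMem.filter_mono (nhdsNE_le_cofinite 0)
  have h3 : (𝓝[>] (0 : ℝ)) ≤ 𝓝[≠] 0 := nhdsWithin_mono _ fun t ht => ne_of_gt ht
  exact h3 h2

/-! ### Properties -/

/-- Convergent integrals. -/
theorem reg_int (p : Fin r → Pz s n) (θ : Fin s → ℝ) {u : (Fin n → ℝ) → ℝ} (hu : IntegrableOn u (rg p θ)) :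
    RegV p θ u (∫ x in rg p θ, u x) := by
  obtain ⟨C, hC, h⟩ := rg_bound p θ
  have hH : Measurable fun x => vl (hh p) θ x := (an_cont_x (hh p) θ).measurable
  refine reg_iff.2 ⟨1, fun t => ∫ x in rg p θ, u x * vl (hh p) θ x ^ t, 0, one_ne_zero, (mellin p θ hu).1, ?_, ?_⟩
  · filter_upwards [eventually_ge_atTop (0 : ℝ)] with t ht
    refine ⟨an_integrable hH (rg_open' p θ).measurableSet (fun x hx => rg_pos p hx) (fun x hx => h θ ?_ x hx) hu ht, ?_⟩
    · exact Metric.mem_closedBall_self zero_le_one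
    · rw [Polynomial.eval_one, one_mul]
  · refine (mellin p θ hu).2.congr fun t => ?_
    rw [Polynomial.eval_one, div_one, mul_zero, Polynomial.eval_zero, sub_zero]

/-- Only the values almost everywhere on the region matter. -/
theorem RegV.congr {p : Fin r → Pz s n} {θ : Fin s → ℝ} {u u' : (Fin n → ℝ) → ℝ} {v : ℝ} (h : RegV p θ u v)
    (hu : ∀ᵐ x ∂(volume.restrict (rg p θ)), u x = u' x) : RegV p θ u' v := by
  obtain ⟨Δ, Ψ, h0, h1, h2, h3⟩ := h
  refine ⟨Δ, Ψ, h0, h1, ?_, h3⟩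
  filter_upwards [h2] with t ht
  have he : (fun x => u x * vl (hh p) θ x ^ t) =ᵐ[volume.restrict (rg p θ)] fun x => u' x * vl (hh p) θ x ^ t := by
    filter_upwards [hu] with x hx
    rw [hx]
  refine ⟨ht.1.congr he, ?_⟩
  rw [← integral_congr_ae he]
  exact ht.2

/-- Sums. -/
theorem RegV.add {p : Fin r → Pz s n} {θ : Fin s → ℝ} {u u' : (Fin n → ℝ) → ℝ} {v v' : ℝ} (h : RegV p θ u v)
    (h' : RegV p θ u' v') : RegV p θ (fun x => u x + u' x) (v + v') := by
  obtain ⟨Δ, Ψ, P, h0, h1, h2, h3⟩ := reg_iff.1 h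
  obtain ⟨Δ', Ψ', P', h0', h1', h2', h3'⟩ := reg_iff.1 h'
  have hpol : ∀ D : Polynomial ℝ, AnalyticOnNhd ℝ (fun t => D.eval t) (Ioi 0) := fun D t _ => by
    have h8 := AnalyticAt.aeval_polynomial (f := fun t : ℝ => t) (z := t) (analyticAt_id (𝕜 := ℝ)) D
    simpa only [Polynomial.coe_aeval_eq_eval] using h8
  refine reg_iff.2 ⟨Δ * Δ', fun t => Δ'.eval t * Ψ t + Δ.eval t * Ψ' t, P + P', mul_ne_zero h0 h0',
    fun t ht => ((hpol Δ' t ht).mul (h1 t ht)).add ((hpol Δ t ht).mul (h1' t ht)), ?_, ?_⟩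
  · filter_upwards [h2, h2'] with t ht ht'
    have e : (fun x => (u x + u' x) * vl (hh p) θ x ^ t) =
        fun x => u x * vl (hh p) θ x ^ t + u' x * vl (hh p) θ x ^ t := by
      funext x
      ring
    rw [e]
    refine ⟨ht.1.add ht'.1, ?_⟩
    rw [integral_add ht.1 ht'.1, Polynomial.eval_mul, ← ht.2, ← ht'.2]
    ring
  · refine (h3.add h3').congr' ?_
    filter_upwards [br_ne h0, br_ne h0'] with t ht ht'
    have e : (Δ'.eval t * Ψ t + Δ.eval t * Ψ' t) / (Δ * Δ').eval t = Ψ t / Δ.eval t + Ψ' t / Δ'.eval t := by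
      rw [Polynomial.eval_mul, div_add_div _ _ ht ht']
      ring
    rw [e, mul_add, Polynomial.eval_add]
    ring

theorem RegV.smul {p : Fin r → Pz s n} {θ : Fin s → ℝ} {u : (Fin n → ℝ) → ℝ} {v : ℝ} (h : RegV p θ u v) (a : ℝ) :
    RegV p θ (fun x => a * u x) (a * v) := by
  obtain ⟨Δ, Ψ, P, h0, h1, h2, h3⟩ := reg_iff.1 h
  refine reg_iff.2 ⟨Δ, fun t => a * Ψ t, Polynomial.C a * P, h0, fun t ht => analyticAt_const.mul (h1 t ht), ?_, ?_⟩
  · filter_upwards [h2] with t ht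
    have e : (fun x => a * u x * vl (hh p) θ x ^ t) = fun x => a * (u x * vl (hh p) θ x ^ t) := by
      funext x
      ring
    rw [e]
    refine ⟨ht.1.const_mul a, ?_⟩
    rw [integral_const_mul, ← ht.2]
    ring
  · refine (h3.const_mul a).congr fun t => ?_
    rw [Polynomial.eval_mul, Polynomial.eval_mul, Polynomial.eval_mul, Polynomial.eval_C]
    ring

theorem RegV.sum {p : Fin r → Pz s n} {θ : Fin s → ℝ} {N : ℕ} {u : Fin N → (Fin n → ℝ) → ℝ} {v : Fin N → ℝ}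
    (h : ∀ i, RegV p θ (u i) (v i)) (a : Fin N → ℝ) :
    RegV p θ (fun x => ∑ i, a i * u i x) (∑ i, a i * v i) := by
  induction N with
  | zero =>
    have h0 := reg_int p θ (u := fun _ => (0 : ℝ)) (integrableOn_zero)
    simpa using h0
  | succ N ih =>
    have h1 := ih (u := fun i => u i.castSucc) (v := fun i => v i.castSucc) (fun i => h i.castSucc)
      (fun i => a i.castSucc)
    have h2 := h1.add ((h (Fin.last N)).smul (a (Fin.last N)))
    simpa only [Fin.sum_univ_castSucc] using h2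

/-- Uniqueness. -/
theorem RegV.unique {p : Fin r → Pz s n} {θ : Fin s → ℝ} {u : (Fin n → ℝ) → ℝ} {v v' : ℝ} (h : RegV p θ u v)
    (h' : RegV p θ u v') : v = v' := by
  obtain ⟨Δ, Ψ, P, h0, h1, h2, h3⟩ := reg_iff.1 h
  obtain ⟨Δ', Ψ', P', h0', h1', h2', h3'⟩ := reg_iff.1 h'
  have hpol : ∀ D : Polynomial ℝ, AnalyticOnNhd ℝ (fun t => D.eval t) (Ioi 0) := fun D t _ => by
    have h8 := AnalyticAt.aeval_polynomial (f := fun t : ℝ => t) (z := t) (analyticAt_id (𝕜 := ℝ)) D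
    simpa only [Polynomial.coe_aeval_eq_eval] using h8
  -- the two continuations agree
  have hA : AnalyticOnNhd ℝ (fun t => Δ'.eval t * Ψ t) (Ioi 0) := fun t ht => (hpol Δ' t ht).mul (h1 t ht)
  have hB : AnalyticOnNhd ℝ (fun t => Δ.eval t * Ψ' t) (Ioi 0) := fun t ht => (hpol Δ t ht).mul (h1' t ht)
  have hev : ∀ᶠ t : ℝ in atTop, Δ'.eval t * Ψ t = Δ.eval t * Ψ' t := by
    filter_upwards [h2, h2'] with t ht ht'
    rw [← ht.2, ← ht'.2]
    ring
  obtain ⟨T, hT⟩ := eventually_atTop.1 hev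
  have heq : EqOn (fun t => Δ'.eval t * Ψ t) (fun t => Δ.eval t * Ψ' t) (Ioi 0) := by
    have hT0 : max T 0 + 1 ∈ Ioi (0 : ℝ) := by
      have := le_max_right T 0
      simp only [mem_Ioi]
      linarith
    refine hA.eqOn_of_preconnected_of_eventuallyEq hB isPreconnected_Ioi hT0 ?_
    filter_upwards [eventually_gt_nhds (show max T 0 < max T 0 + 1 by linarith)] with t ht
    exact hT t ((le_max_left T 0).trans ht.le)
  -- the difference of the finite parts converges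
  have hd : Tendsto (fun t : ℝ => (Polynomial.X * (P' - P)).eval t⁻¹) (𝓝[>] 0) (𝓝 (v - v')) := by
    refine (h3.sub h3').congr' ?_
    filter_upwards [br_ne h0, br_ne h0', self_mem_nhdsWithin] with t ht ht' ht0
    have e : Ψ t / Δ.eval t = Ψ' t / Δ'.eval t := by
      rw [div_eq_div_iff ht ht']
      have := heq ht0
      simp only at this
      linarith
    rw [e, mul_sub, Polynomial.eval_sub]
    ring
  have hd2 : Tendsto (fun y : ℝ => (Polynomial.X * (P' - P)).eval y) atTop (𝓝 (v - v')) := by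
    have := hd.comp (tendsto_inv_atTop_nhdsGT_zero (𝕜 := ℝ))
    refine this.congr fun y => ?_
    simp only [Function.comp, inv_inv]
  rw [Polynomial.tendsto_nhds_iff] at hd2
  have hz : P' - P = 0 := by
    by_contra hne
    have h4 := hd2.2
    rw [Polynomial.degree_mul, Polynomial.degree_X, Polynomial.degree_eq_natDegree hne] at h4
    have h5 : ((1 + (P' - P).natDegree : ℕ) : WithBot ℕ) ≤ ((0 : ℕ) : WithBot ℕ) := by
      push_cast
      exact h4
    have h6 : 1 + (P' - P).natDegree ≤ 0 := WithBot.coe_le_coe.1 h5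
    omega
  have h7 := hd2.1
  rw [hz, mul_zero, Polynomial.leadingCoeff_zero] at h7
  linarith

end Pool.Agent.Lib.MP_bbe012_lc.PN
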