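import Pool.Agent.Lib.MP_bbe012_lc.PN.Dy
import Pool.Agent.Lib.MP_bbe012_lc.PG.BFam

/-!
# Generic numerators
-/

namespace Pool.Agent.Lib.MP_bbe012_lc.PN

open MvPolynomial MeasureTheory Set PP PG PM Filter Topology

/-- Polynomials with rational coefficients which agree on the cube are equal. -/
private theorem cnum_ext {n : ℕ} {p q : MvPolynomial (Fin n) ℚ}
    (h : ∀ y ∈ cube n, (aeval y p : ℝ) = aeval y q) : p = q := by
  have hinj : Function.Injective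
      (map (algebraMap ℚ ℝ) : MvPolynomial (Fin n) ℚ → MvPolynomial (Fin n) ℝ) :=
    map_injective _ (algebraMap ℚ ℝ).injective
  apply hinj
  refine funext_set (fun _ => Ioo (-1 : ℝ) 1) (fun _ => Ioo_infinite (by norm_num)) fun y hy => ?_
  have hy' : y ∈ cube n := fun i => hy i (mem_univ i)
  have h1 := h y hy'
  rw [aeval_def, aeval_def] at h1
  rw [eval_map, eval_map]
  exact h1

/-- A polynomial of total degree at most `D` in terms of its coefficients. -/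
private theorem cnum_expand {n D : ℕ} {P : MvPolynomial (Fin n) ℚ} (hP : P.totalDegree ≤ D) :
    P = ∑ a : Fin n → Fin (D + 1), monomial (fx a) (coeff (fx a) P) := by
  classical
  ext m
  rw [coeff_sum]
  have h1 : ∀ a : Fin n → Fin (D + 1),
      coeff m (monomial (fx a) (coeff (fx a) P)) = if fx a = m then coeff (fx a) P else 0 := fun a => by
    rw [coeff_monomial]
  rw [Finset.sum_congr rfl fun a _ => h1 a]
  by_cases hm : ∀ l, m l < D + 1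
  · have h2 : fx (fun l => (⟨m l, hm l⟩ : Fin (D + 1))) = m := by
      ext l
      rfl
    rw [Finset.sum_eq_single (fun l => (⟨m l, hm l⟩ : Fin (D + 1)))]
    · rw [if_pos h2, h2]
    · intro a _ ha
      refine if_neg fun h3 => ha ?_
      funext l
      refine Fin.ext ?_
      exact DFunLike.congr_fun h3 l
    · intro h3
      exact absurd (Finset.mem_univ _) h3
  · rw [Finset.sum_eq_zero]
    · by_contra h3
      obtain ⟨l, hl⟩ := not_forall.1 hm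
      apply hl
      have h4 : (m.sum fun _ e => e) ≤ P.totalDegree := le_totalDegree (mem_support_iff.2 h3)
      have h5 : m l ≤ m.sum fun _ e => e := by
        by_cases hi : l ∈ m.support
        · exact Finset.single_le_sum (f := fun a => m a) (fun _ _ => Nat.zero_le _) hi
        · rw [Finsupp.notMem_support_iff.1 hi]
          exact Nat.zero_le _
      exact Nat.lt_succ_of_le (h5.trans (h4.trans hP))
    · intro a _
      refine if_neg fun h3 => hm fun l => ?_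
      have h4 : m l = (a l : ℕ) := by
        rw [← h3]
        rfl
      rw [h4]
      exact (a l).2

/-- The value of such a polynomial. -/
private theorem cnum_val {n D : ℕ} {P : MvPolynomial (Fin n) ℚ} (hP : P.totalDegree ≤ D) (x : Fin n → ℝ) :
    (aeval x P : ℝ) = ∑ a : Fin n → Fin (D + 1), ((coeff (fx a) P : ℚ) : ℝ) * ∏ i, x i ^ (a i : ℕ) := by
  have h1 : (aeval x P : ℝ) = aeval x (∑ a : Fin n → Fin (D + 1), monomial (fx a) (coeff (fx a) P)) := by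
    rw [← cnum_expand hP]
  rw [h1, map_sum]
  refine Finset.sum_congr rfl fun a _ => ?_
  rw [aeval_monomial, Finsupp.prod_fintype _ _ fun i => pow_zero _]
  rfl

private theorem cnum_mul {s n : ℕ} (G H : Pz s n) (θ : Fin s → ℝ) (x : Fin n → ℝ) :
    vl (G * H) θ x = vl G θ x * vl H θ x :=
  map_mul _ _ _

private theorem cnum_pow {s n : ℕ} (G : Pz s n) (k : ℕ) (θ : Fin s → ℝ) (x : Fin n → ℝ) :
    vl (G ^ k) θ x = vl G θ x ^ k :=
  map_pow _ _ _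

private theorem cnum_neg {s n : ℕ} (G : Pz s n) (θ : Fin s → ℝ) (x : Fin n → ℝ) : vl (-G) θ x = - vl G θ x :=
  map_neg _ _

private theorem cnum_prod {s n : ℕ} {ι : Type} (t : Finset ι) (G : ι → Pz s n) (θ : Fin s → ℝ) (x : Fin n → ℝ) :
    vl (∏ i ∈ t, G i) θ x = ∏ i ∈ t, vl (G i) θ x :=
  map_prod _ _ _

private theorem cnum_psg {s : ℕ} (F : Sup s) (σ : Fin F.r → Bool) (j : Fin F.r) (θ : Fin s → ℝ) {y : Fin F.n → ℝ}
    (hy : y ∈ cube F.n) : vl (psg F σ j) θ y =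
      ((sg (σ j) : ℚ) : ℝ) * (ww y ^ (F.g j).totalDegree * vl (F.g j) θ (phi y)) := by
  rw [psg, sg]
  split_ifs with h
  · rw [vl_sh _ θ hy, Rat.cast_one, one_mul]
  · rw [cnum_neg, vl_sh _ θ hy, Rat.cast_neg, Rat.cast_one]
    ring

private theorem cnum_ww {s n : ℕ} (θ : Fin s → ℝ) (y : Fin n → ℝ) :
    vl (∏ i : Fin n, (1 - X (Sum.inr i) ^ 2) : Pz s n) θ y = ww y := by
  rw [cnum_prod, ww]
  refine Finset.prod_congr rfl fun i _ => ?_
  simp [vl]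

private theorem cnum_j {s n : ℕ} (θ : Fin s → ℝ) (y : Fin n → ℝ) :
    vl (∏ i : Fin n, (1 + X (Sum.inr i) ^ 2) : Pz s n) θ y = ∏ i, (1 + y i ^ 2) := by
  rw [cnum_prod]
  refine Finset.prod_congr rfl fun i _ => ?_
  simp [vl]

private theorem cnum_mon {s n A : ℕ} (a : Fin n → Fin (A + 1)) (θ : Fin s → ℝ) {y : Fin n → ℝ} (hy : y ∈ cube n) :
    vl (∏ i : Fin n, (X (Sum.inr i) ^ (a i : ℕ) * (1 - X (Sum.inr i) ^ 2) ^ (A - (a i : ℕ))) : Pz s n) θ y =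
      ww y ^ A * ∏ i, phi y i ^ (a i : ℕ) := by
  have h1 : ∀ i : Fin n, y i ^ (a i : ℕ) * (1 - y i ^ 2) ^ (A - (a i : ℕ)) =
      (1 - y i ^ 2) ^ A * phi y i ^ (a i : ℕ) := by
    intro i
    have h2 := one_sub_sq_pos (hy i)
    have h4 : (a i : ℕ) ≤ A := Nat.lt_succ_iff.mp (a i).2
    have h3 : (1 - y i ^ 2) ^ A = (1 - y i ^ 2) ^ (A - (a i : ℕ)) * (1 - y i ^ 2) ^ (a i : ℕ) := by
      rw [← pow_add, Nat.sub_add_cancel h4]
    rw [h3, phi, div_pow]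
    field_simp
  rw [cnum_prod, ww, ← Finset.prod_pow, ← Finset.prod_mul_distrib]
  refine Finset.prod_congr rfl fun i _ => ?_
  rw [← h1]
  simp [vl]

/-- The integrands in the coordinates `y` have the denominator `h ^ K` and generic numerators.

Proof. Let `h = hh (psg F σ) = (∏ ± sh g_j) * ∏ (1 - y_i ^ 2)`. For `y` in the cube: `g_j(θ, φ(y)) = ± psg_j(θ, y) / ww ^ (deg g_j)` (`vl_sh`, PM/Wx.lean), `jac y = ∏ (1 + y_i ^ 2) / ww ^ 2`, `φ(y)_i = y_i / (1 - y_i ^ 2)`. Put `K = A + 2` and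
`w a κ = C (± 1) * ∏ (1 + y_i ^ 2) * ∏ y_i ^ (a i) * ∏ (1 - y_i ^ 2) ^ (A - a i) * (∏ (1 - y_i ^ 2)) ^ (∑ j, κ j * deg g_j) * ∏ psg_j ^ (K - κ j)`. The two sides of the assertion, polynomials in `y`, agree on the cube. -/
theorem exists_num {s : ℕ} (F : Sup s) (σ : Fin F.r → Bool) (A : ℕ) :
    ∃ (K : ℕ) (w : (Fin F.n → Fin (A + 1)) → (Fin F.r → Fin (A + 1)) → Pz s F.n),
      ∀ (θ : Fin s → ℚ) (I : IntCode) (c : ℚ) (κ : Fin F.r → Fin (A + 1)), I.1 = F.n →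
        IsMon F θ c (fun j => (κ j : ℕ)) (pcPoly F.n I.2.1.2) → (pcPoly F.n I.2.1.1).totalDegree ≤ A →
          pcPoly F.n (bdInt I).2.1.1 * spz (hh (psg F σ)) θ ^ K =
            (∑ a, C (coeff (fx a) (pcPoly F.n I.2.1.1) / c) * spz (w a κ) θ) * pcPoly F.n (bdInt I).2.1.2 := by
  refine ⟨A + 2, fun a κ => C (∏ j, sg (σ j) ^ (κ j : ℕ)) *
    ((∏ i : Fin F.n, (1 + X (Sum.inr i) ^ 2)) *
      ∏ i : Fin F.n, (X (Sum.inr i) ^ (a i : ℕ) * (1 - X (Sum.inr i) ^ 2) ^ (A - (a i : ℕ)))) *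
    ((∏ i : Fin F.n, (1 - X (Sum.inr i) ^ 2)) ^ (∑ j, (κ j : ℕ) * (F.g j).totalDegree) *
      ∏ j, psg F σ j ^ (A + 2 - (κ j : ℕ))), ?_⟩
  rintro θ ⟨n, ⟨P, Q⟩, S⟩ c κ hn ⟨hc, hQ⟩ hP
  change n = F.n at hn
  subst hn
  change pcPoly F.n Q = _ at hQ
  change (pcPoly F.n P).totalDegree ≤ A at hP
  refine cnum_ext fun y hy => ?_
  have hc' : (c : ℝ) ≠ 0 := by exact_mod_cast hc
  have e1 : (aeval y (pcPoly F.n (bdInt (F.n, (P, Q), S)).2.1.1) : ℝ) =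
      (∏ i, (1 + y i ^ 2)) * (ww y ^ pcDeg P * pcEval F.n P (phi y) * ww y ^ pcDeg Q) := by
    change pcEval F.n (pcMul (jCode F.n) (pcMul (sharp F.n (pcDeg P) P) (pcPow (wCode F.n) (pcDeg Q)))) y = _
    rw [pcEval_mul, pcEval_mul, pcEval_pow, pcEval_w, pcEval_sharp le_rfl hy, pcEval_j]
  have e2 : (aeval y (pcPoly F.n (bdInt (F.n, (P, Q), S)).2.1.2) : ℝ) =
      ww y ^ (pcDeg P + 2) * (ww y ^ pcDeg Q * pcEval F.n Q (phi y)) := by
    change pcEval F.n (pcMul (pcPow (wCode F.n) (pcDeg P + 2)) (sharp F.n (pcDeg Q) Q)) y = _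
    rw [pcEval_mul, pcEval_pow, pcEval_w, pcEval_sharp le_rfl hy]
  have e3 : pcEval F.n Q (phi y) = c * ∏ j, vl (F.g j) (cst θ) (phi y) ^ (κ j : ℕ) := by
    unfold pcEval
    rw [hQ, map_mul, map_prod, aeval_C]
    congr 1
    refine Finset.prod_congr rfl fun j _ => ?_
    rw [map_pow, vl_spz]
  have e4 : pcEval F.n P (phi y) = ∑ a : Fin F.n → Fin (A + 1),
      ((coeff (fx a) (pcPoly F.n P) : ℚ) : ℝ) * ∏ i, phi y i ^ (a i : ℕ) := cnum_val hP (phi y)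
  have e5 : vl (hh (psg F σ)) (cst θ) y =
      (∏ j, (((sg (σ j) : ℚ) : ℝ) * (ww y ^ (F.g j).totalDegree * vl (F.g j) (cst θ) (phi y)))) * ww y := by
    rw [hh, cnum_mul, cnum_ww, cnum_prod]
    congr 1
    exact Finset.prod_congr rfl fun j _ => cnum_psg F σ j (cst θ) hy
  have e6 : (∏ j, ((sg (σ j) : ℚ) : ℝ) ^ (κ j : ℕ)) * ww y ^ (∑ j, (κ j : ℕ) * (F.g j).totalDegree) *
      (∏ j, (((sg (σ j) : ℚ) : ℝ) * (ww y ^ (F.g j).totalDegree * vl (F.g j) (cst θ) (phi y))) ^ (A + 2 - (κ j : ℕ))) *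
      ∏ j, vl (F.g j) (cst θ) (phi y) ^ (κ j : ℕ) =
      ∏ j, (((sg (σ j) : ℚ) : ℝ) * (ww y ^ (F.g j).totalDegree * vl (F.g j) (cst θ) (phi y))) ^ (A + 2) := by
    rw [← Finset.prod_pow_eq_pow_sum, ← Finset.prod_mul_distrib, ← Finset.prod_mul_distrib, ← Finset.prod_mul_distrib]
    refine Finset.prod_congr rfl fun j _ => ?_
    have h1 : A + 2 = (κ j : ℕ) + (A + 2 - (κ j : ℕ)) := by
      have := (κ j).2
      omega
    have h2 : (((sg (σ j) : ℚ) : ℝ) * (ww y ^ (F.g j).totalDegree * vl (F.g j) (cst θ) (phi y))) ^ (A + 2) =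
        (((sg (σ j) : ℚ) : ℝ) * (ww y ^ (F.g j).totalDegree * vl (F.g j) (cst θ) (phi y))) ^ (κ j : ℕ) *
        (((sg (σ j) : ℚ) : ℝ) * (ww y ^ (F.g j).totalDegree * vl (F.g j) (cst θ) (phi y))) ^ (A + 2 - (κ j : ℕ)) := by
      rw [← pow_add, ← h1]
    rw [h2, mul_pow _ _ (κ j : ℕ), mul_pow _ _ (κ j : ℕ), ← pow_mul, mul_comm (F.g j).totalDegree]
    ring
  have e7 : ∀ a : Fin F.n → Fin (A + 1),
      (aeval y (C (coeff (fx a) (pcPoly F.n P) / c) * spz (C (∏ j, sg (σ j) ^ (κ j : ℕ)) *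
        ((∏ i : Fin F.n, (1 + X (Sum.inr i) ^ 2)) *
          ∏ i : Fin F.n, (X (Sum.inr i) ^ (a i : ℕ) * (1 - X (Sum.inr i) ^ 2) ^ (A - (a i : ℕ)))) *
        ((∏ i : Fin F.n, (1 - X (Sum.inr i) ^ 2)) ^ (∑ j, (κ j : ℕ) * (F.g j).totalDegree) *
          ∏ j, psg F σ j ^ (A + 2 - (κ j : ℕ)))) θ) : ℝ) =
      (((coeff (fx a) (pcPoly F.n P) : ℚ) : ℝ) * ∏ i, phi y i ^ (a i : ℕ)) *
        ((∏ i, (1 + y i ^ 2)) * ww y ^ A * ((∏ j, ((sg (σ j) : ℚ) : ℝ) ^ (κ j : ℕ)) *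
          ww y ^ (∑ j, (κ j : ℕ) * (F.g j).totalDegree) *
          ∏ j, (((sg (σ j) : ℚ) : ℝ) * (ww y ^ (F.g j).totalDegree * vl (F.g j) (cst θ) (phi y))) ^
            (A + 2 - (κ j : ℕ))) / c) := by
    intro a
    have h1 : vl (C (∏ j, sg (σ j) ^ (κ j : ℕ)) : Pz s F.n) (cst θ) y = ∏ j, ((sg (σ j) : ℚ) : ℝ) ^ (κ j : ℕ) := by
      rw [vl, aeval_C, eq_ratCast, Rat.cast_prod]
      exact Finset.prod_congr rfl fun j _ => Rat.cast_pow _ _
    have h2 : vl (∏ j, psg F σ j ^ (A + 2 - (κ j : ℕ))) (cst θ) y =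
        ∏ j, (((sg (σ j) : ℚ) : ℝ) * (ww y ^ (F.g j).totalDegree * vl (F.g j) (cst θ) (phi y))) ^
          (A + 2 - (κ j : ℕ)) := by
      rw [cnum_prod]
      refine Finset.prod_congr rfl fun j _ => ?_
      rw [cnum_pow, cnum_psg F σ j (cst θ) hy]
    rw [map_mul, aeval_C, ← vl_spz, cnum_mul, cnum_mul, cnum_mul, cnum_mul, cnum_pow, h1, h2, cnum_j, cnum_ww,
      cnum_mon a (cst θ) hy, eq_ratCast, Rat.cast_div]
    ring
  rw [map_mul, map_mul, map_sum, map_pow, ← vl_spz, e5, e1, e2, e3]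
  rw [Finset.sum_congr rfl fun a _ => e7 a, ← Finset.sum_mul, ← e4, mul_pow, ← Finset.prod_pow, ← e6]
  have e8 : ww y ^ (A + 2) = ww y ^ A * ww y ^ 2 := pow_add _ _ _
  have e9 : ww y ^ (pcDeg P + 2) = ww y ^ pcDeg P * ww y ^ 2 := pow_add _ _ _
  rw [e8, e9]
  field_simp

end Pool.Agent.Lib.MP_bbe012_lc.PN
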