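import Pool.Agent.Lib.MP_bbe012_lc.PM.Se

/-!
# Semidecidable predicates
-/

namespace Pool.Agent.Lib.MP_bbe012_lc.PN

open Primrec

/-- Predicates of the form: there is a number with a primitive recursive property. -/
def CE {α : Type} [Primcodable α] (P : α → Prop) : Prop :=
  ∃ R : α → ℕ → Prop, PrimrecPred (fun p : α × ℕ => R p.1 p.2) ∧ ∀ a, (∃ c, R a c) ↔ P a

variable {α β : Type} [Primcodable α] [Primcodable β]

theorem CE.of_primrec {P : α → Prop} (h : PrimrecPred P) : CE P := by
  refine ⟨fun a _ => P a, h.comp Primrec.fst, fun a => ⟨?_, fun ha => ⟨0, ha⟩⟩⟩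
  rintro ⟨_, ha⟩
  exact ha

theorem CE.congr {P P' : α → Prop} (h : CE P) (h' : ∀ a, P a ↔ P' a) : CE P' := by
  obtain ⟨R, hR, hP⟩ := h
  exact ⟨R, hR, fun a => (hP a).trans (h' a)⟩

/-- Composition with a primitive recursive function. -/
theorem CE.comp {P : β → Prop} (h : CE P) {f : α → β} (hf : Primrec f) : CE fun a => P (f a) := by
  obtain ⟨R, hR, hP⟩ := h
  exact ⟨fun a n => R (f a) n, hR.comp (Primrec.pair (hf.comp Primrec.fst) Primrec.snd), fun a => hP (f a)⟩

/-- Certificates in any type of codes. -/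
private theorem ce_cert {γ : Type} [Primcodable γ] {P : α → Prop} {R : α → γ → Prop}
    (hR : PrimrecPred fun p : α × γ => R p.1 p.2) (h : ∀ a, (∃ c, R a c) ↔ P a) : CE P := by
  classical
  refine ⟨fun a n => ∃ c, Encodable.decode (α := γ) n = some c ∧ R a c, ?_, fun a => ?_⟩
  · have h1 : Primrec fun y : α × ℕ =>
        ((Encodable.decode (α := γ) y.2).map fun c => decide (R y.1 c)).getD false :=
      Primrec.option_getD.comp (Primrec.option_map (Primrec.decode.comp Primrec.snd)
        ((hR.decide.comp (Primrec.pair (Primrec.fst.comp Primrec.fst) Primrec.snd)).to₂)) (Primrec.const false)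
    refine (Primrec.eq.comp h1 (Primrec.const true)).of_eq fun y => ?_
    cases hd : Encodable.decode (α := γ) y.2 with
    | none =>
      constructor
      · intro h2
        simp [hd] at h2
      · rintro ⟨c, hc, _⟩
        rw [hd] at hc
        exact absurd hc (by simp)
    | some c =>
      constructor
      · intro h2
        simp only [hd, Option.map_some, Option.getD_some, decide_eq_true_eq] at h2
        exact ⟨c, hd, h2⟩
      · rintro ⟨c', hc', h2⟩
        rw [hd] at hc'
        obtain rfl := Option.some.inj hc'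
        simp only [hd, Option.map_some, Option.getD_some, decide_eq_true_eq]
        exact h2
  · rw [← h a]
    constructor
    · rintro ⟨_, c, _, hc⟩
      exact ⟨c, hc⟩
    · rintro ⟨c, hc⟩
      exact ⟨Encodable.encode c, c, Encodable.encodek c, hc⟩

/-- Existential quantifiers over any type of codes. Proof: pair the encoded `b` and the number (`Nat.unpair`, `Encodable.decode`). -/
theorem CE.ex {P : α × β → Prop} (h : CE P) : CE fun a => ∃ b, P (a, b) := by
  obtain ⟨R, hR, hP⟩ := h
  refine ce_cert (γ := β × ℕ) (R := fun a c => R (a, c.1) c.2) ?_ fun a => ?_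
  · exact hR.comp (Primrec.pair (Primrec.pair Primrec.fst (Primrec.fst.comp Primrec.snd))
      (Primrec.snd.comp Primrec.snd))
  · constructor
    · rintro ⟨⟨b, n⟩, hb⟩
      exact ⟨b, (hP (a, b)).1 ⟨n, hb⟩⟩
    · rintro ⟨b, hb⟩
      obtain ⟨n, hn⟩ := (hP (a, b)).2 hb
      exact ⟨(b, n), hn⟩

theorem CE.and {P P' : α → Prop} (h : CE P) (h' : CE P') : CE fun a => P a ∧ P' a := by
  obtain ⟨R, hR, hP⟩ := h
  obtain ⟨R', hR', hP'⟩ := h'
  refine ce_cert (γ := ℕ × ℕ) (R := fun a c => R a c.1 ∧ R' a c.2) ?_ fun a => ?_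
  · exact (hR.comp (Primrec.pair Primrec.fst (Primrec.fst.comp Primrec.snd))).and
      (hR'.comp (Primrec.pair Primrec.fst (Primrec.snd.comp Primrec.snd)))
  · constructor
    · rintro ⟨⟨m, n⟩, hm, hn⟩
      exact ⟨(hP a).1 ⟨m, hm⟩, (hP' a).1 ⟨n, hn⟩⟩
    · rintro ⟨h1, h2⟩
      obtain ⟨m, hm⟩ := (hP a).2 h1
      obtain ⟨n, hn⟩ := (hP' a).2 h2
      exact ⟨(m, n), hm, hn⟩

theorem CE.or {P P' : α → Prop} (h : CE P) (h' : CE P') : CE fun a => P a ∨ P' a := by
  obtain ⟨R, hR, hP⟩ := h
  obtain ⟨R', hR', hP'⟩ := h'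
  refine ⟨fun a n => R a n ∨ R' a n, hR.or hR', fun a => ?_⟩
  exact exists_or.trans (or_congr (hP a) (hP' a))

theorem CE.const (p : Prop) : CE fun _ : α => p := by
  exact CE.of_primrec ⟨fun _ => Classical.dec p, Primrec.const _⟩

/-- Finite conjunctions. Proof: induction on the finite type (`Finite.induction_empty_option`) or on a list of its elements. -/
theorem CE.fin_all {ι : Type} [Finite ι] {P : ι → α → Prop} (h : ∀ i, CE (P i)) : CE fun a => ∀ i, P i a := by
  have key : ∀ ι : Type, Finite ι → ∀ P : ι → α → Prop, (∀ i, CE (P i)) → CE fun a => ∀ i, P i a := by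
    intro ι hι
    refine Finite.induction_empty_option (P := fun ι : Type => ∀ P : ι → α → Prop, (∀ i, CE (P i)) →
      CE fun a => ∀ i, P i a) ?_ ?_ ?_ ι
    · intro ι₁ ι₂ e h1 P hP
      refine (h1 (fun i => P (e i)) fun i => hP (e i)).congr fun a => ⟨fun h i => ?_, fun h i => h (e i)⟩
      have := h (e.symm i)
      rwa [Equiv.apply_symm_apply] at this
    · intro P _
      exact (CE.const True).congr fun a => ⟨fun _ i => i.elim, fun _ => trivial⟩
    · intro ι _ ih P hP
      refine ((ih (fun i => P (some i)) fun i => hP (some i)).and (hP none)).congr fun a => ⟨?_, ?_⟩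
      · rintro ⟨h1, h2⟩ (_ | i)
        · exact h2
        · exact h1 i
      · intro h
        exact ⟨fun i => h (some i), h none⟩
  exact key ι inferInstance P h

theorem CE.fin_ex {ι : Type} [Finite ι] {P : ι → α → Prop} (h : ∀ i, CE (P i)) : CE fun a => ∃ i, P i a := by
  have key : ∀ ι : Type, Finite ι → ∀ P : ι → α → Prop, (∀ i, CE (P i)) → CE fun a => ∃ i, P i a := by
    intro ι hι
    refine Finite.induction_empty_option (P := fun ι : Type => ∀ P : ι → α → Prop, (∀ i, CE (P i)) →
      CE fun a => ∃ i, P i a) ?_ ?_ ?_ ι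
    · intro ι₁ ι₂ e h1 P hP
      refine (h1 (fun i => P (e i)) fun i => hP (e i)).congr fun a => ⟨?_, ?_⟩
      · rintro ⟨i, hi⟩
        exact ⟨e i, hi⟩
      · rintro ⟨i, hi⟩
        exact ⟨e.symm i, by rwa [Equiv.apply_symm_apply]⟩
    · intro P _
      refine (CE.const False).congr fun a => ⟨fun h => h.elim, ?_⟩
      rintro ⟨i, _⟩
      exact i.elim
    · intro ι _ ih P hP
      refine ((ih (fun i => P (some i)) fun i => hP (some i)).or (hP none)).congr fun a => ⟨?_, ?_⟩
      · rintro (⟨i, hi⟩ | hi)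
        · exact ⟨some i, hi⟩
        · exact ⟨none, hi⟩
      · rintro ⟨_ | i, hi⟩
        · exact Or.inr hi
        · exact Or.inl ⟨i, hi⟩
  exact key ι inferInstance P h

/-- Bounded universal quantifiers. Proof: a list `c` of numbers of length `n a` such that `R (a, i) (c.getD i 0)` for all `i < n a` (`PrimrecRel.forall_mem_list` with `List.range (n a)`, or `PrimrecRel.forall_lt`); `CE.ex` for the type `List ℕ`, or code the list by a number. -/
theorem CE.all_lt {P : α × ℕ → Prop} (h : CE P) {n : α → ℕ} (hn : Primrec n) : CE fun a => ∀ i < n a, P (a, i) := by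
  obtain ⟨R, hR, hP⟩ := h
  refine ce_cert (γ := List ℕ) (R := fun a l => ∀ i < n a, R (a, i) (l.getD i 0)) ?_ fun a => ?_
  · have h1 : PrimrecRel fun (i : ℕ) (p : α × List ℕ) => R (p.1, i) (p.2.getD i 0) :=
      hR.comp (Primrec.pair (Primrec.pair (Primrec.fst.comp Primrec.snd) Primrec.fst)
        ((Primrec.list_getD 0).comp (Primrec.snd.comp Primrec.snd) Primrec.fst))
    exact (h1.forall_mem_list.comp (Primrec.list_range.comp (hn.comp Primrec.fst)) Primrec.id).of_eq fun p =>
      ⟨fun h i hi => h i (List.mem_range.2 hi), fun h i hi => h i (List.mem_range.1 hi)⟩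
  · constructor
    · rintro ⟨l, hl⟩ i hi
      exact (hP (a, i)).1 ⟨_, hl i hi⟩
    · intro h
      have h2 : ∀ i, ∃ c, i < n a → R (a, i) c := by
        intro i
        by_cases hi : i < n a
        · obtain ⟨c, hc⟩ := (hP (a, i)).2 (h i hi)
          exact ⟨c, fun _ => hc⟩
        · exact ⟨0, fun hi' => absurd hi' hi⟩
      choose f hf using h2
      refine ⟨(List.range (n a)).map f, fun i hi => ?_⟩
      have h3 : ((List.range (n a)).map f).getD i 0 = f i := by
        rw [List.getD_eq_getElem?_getD, List.getElem?_map, List.getElem?_range hi]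
        rfl
      rw [h3]
      exact hf i hi

theorem CE.ex_lt {P : α × ℕ → Prop} (h : CE P) {n : α → ℕ} (hn : Primrec n) : CE fun a => ∃ i < n a, P (a, i) := by
  obtain ⟨R, hR, hP⟩ := h
  refine ce_cert (γ := ℕ × ℕ) (R := fun a c => c.1 < n a ∧ R (a, c.1) c.2) ?_ fun a => ?_
  · exact (Primrec.nat_lt.comp (Primrec.fst.comp Primrec.snd) (hn.comp Primrec.fst)).and
      (hR.comp (Primrec.pair (Primrec.pair Primrec.fst (Primrec.fst.comp Primrec.snd)) (Primrec.snd.comp Primrec.snd)))
  · constructor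
    · rintro ⟨⟨i, c⟩, hi, hc⟩
      exact ⟨i, hi, (hP (a, i)).1 ⟨c, hc⟩⟩
    · rintro ⟨i, hi, hp⟩
      obtain ⟨c, hc⟩ := (hP (a, i)).2 hp
      exact ⟨(i, c), hi, hc⟩

/-- Quantifiers over the elements of a list. Proof: `CE.all_lt` for `n a = (L a).length` and `P (a, (L a).getD i b₀)` (if `β` is empty or `L a = []` the statement is trivial; or directly with a list of certificates and `List.zip`; or `(L a)[i]?` and `Option`). -/
theorem CE.all_mem [Inhabited β] {P : α × β → Prop} (h : CE P) {L : α → List β} (hL : Primrec L) :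
    CE fun a => ∀ b ∈ L a, P (a, b) := by
  have h1 : Primrec fun p : α × ℕ => (p.1, (L p.1).getD p.2 default) :=
    Primrec.pair Primrec.fst ((Primrec.list_getD default).comp (hL.comp Primrec.fst) Primrec.snd)
  refine ((h.comp h1).all_lt (Primrec.list_length.comp hL)).congr fun a => ⟨fun h2 b hb => ?_, fun h2 i hi => ?_⟩
  · obtain ⟨i, hi, rfl⟩ := List.mem_iff_getElem.1 hb
    have h3 := h2 i hi
    simp only [List.getD_eq_getElem?_getD, List.getElem?_eq_getElem hi, Option.getD_some] at h3
    exact h3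
  · refine h2 _ ?_
    simp only [List.getD_eq_getElem?_getD, List.getElem?_eq_getElem hi, Option.getD_some]
    exact List.getElem_mem hi

theorem CE.ex_mem [Inhabited β] {P : α × β → Prop} (h : CE P) {L : α → List β} (hL : Primrec L) :
    CE fun a => ∃ b ∈ L a, P (a, b) := by
  have h1 : Primrec fun p : α × ℕ => (p.1, (L p.1).getD p.2 default) :=
    Primrec.pair Primrec.fst ((Primrec.list_getD default).comp (hL.comp Primrec.fst) Primrec.snd)
  refine ((h.comp h1).ex_lt (Primrec.list_length.comp hL)).congr fun a => ⟨?_, ?_⟩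
  · rintro ⟨i, hi, h2⟩
    refine ⟨_, ?_, h2⟩
    simp only [List.getD_eq_getElem?_getD, List.getElem?_eq_getElem hi, Option.getD_some]
    exact List.getElem_mem hi
  · rintro ⟨b, hb, h2⟩
    obtain ⟨i, hi, rfl⟩ := List.mem_iff_getElem.1 hb
    refine ⟨i, hi, ?_⟩
    simp only [List.getD_eq_getElem?_getD, List.getElem?_eq_getElem hi, Option.getD_some]
    exact h2

/-- Proof: `search_unit`. -/
theorem CE.partrec {P : α → Prop} (h : CE P) : ∃ g : α →. Unit, Partrec g ∧ ∀ a, (g a).Dom ↔ P a := by
  obtain ⟨R, hR, hP⟩ := h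
  obtain ⟨g, hg, hd⟩ := PM.search_unit hR
  exact ⟨g, hg, fun a => (hd a).trans (hP a)⟩

end Pool.Agent.Lib.MP_bbe012_lc.PN
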