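import Pool.Agent.Lib.MP_bbe012_lc.PM.Dx
import Pool.Agent.Lib.MP_bbe012_lc.Total

/-!
# Almost all supports: definitions

A family of supports is given by a number `n` of variables and finitely many non zero polynomials `g_j(θ, x)`. At a rational point `θ` it stands for
all explicit integrals in `n` variables for which the denominator and all polynomials in the inequalities are constants times products of powers of the `g_j(θ, x)`.
-/

namespace Pool.Agent.Lib.MP_bbe012_lc.PN

open MvPolynomial MeasureTheory Set PP PG PM Filter Topology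

/-- A family of supports: finitely many non zero polynomials in `θ_1, ..., θ_s` and `x_1, ..., x_n`. -/
structure Sup (s : ℕ) where
  n : ℕ
  r : ℕ
  g : Fin r → Pz s n
  g0 : ∀ j, g j ≠ 0

/-- `p` is the constant `c ≠ 0` times the product of the `g_j(θ, x) ^ κ_j`. -/
def IsMon {s : ℕ} (F : Sup s) (θ : Fin s → ℚ) (c : ℚ) (κ : Fin F.r → ℕ) (p : MvPolynomial (Fin F.n) ℚ) : Prop :=
  c ≠ 0 ∧ p = C c * ∏ j, spz (F.g j) θ ^ κ j

/-- `|a| ≤ T ^ A` and `q a` is an integer. -/
def Bdd (A T q : ℕ) (a : ℚ) : Prop := |a| ≤ (T : ℚ) ^ A ∧ ∃ x : ℤ, (q : ℚ) * a = x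

/-- The explicit integral `I` is supported on the hypersurfaces `g_j(θ, x) = 0`: the denominator is a constant `c` times a product of powers of the `g_j(θ, x)` with exponents at most `A`, the
numerator `P` has degree at most `A`, the coefficients of `P / c` are in `(1 / q) ℤ` and at most `T ^ A` in absolute value, and the
polynomials in the inequalities are constants times products of powers of the `g_j(θ, x)`. -/
def ItemN {s : ℕ} (F : Sup s) (A T q : ℕ) (θ : Fin s → ℚ) (I : IntCode) : Prop :=
  I.1 = F.n ∧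
    (∃ c κ, IsMon F θ c κ (pcPoly F.n I.2.1.2) ∧ (∀ j, κ j ≤ A) ∧ ∀ u, Bdd A T q (coeff u (pcPoly F.n I.2.1.1) / c)) ∧
    (∀ t ∈ I.2.2, ∃ c κ, IsMon F θ c κ (pcPoly F.n t.2)) ∧ (pcPoly F.n I.2.1.1).totalDegree ≤ A

/-- The input `x = (G, [X_1, ..., X_m])` is a polynomial expression in periods: `m ≤ T ^ A`, the polynomial `G` in `m` variables has degree at most `A` and coefficients in `(1 / q) ℤ` of absolute value at
most `T ^ A`, and the two integrals of each `X_i` converge absolutely and are as in `ItemN` for one of the families, for a common `q ≤ T ^ A`. -/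
def InN {s μ : ℕ} (F : Fin μ → Sup s) (A T : ℕ) (θ : Fin s → ℚ) (x : PCode × List PeriodCode) : Prop :=
  (∀ X ∈ x.2, PeriodAdmissible X) ∧ x.2.length ≤ T ^ A ∧ (pcPoly x.2.length x.1).totalDegree ≤ A ∧
    ∃ q : ℕ, 1 ≤ q ∧ q ≤ T ^ A ∧ (∀ u, Bdd A T q (coeff u (pcPoly x.2.length x.1))) ∧
      ∀ X ∈ x.2, (∃ k, ItemN (F k) A T q θ X.1) ∧ ∃ k, ItemN (F k) A T q θ X.2

end Pool.Agent.Lib.MP_bbe012_lc.PN
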