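import Pool.Agent.Lib.MP_bbe012_lc.PN.FzA
import Pool.Agent.Lib.MP_bbe012_lc.PN.FzB
import Pool.Agent.Lib.MP_bbe012_lc.PN.CVal
import Pool.Agent.Lib.MP_bbe012_lc.PN.CRep
import Pool.Agent.Lib.MP_bbe012_lc.PN.GI
import Pool.Agent.Lib.MP_bbe012_lc.PN.PB
import Pool.Agent.Lib.MP_bbe012_lc.PN.Nv
import Pool.Agent.Lib.MP_bbe012_lc.PN.Fb
import Pool.Agent.Lib.MP_bbe012_lc.PM.Cc
import Pool.Agent.Lib.MP_bbe012_lc.PM.Dens
import Pool.Agent.Lib.MP_bbe012_lc.PG.DHt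

/-!
# Almost all supports: assembly
-/

namespace Pool.Agent.Lib.MP_bbe012_lc.PN

open MvPolynomial MeasureTheory Set PP PG PM Filter Topology

private theorem fz_fin {s : ℕ} (T : ℕ) : {θ : Fin s → ℚ | ∀ i, HLE T (θ i)}.Finite :=
  Set.Finite.pi' (t := fun _ : Fin s => {a : ℚ | HLE T a}) fun _ => finite_HLE T

/-- The density of the exceptional parameters is zero, case of at least one parameter. -/
private theorem fz_pos {s : ℕ} (hs : 0 < s) {ι : Type} [Fintype ι] {z : MvPolynomial (Fin s) ℚ} (hz : z ≠ 0)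
    {e : ι → Fin s → ℚ} (hE : ∀ θ : Fin s → ℝ, aeval θ z ≠ 0 → ∃ i, θ ∈ Om z (e i))
    {δ : ι → MvPolynomial (Fin s) ℚ} (hδ : ∀ i, δ i ≠ 0) {r : ι → ℕ} {V' : (i : ι) → Fin (r i) → (Fin s → ℝ) → ℝ}
    (A₃ : ι → ℕ) (han : ∀ i j, AnalyticOnNhd ℝ (V' i j) (Om z (e i)))
    (hI : ∀ i, ∀ P : Fin (r i) → MvPolynomial (Fin s) ℚ,
      (∀ θ ∈ Om z (e i), ∑ j, aeval θ (P j) * V' i j θ = 0) → ∀ j, P j = 0)
    (B : ℕ → Set (Fin s → ℚ))
    (hB : ∀ T, 2 ≤ T → ∀ θ ∈ B T, (∀ i, HLE T (θ i)) ∧ ∀ i, cst θ ∈ Om z (e i) → eval θ (δ i) ≠ 0 →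
      ∃ cc : Fin (r i) → ℤ, cc ≠ 0 ∧ (∀ j, |cc j| ≤ (T : ℤ) ^ A₃ i) ∧ ∑ j, (cc j : ℝ) * V' i j (cst θ) = 0) :
    Tendsto (fun T : ℕ => ((B T).ncard : ℝ) / ({θ : Fin s → ℚ | ∀ i, HLE T (θ i)}.ncard : ℝ)) atTop (𝓝 0) := by
  classical
  obtain ⟨c, T₁, hc, hmany⟩ := many_pts (s := s) (S := Set.univ) (by simp)
  have hz' : z * ∏ i, δ i ≠ 0 := mul_ne_zero hz (Finset.prod_ne_zero_iff.2 fun i _ => hδ i)
  rw [Metric.tendsto_atTop]
  intro ε hε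
  obtain ⟨S, hSc, hSz, T₀, hT₀⟩ := dens hs hz' (half_pos hε)
  have hSz1 : ∀ θ ∈ S, aeval θ z ≠ 0 := by
    intro θ hθ h
    apply hSz θ hθ
    rw [map_mul, h, zero_mul]
  have hSz2 : ∀ θ ∈ S, ∀ i, aeval θ (δ i) ≠ 0 := by
    intro θ hθ i h
    apply hSz θ hθ
    rw [map_mul, map_prod, Finset.prod_eq_zero (Finset.mem_univ i) h, mul_zero]
  have hfew := fun i => few_rel hs hSc hSz1 (han i) (hI i) (A₃ i)
  choose C η hC hη hbd using hfew
  have hlim : Tendsto (fun T : ℕ => ∑ i, C i / c * (T : ℝ) ^ (-η i)) atTop (𝓝 0) := by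
    have h0 : (0 : ℝ) = ∑ i : ι, C i / c * 0 := by simp
    rw [h0]
    apply tendsto_finsetSum
    intro i _
    exact ((tendsto_rpow_neg_atTop (hη i)).comp tendsto_natCast_atTop_atTop).const_mul _
  obtain ⟨T₂, hT₂⟩ := (Metric.tendsto_atTop.1 hlim) (ε / 2) (half_pos hε)
  refine ⟨max (max T₀ T₁) (max T₂ 2), fun T hT => ?_⟩
  have h0 : T₀ ≤ T := le_trans (le_trans (le_max_left _ _) (le_max_left _ _)) hT
  have h1 : T₁ ≤ T := le_trans (le_trans (le_max_right _ _) (le_max_left _ _)) hT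
  have h2 : T₂ ≤ T := le_trans (le_trans (le_max_left _ _) (le_max_right _ _)) hT
  have h3 : 2 ≤ T := le_trans (le_trans (le_max_right _ _) (le_max_right _ _)) hT
  have hTpos : (0 : ℝ) < T := by
    have : 0 < T := by omega
    exact_mod_cast this
  set N : ℝ := ({θ : Fin s → ℚ | ∀ i, HLE T (θ i)}.ncard : ℝ) with hN
  have hN1 : c * (T : ℝ) ^ (2 * (s : ℝ)) ≤ N := by
    have h := hmany T h1
    have hset : {θ : Fin s → ℚ | (∀ i, HLE T (θ i)) ∧ (fun i => (θ i : ℝ)) ∈ (Set.univ : Set (Fin s → ℝ))} =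
        {θ : Fin s → ℚ | ∀ i, HLE T (θ i)} := by
      ext θ
      simp
    rw [hset] at h
    exact h
  have hpow : (0 : ℝ) < (T : ℝ) ^ (2 * (s : ℝ)) := Real.rpow_pos_of_pos hTpos _
  have hN0 : 0 < N := lt_of_lt_of_le (mul_pos hc hpow) hN1
  have hcount : ((B T).ncard : ℝ) ≤ ε / 2 * N + ∑ i, C i * (T : ℝ) ^ (2 * (s : ℝ) - η i) := by
    set U₁ : Set (Fin s → ℚ) := {θ | (∀ i, HLE T (θ i)) ∧ cst θ ∉ S} with hU₁
    set U₂ : ι → Set (Fin s → ℚ) := fun i => {θ | (∀ i, HLE T (θ i)) ∧ cst θ ∈ S ∩ Om z (e i) ∧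
        ∃ cc : Fin (r i) → ℤ, cc ≠ 0 ∧ (∀ j, |cc j| ≤ (T : ℤ) ^ A₃ i) ∧ ∑ j, (cc j : ℝ) * V' i j (cst θ) = 0}
      with hU₂
    have hsub : B T ⊆ U₁ ∪ ⋃ i, U₂ i := by
      intro θ hθ
      obtain ⟨hH, hR⟩ := hB T h3 θ hθ
      by_cases hθS : cst θ ∈ S
      · right
        obtain ⟨i, hi⟩ := hE (cst θ) (hSz1 _ hθS)
        have hd : eval θ (δ i) ≠ 0 := by
          intro h
          apply hSz2 _ hθS i
          have h' : aeval (cst θ) (δ i) = ((eval θ (δ i) : ℚ) : ℝ) := by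
            have h'' := MvPolynomial.aeval_algebraMap_apply ℝ θ (δ i)
            have h3 : (⇑(algebraMap ℚ ℝ) ∘ θ : Fin s → ℝ) = cst θ := by
              funext j
              rfl
            rw [h3] at h''
            rw [h'']
            simp
          rw [h', h, Rat.cast_zero]
        exact Set.mem_iUnion.2 ⟨i, hH, ⟨hθS, hi⟩, hR i hi hd⟩
      · exact Or.inl ⟨hH, hθS⟩
    have hfin : (U₁ ∪ ⋃ i, U₂ i).Finite := by
      refine (fz_fin (s := s) T).subset ?_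
      rintro θ (h | h)
      · exact h.1
      · obtain ⟨i, hi⟩ := Set.mem_iUnion.1 h
        exact hi.1
    have hc1 : (B T).ncard ≤ U₁.ncard + ∑ i, (U₂ i).ncard := by
      refine (Set.ncard_le_ncard hsub hfin).trans ((Set.ncard_union_le _ _).trans ?_)
      exact Nat.add_le_add_left (Set.ncard_iUnion_le_of_fintype U₂) _
    have hc2 : ((B T).ncard : ℝ) ≤ (U₁.ncard : ℝ) + ∑ i, ((U₂ i).ncard : ℝ) := by exact_mod_cast hc1
    refine hc2.trans (add_le_add (hT₀ T h0) (Finset.sum_le_sum fun i _ => hbd i T (by omega)))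
  have hq : ((B T).ncard : ℝ) / N ≤ ε / 2 + ∑ i, C i / c * (T : ℝ) ^ (-η i) := by
    rw [div_le_iff₀ hN0]
    refine hcount.trans ?_
    rw [add_mul, Finset.sum_mul]
    refine add_le_add le_rfl (Finset.sum_le_sum fun i _ => ?_)
    have hTi : (0 : ℝ) < (T : ℝ) ^ (-η i) := Real.rpow_pos_of_pos hTpos _
    have hsplit : (T : ℝ) ^ (2 * (s : ℝ) - η i) = (T : ℝ) ^ (-η i) * (T : ℝ) ^ (2 * (s : ℝ)) := by
      rw [← Real.rpow_add hTpos]
      ring_nf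
    rw [hsplit]
    calc C i * ((T : ℝ) ^ (-η i) * (T : ℝ) ^ (2 * (s : ℝ)))
        = C i / c * (T : ℝ) ^ (-η i) * (c * (T : ℝ) ^ (2 * (s : ℝ))) := by
          field_simp
      _ ≤ C i / c * (T : ℝ) ^ (-η i) * N :=
          mul_le_mul_of_nonneg_left hN1 (mul_nonneg (div_nonneg (hC i).le hc.le) hTi.le)
  have hsum : ∑ i, C i / c * (T : ℝ) ^ (-η i) < ε / 2 := by
    have h := hT₂ T h2
    rw [Real.dist_eq, sub_zero] at h
    exact lt_of_le_of_lt (le_abs_self _) h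
  rw [Real.dist_eq, sub_zero, abs_of_nonneg (div_nonneg (Nat.cast_nonneg _) hN0.le)]
  linarith

/-- Without parameters there are no exceptional parameters. -/
private theorem fz_zero {ι : Type} {z : MvPolynomial (Fin 0) ℚ} (hz : z ≠ 0)
    {e : ι → Fin 0 → ℚ} (hE : ∀ θ : Fin 0 → ℝ, aeval θ z ≠ 0 → ∃ i, θ ∈ Om z (e i))
    {δ : ι → MvPolynomial (Fin 0) ℚ} (hδ : ∀ i, δ i ≠ 0) {r : ι → ℕ} {V' : (i : ι) → Fin (r i) → (Fin 0 → ℝ) → ℝ}
    (A₃ : ι → ℕ)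
    (hI : ∀ i, ∀ P : Fin (r i) → MvPolynomial (Fin 0) ℚ,
      (∀ θ ∈ Om z (e i), ∑ j, aeval θ (P j) * V' i j θ = 0) → ∀ j, P j = 0)
    (B : ℕ → Set (Fin 0 → ℚ))
    (hB : ∀ T, 2 ≤ T → ∀ θ ∈ B T, (∀ i, HLE T (θ i)) ∧ ∀ i, cst θ ∈ Om z (e i) → eval θ (δ i) ≠ 0 →
      ∃ cc : Fin (r i) → ℤ, cc ≠ 0 ∧ (∀ j, |cc j| ≤ (T : ℤ) ^ A₃ i) ∧ ∑ j, (cc j : ℝ) * V' i j (cst θ) = 0) :
    ∀ T, 2 ≤ T → B T = ∅ := by
  intro T hT
  by_contra hne
  obtain ⟨θ, hθ⟩ := Set.nonempty_iff_ne_empty.2 hne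
  obtain ⟨-, hR⟩ := hB T hT θ hθ
  have hz1 : aeval (cst θ) z ≠ 0 := by
    rw [MvPolynomial.eq_C_of_isEmpty z, MvPolynomial.aeval_C]
    intro h
    apply hz
    rw [MvPolynomial.eq_C_of_isEmpty z]
    have h' : ((coeff 0 z : ℚ) : ℝ) = 0 := h
    rw [Rat.cast_eq_zero.1 h', map_zero]
  obtain ⟨i, hi⟩ := hE (cst θ) hz1
  have hd : eval θ (δ i) ≠ 0 := by
    intro h
    apply hδ i
    rw [MvPolynomial.eq_C_of_isEmpty (δ i), MvPolynomial.eval_C] at h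
    rw [MvPolynomial.eq_C_of_isEmpty (δ i), h, map_zero]
  obtain ⟨cc, hcc, -, hsum⟩ := hR i hi hd
  apply hcc
  funext j
  have h := hI i (fun j => C (cc j : ℚ)) (by
    intro θ' _
    rw [Subsingleton.elim θ' (cst θ)]
    rw [← hsum]
    apply Finset.sum_congr rfl
    intro j _
    rw [MvPolynomial.aeval_C]
    simp) j
  have h' : (cc j : ℚ) = 0 := by
    have h'' := congrArg (coeff 0) h
    rwa [coeff_zero_C, coeff_zero] at h''
  exact_mod_cast h'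

/-- Few exceptional parameters in a compact set which avoids `z = 0`. -/
private theorem fz_rate {s : ℕ} {ι : Type} [Fintype ι] {z : MvPolynomial (Fin s) ℚ} (hz : z ≠ 0)
    {e : ι → Fin s → ℚ} (hE : ∀ θ : Fin s → ℝ, aeval θ z ≠ 0 → ∃ i, θ ∈ Om z (e i))
    {δ : ι → MvPolynomial (Fin s) ℚ} (hδ : ∀ i, δ i ≠ 0) {r : ι → ℕ} {V' : (i : ι) → Fin (r i) → (Fin s → ℝ) → ℝ}
    (A₃ : ι → ℕ) (han : ∀ i j, AnalyticOnNhd ℝ (V' i j) (Om z (e i)))
    (hI : ∀ i, ∀ P : Fin (r i) → MvPolynomial (Fin s) ℚ,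
      (∀ θ ∈ Om z (e i), ∑ j, aeval θ (P j) * V' i j θ = 0) → ∀ j, P j = 0)
    (B : ℕ → Set (Fin s → ℚ))
    (hB : ∀ T, 2 ≤ T → ∀ θ ∈ B T, (∀ i, HLE T (θ i)) ∧ ∀ i, cst θ ∈ Om z (e i) → eval θ (δ i) ≠ 0 →
      ∃ cc : Fin (r i) → ℤ, cc ≠ 0 ∧ (∀ j, |cc j| ≤ (T : ℤ) ^ A₃ i) ∧ ∑ j, (cc j : ℝ) * V' i j (cst θ) = 0)
    {S : Set (Fin s → ℝ)} (hSc : IsCompact S) (hSz : ∀ θ ∈ S, aeval θ z ≠ 0) :
    ∃ C η : ℝ, 0 < C ∧ 0 < η ∧ ∀ T : ℕ, 1 ≤ T →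
      ({θ ∈ B T | cst θ ∈ S}.ncard : ℝ) ≤ C * (T : ℝ) ^ (2 * (s : ℝ) - η) := by
  classical
  rcases Nat.eq_zero_or_pos s with hs | hs
  · subst hs
    have h0 := fz_zero hz hE hδ A₃ hI _ hB
    refine ⟨({θ ∈ B 1 | cst θ ∈ S}.ncard : ℝ) + 1, 1, by positivity, one_pos, fun T hT => ?_⟩
    rcases Nat.lt_or_ge T 2 with h2 | h2
    · obtain rfl : T = 1 := by omega
      rw [Nat.cast_one, Real.one_rpow, mul_one]
      linarith
    · have h3 : {θ ∈ B T | cst θ ∈ S} = (∅ : Set (Fin 0 → ℚ)) := by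
        rw [h0 T h2]
        ext θ
        simp
      rw [h3, Set.ncard_empty, Nat.cast_zero]
      positivity
  · have hfew := fun i => few_rel hs hSc hSz (han i) (hI i) (A₃ i)
    choose C η hC hη hbd using hfew
    have hzer := fun i => few_zeros hs (hδ i)
    choose C' hC' hbd' using hzer
    obtain ⟨η₀, hη₀def⟩ : ∃ η₀ : ℝ, η₀ = ∏ i, min (η i) 1 := ⟨_, rfl⟩
    have hη₀ : 0 < η₀ := by
      rw [hη₀def]
      exact Finset.prod_pos fun i _ => lt_min (hη i) one_pos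
    have hη₁ : η₀ ≤ 1 := by
      rw [hη₀def]
      exact Finset.prod_le_one (fun i _ => (lt_min (hη i) one_pos).le) fun i _ => min_le_right _ _
    have hη₂ : ∀ i, η₀ ≤ η i := by
      intro i
      rw [hη₀def, ← Finset.mul_prod_erase Finset.univ _ (Finset.mem_univ i)]
      calc min (η i) 1 * ∏ j ∈ Finset.univ.erase i, min (η j) 1 ≤ min (η i) 1 * 1 := by
            refine mul_le_mul_of_nonneg_left ?_ (lt_min (hη i) one_pos).le
            exact Finset.prod_le_one (fun i _ => (lt_min (hη i) one_pos).le) fun i _ => min_le_right _ _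
        _ ≤ η i := by
            rw [mul_one]
            exact min_le_left _ _
    refine ⟨∑ i, C' i + ∑ i, C i + (({θ ∈ B 1 | cst θ ∈ S}.ncard : ℝ) + 1), η₀, ?_, hη₀, fun T hT => ?_⟩
    · have h1 : 0 ≤ ∑ i, C' i := Finset.sum_nonneg fun i _ => (hC' i).le
      have h2 : 0 ≤ ∑ i, C i := Finset.sum_nonneg fun i _ => (hC i).le
      positivity
    have h1 : 0 ≤ ∑ i, C' i := Finset.sum_nonneg fun i _ => (hC' i).le
    have h2 : 0 ≤ ∑ i, C i := Finset.sum_nonneg fun i _ => (hC i).le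
    rcases Nat.lt_or_ge T 2 with h3 | h3
    · obtain rfl : T = 1 := by omega
      rw [Nat.cast_one, Real.one_rpow, mul_one]
      linarith
    have hT1 : (1 : ℝ) ≤ T := by exact_mod_cast hT
    have hTpos : (0 : ℝ) < T := lt_of_lt_of_le one_pos hT1
    set U₁ : ι → Set (Fin s → ℚ) := fun i => {θ | (∀ i, HLE T (θ i)) ∧ aeval θ (δ i) = 0} with hU₁
    set U₂ : ι → Set (Fin s → ℚ) := fun i => {θ | (∀ i, HLE T (θ i)) ∧ cst θ ∈ S ∩ Om z (e i) ∧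
        ∃ cc : Fin (r i) → ℤ, cc ≠ 0 ∧ (∀ j, |cc j| ≤ (T : ℤ) ^ A₃ i) ∧ ∑ j, (cc j : ℝ) * V' i j (cst θ) = 0}
      with hU₂
    have hsub : {θ ∈ B T | cst θ ∈ S} ⊆ (⋃ i, U₁ i) ∪ ⋃ i, U₂ i := by
      rintro θ ⟨hθ, hθS⟩
      obtain ⟨hH, hR⟩ := hB T h3 θ hθ
      obtain ⟨i, hi⟩ := hE (cst θ) (hSz _ hθS)
      by_cases hd : eval θ (δ i) = 0
      · left
        refine Set.mem_iUnion.2 ⟨i, hH, ?_⟩
        rw [MvPolynomial.aeval_eq_eval]
        exact hd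
      · exact Or.inr (Set.mem_iUnion.2 ⟨i, hH, ⟨hθS, hi⟩, hR i hi hd⟩)
    have hfin : ((⋃ i, U₁ i) ∪ ⋃ i, U₂ i).Finite := by
      refine (fz_fin (s := s) T).subset ?_
      rintro θ (h | h)
      · obtain ⟨i, hi⟩ := Set.mem_iUnion.1 h
        exact hi.1
      · obtain ⟨i, hi⟩ := Set.mem_iUnion.1 h
        exact hi.1
    have hc1 : {θ ∈ B T | cst θ ∈ S}.ncard ≤ ∑ i, (U₁ i).ncard + ∑ i, (U₂ i).ncard := by
      refine (Set.ncard_le_ncard hsub hfin).trans ((Set.ncard_union_le _ _).trans ?_)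
      exact Nat.add_le_add (Set.ncard_iUnion_le_of_fintype U₁) (Set.ncard_iUnion_le_of_fintype U₂)
    have hc2 : ({θ ∈ B T | cst θ ∈ S}.ncard : ℝ) ≤ ∑ i, ((U₁ i).ncard : ℝ) + ∑ i, ((U₂ i).ncard : ℝ) := by
      exact_mod_cast hc1
    have hP : (0 : ℝ) < (T : ℝ) ^ (2 * (s : ℝ) - η₀) := Real.rpow_pos_of_pos hTpos _
    have hk1 : ∑ i, ((U₁ i).ncard : ℝ) ≤ (∑ i, C' i) * (T : ℝ) ^ (2 * (s : ℝ) - η₀) := by
      rw [Finset.sum_mul]
      refine Finset.sum_le_sum fun i _ => (hbd' i T hT).trans ?_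
      refine mul_le_mul_of_nonneg_left ?_ (hC' i).le
      exact Real.rpow_le_rpow_of_exponent_le hT1 (by linarith)
    have hk2 : ∑ i, ((U₂ i).ncard : ℝ) ≤ (∑ i, C i) * (T : ℝ) ^ (2 * (s : ℝ) - η₀) := by
      rw [Finset.sum_mul]
      refine Finset.sum_le_sum fun i _ => (hbd i T hT).trans ?_
      refine mul_le_mul_of_nonneg_left ?_ (hC i).le
      exact Real.rpow_le_rpow_of_exponent_le hT1 (by linarith [hη₂ i])
    have hk3 : 0 ≤ (({θ ∈ B 1 | cst θ ∈ S}.ncard : ℝ) + 1) * (T : ℝ) ^ (2 * (s : ℝ) - η₀) := by positivity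
    calc ({θ ∈ B T | cst θ ∈ S}.ncard : ℝ) ≤ ∑ i, ((U₁ i).ncard : ℝ) + ∑ i, ((U₂ i).ncard : ℝ) := hc2
      _ ≤ (∑ i, C' i) * (T : ℝ) ^ (2 * (s : ℝ) - η₀) + (∑ i, C i) * (T : ℝ) ^ (2 * (s : ℝ) - η₀) +
          (({θ ∈ B 1 | cst θ ∈ S}.ncard : ℝ) + 1) * (T : ℝ) ^ (2 * (s : ℝ) - η₀) := by linarith
      _ = _ := by ring

/-- Vanishing of polynomial expressions in periods is decidable by one algorithm for 100 percent of the supports in any family.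

Proof. `D, z, V` from `exists_all`; `E` from `finite_components z` (PM/Cc.lean); for `e ∈ E` `m_e, R_e` from `exists_gens (Om z e) _`. `g₁` semidecides `∃ e ∈ E, GoodX D z e R_e x` (`good_ceX`, `CE.fin_ex`, `CE.partrec`), `g₂` from `exists_nv`, `f` from `merge_bool` (PM/Se.lean). Never wrong: `good_soundX`.
The limit for `A`: `complete_one` for every `e` gives `δ_e, V'_e, A₃_e`.
Case `0 < s`: let `ε > 0`, `S` from `dens hs` for `z * ∏ e, δ_e` and `ε / 2`; `few_rel` for every `e`. If `f` does not halt on some `x` in the class at `θ`, then `Vanishes x` and no `GoodX`; if `cst θ ∈ S`, then `cst θ ∈ Om z e` for some `e`, `δ_e(θ) ≠ 0`, and `complete_one` puts `θ` into the set of `few_rel` for `e`. So the number of these `θ` is at most `ε / 2 * N(T) + C T ^ (2 s - η)`, and `N(T) ≥ c T ^ (2 s)` (`many_pts`, PG/DHt.lean, `S = univ`).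
Case `s = 0`: for `T ≥ 2` there is no such `θ`: non zero polynomials in `0` variables have non zero values, there is only one `θ`, and an exceptional relation `∑ cc_i V'_i(θ) = 0` contradicts the independence (`P i = C (cc i)`). So the quotient is `0` for `T ≥ 2`. -/
theorem targetX {s μ : ℕ} (F : Fin μ → Sup s) :
    ∃ (f : PCode × List PeriodCode →. Bool) (z : MvPolynomial (Fin s) ℚ), Partrec f ∧ z ≠ 0 ∧
      (∀ x, (∀ X ∈ x.2, PeriodAdmissible X) → ∀ b ∈ f x, (b = true ↔ Vanishes x)) ∧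
      (∀ x, (∀ X ∈ x.2, PeriodAdmissible X) → ¬ Vanishes x → (f x).Dom) ∧
      ∀ A : ℕ,
        Tendsto (fun T : ℕ =>
          ({θ : Fin s → ℚ | (∀ i, HLE T (θ i)) ∧ ∃ x, InN F A T θ x ∧ ¬ (f x).Dom}.ncard : ℝ) /
            ({θ : Fin s → ℚ | ∀ i, HLE T (θ i)}.ncard : ℝ)) atTop (𝓝 0) ∧
        ∀ S : Set (Fin s → ℝ), IsCompact S → (∀ θ ∈ S, aeval θ z ≠ 0) → ∃ C η : ℝ, 0 < C ∧ 0 < η ∧
          ∀ T : ℕ, 1 ≤ T →
            ({θ ∈ {θ : Fin s → ℚ | (∀ i, HLE T (θ i)) ∧ ∃ x, InN F A T θ x ∧ ¬ (f x).Dom} | cst θ ∈ S}.ncard : ℝ) ≤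
              C * (T : ℝ) ^ (2 * (s : ℝ) - η) := by
  classical
  obtain ⟨D, z, V, hz, hD, hS⟩ := exists_all F
  obtain ⟨E, hE0, hE⟩ := finite_components z hz
  have hG : ∀ e : {e // e ∈ E}, ∃ (m : ℕ) (R : Fin m → Pz s (Fintype.card (Ix D) + 1)),
      GensOK (Om z e.1) (fun y => V ((Fintype.equivFin (Ix D)).symm y)) R := fun e => exists_gens _ _
  choose m R hR using hG
  have hE' : ∀ θ : Fin s → ℝ, aeval θ z ≠ 0 → ∃ i : {e // e ∈ E}, θ ∈ Om z i.1 := by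
    intro θ hθ
    obtain ⟨e, he, h⟩ := hE θ hθ
    exact ⟨⟨e, he⟩, h⟩
  have hCE : CE fun x : PCode × List PeriodCode => ∃ e : {e // e ∈ E}, GoodX D z e.1 (R e) x :=
    CE.fin_ex fun e => good_ceX D z e.1 (hE0 e.1 e.2) (R e)
  obtain ⟨g₁, hg₁, hd₁⟩ := CE.partrec hCE
  obtain ⟨g₂, hg₂, hd₂⟩ := exists_nv
  obtain ⟨f, hf, hfs, hfd⟩ := merge_bool hg₁ hg₂ hd₁ (fun a => Iff.rfl)
  refine ⟨f, z, hf, hz, ?_, ?_, ?_⟩
  · intro x hx b hb
    rcases hfs x b hb with ⟨h1, ⟨e, he⟩⟩ | ⟨h1, h2⟩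
    · exact ⟨fun _ => good_soundX hD (hR e) hx he, fun _ => h1⟩
    · have h3 := (hd₂ x hx).1 h2
      constructor
      · intro h
        rw [h1] at h
        exact absurd h (by decide)
      · intro h
        exact absurd h h3
  · intro x hx hv
    exact (hfd x).2 (Or.inr ((hd₂ x hx).2 hv))
  · intro A
    have hcomp := fun e : {e // e ∈ E} => complete_one hD hS (hR e) A
    choose δ r V' A₃ hδ han hI hrel using hcomp
    have hB : ∀ T, 2 ≤ T → ∀ θ ∈ {θ : Fin s → ℚ | (∀ i, HLE T (θ i)) ∧ ∃ x, InN F A T θ x ∧ ¬ (f x).Dom},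
        (∀ i, HLE T (θ i)) ∧ ∀ i : {e // e ∈ E}, cst θ ∈ Om z i.1 → eval θ (δ i) ≠ 0 →
          ∃ cc : Fin (r i) → ℤ, cc ≠ 0 ∧ (∀ j, |cc j| ≤ (T : ℤ) ^ A₃ i) ∧
            ∑ j, (cc j : ℝ) * V' i j (cst θ) = 0 := by
      rintro T hT θ ⟨hH, x, hx, hfx⟩
      refine ⟨hH, fun i hi hd => ?_⟩
      have hng : ¬ (g₂ x).Dom := fun h => hfx ((hfd x).2 (Or.inr h))
      have hv : Vanishes x := by
        by_contra hv
        exact hng ((hd₂ x hx.1).2 hv)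
      rcases hrel i T hT θ hH hi hd x hx hv with h | h
      · exact absurd ((hfd x).2 (Or.inl ⟨i, h⟩)) hfx
      · exact h
    refine ⟨?_, fun S hSc hSz => fz_rate hz hE' hδ A₃ han hI _ hB hSc hSz⟩
    rcases Nat.eq_zero_or_pos s with hs | hs
    · subst hs
      have h := fz_zero hz hE' hδ A₃ hI _ hB
      refine tendsto_const_nhds.congr' ?_
      filter_upwards [Filter.eventually_ge_atTop 2] with T hT
      rw [h T hT]
      simp
    · exact fz_pos hs hz hE' hδ A₃ han hI _ hB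

end Pool.Agent.Lib.MP_bbe012_lc.PN
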