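import Pool.Agent.Lib.MP_bbe012_lc.PN.Dy
import Pool.Agent.Lib.MP_bbe012_lc.PN.Ce
import Pool.Agent.Lib.MP_bbe012_lc.PM.Pr1
import Pool.Agent.Lib.MP_bbe012_lc.PM.Pr2

/-!
# Representations of integrals are semidecidable
-/

namespace Pool.Agent.Lib.MP_bbe012_lc.PN

open MvPolynomial MeasureTheory Set PP PG PM

private theorem pa_zero {n : ℕ} (a b : PCode) :
    pcIsZero n (a ++ pcNeg b) ↔ pcPoly n a = pcPoly n b := by
  rw [pcIsZero_iff, pcPoly_append, pcPoly_neg, ← sub_eq_add_neg, sub_eq_zero]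

private theorem pa_spc {α : Type} [Primcodable α] (s n : ℕ) {x : α → List QCode} {p : α → PCode}
    (hx : Primrec x) (hp : Primrec p) : Primrec fun a => spc s n (x a) (p a) := by
  have h1 : Primrec fun q : α × ℕ => ([((x q.1).getD q.2 (qnat 0), [])] : PCode) :=
    pr_const1 ((Primrec.list_getD (qnat 0)).comp (hx.comp Primrec.fst) Primrec.snd)
  have h2 : Primrec fun q : α × ℕ => pcVar (q.2 - s) :=
    pr_var (Primrec.nat_sub.comp Primrec.snd (Primrec.const s))
  have h3 : Primrec fun q : α × ℕ => if q.2 < s then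
      ([((x q.1).getD q.2 (qnat 0), [])] : PCode) else pcVar (q.2 - s) :=
    Primrec.ite (Primrec.nat_lt.comp Primrec.snd (Primrec.const s)) h1 h2
  exact pr_subst (L := fun a i => if i < s then ([((x a).getD i (qnat 0), [])] : PCode)
    else pcVar (i - s)) (Primrec.const (s + n)) h3.to₂ hp

/-- the code of the sign -/
private def sgq (b : Bool) : QCode := if b = true then qnat 1 else qneg (qnat 1)

private theorem qval_sgq (b : Bool) : qval (sgq b) = sg b := by
  unfold sgq sg
  cases b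
  · simp [qval_qneg]
  · simp

private theorem qval_pos_iff (c : QCode) : 0 < qval c ↔ c.1.2 < c.1.1 := by
  have h : (0 : ℚ) < (c.2 : ℚ) + 1 := by positivity
  rw [qval, div_pos_iff_of_pos_right h, sub_pos, Nat.cast_lt]

/-- the code of the number `sg b * c * ∏ sg (σ j) ^ κ j` -/
private def sgnC (r : ℕ) (b : Bool) (S : List QCode) (c : QCode) (κ : List ℕ) : QCode :=
  sumCoef 0 [] (pcMul [(qmul (sgq b) c, [])]
    (pcProdRange r fun j => pcPow [(S.getD j (qnat 0), [])] (κ.getD j 0)))

private theorem qval_sgnC {r : ℕ} (b : Bool) (σ : Fin r → Bool) (c : QCode) (κ : List ℕ) :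
    qval (sgnC r b (List.ofFn fun j => sgq (σ j)) c κ) =
      sg b * qval c * ∏ j : Fin r, sg (σ j) ^ (κ.getD j 0) := by
  rw [sgnC, ← coeff_pcPoly, pcPoly_mul, pcPoly_prodRange, pcPoly_const, qval_qmul, qval_sgq]
  have h1 : expVec 0 [] = 0 := by ext i; exact i.elim0
  have h2 : ∀ j : Fin r, pcPoly 0 (pcPow [((List.ofFn fun j => sgq (σ j)).getD (j : ℕ) (qnat 0), [])]
      (κ.getD j 0)) = C (sg (σ j) ^ (κ.getD j 0)) := by
    intro j
    rw [pcPoly_pow, getD_ofFn, pcPoly_const, qval_sgq, map_pow]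
  rw [h1, Finset.prod_congr rfl fun j _ => h2 j, ← map_prod, ← map_mul, coeff_C, if_pos rfl]

private theorem pr_sgnC {α : Type} [Primcodable α] (r : ℕ) (b : Bool) (S : List QCode)
    {c : α → QCode} {κ : α → List ℕ} (hc : Primrec c) (hκ : Primrec κ) :
    Primrec fun a => sgnC r b S (c a) (κ a) := by
  have h1 : Primrec fun q : α × ℕ => ([(S.getD q.2 (qnat 0), [])] : PCode) :=
    pr_const1 ((Primrec.list_getD (qnat 0)).comp (Primrec.const S) Primrec.snd)
  have h2 : Primrec fun q : α × ℕ => (κ q.1).getD q.2 0 :=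
    (Primrec.list_getD 0).comp (hκ.comp Primrec.fst) Primrec.snd
  have h3 : Primrec fun a => ([(qmul (sgq b) (c a), [])] : PCode) :=
    pr_const1 (primrec_qmul.comp (Primrec.const (sgq b)) hc)
  exact primrec_sumCoef.comp (Primrec.pair (Primrec.const (0, [])) (pr_mul h3
    (pr_prodRange (g := fun a j => pcPow [(S.getD j (qnat 0), [])] ((κ a).getD j 0))
      (Primrec.const r) (pr_pow h1 h2).to₂)))

/-- codes of a finite family of polynomials -/
private theorem exists_list {s n N : ℕ} (W : Fin N → Pz s n) : ∃ L : List PCode, L.length = N ∧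
    ∀ (x : List QCode) (i : Fin N), pcPoly n (spc s n x (L.getD i [])) = spz (W i) (ptq s x) := by
  choose c hc using fun i => exists_pcPoly (rename finSumFinEquiv (W i))
  refine ⟨List.ofFn c, List.length_ofFn, fun x i => ?_⟩
  rw [getD_ofFn]
  exact pcPoly_spc x (hc i)

/-- The sign of a polynomial on a cell.

Proof. `SgnT F σ θ b p` holds iff there are `c : QCode` and `κ : List ℕ` with `qval c ≠ 0`, `pcPoly F.n p = C (qval c) * ∏ j, spz (F.g j) θ ^ (κ.getD j 0)` and `0 < sg b * qval c * ∏ j, sg (σ j) ^ (κ.getD j 0)`. For a list `G` of codes of `rename finSumFinEquiv (F.g j)` the second condition is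
`pcIsZero F.n (p ++ pcNeg (pcMul [(c, [])] (pcProdRange F.r fun j => pcPow (spc s F.n x (G.getD j [])) (κ.getD j 0))))` (`pcPoly_spc`, PM/Pr2.lean; `pcPoly_prodRange`), primitive recursive in `(x, p, c, κ)`; the third one: the product of the signs is a product of a constant list of codes of `1`, `-1` (`qmul`, a fold, or `qval` of `evalCode`: take the same expression in `0` variables), `qltP`
(PP/CodeA, PP/CodePrim). Then `CE.of_primrec`, `CE.ex` twice. -/
theorem sgn_ce {s : ℕ} (F : Sup s) (σ : Fin F.r → Bool) (b : Bool) :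
    CE fun p : List QCode × PCode => SgnT F σ (ptq s p.1) b (pcPoly F.n p.2) := by
  obtain ⟨G, -, hG⟩ := exists_list F.g
  have hx : Primrec fun y : (List QCode × PCode) × (QCode × List ℕ) => y.1.1 :=
    Primrec.fst.comp Primrec.fst
  have hp : Primrec fun y : (List QCode × PCode) × (QCode × List ℕ) => y.1.2 :=
    Primrec.snd.comp Primrec.fst
  have hc : Primrec fun y : (List QCode × PCode) × (QCode × List ℕ) => y.2.1 :=
    Primrec.fst.comp Primrec.snd
  have hκ : Primrec fun y : (List QCode × PCode) × (QCode × List ℕ) => y.2.2 :=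
    Primrec.snd.comp Primrec.snd
  have g1 : Primrec fun q : ((List QCode × PCode) × (QCode × List ℕ)) × ℕ =>
      spc s F.n q.1.1.1 (G.getD q.2 []) :=
    pa_spc s F.n (hx.comp Primrec.fst)
      ((Primrec.list_getD []).comp (Primrec.const G) Primrec.snd)
  have g2 : Primrec fun q : ((List QCode × PCode) × (QCode × List ℕ)) × ℕ =>
      q.1.2.2.getD q.2 0 :=
    (Primrec.list_getD 0).comp (hκ.comp Primrec.fst) Primrec.snd
  have h1 : PrimrecPred fun y : (List QCode × PCode) × (QCode × List ℕ) =>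
      pcIsZero F.n (y.1.2 ++ pcNeg (pcMul [(y.2.1, [])]
        (pcProdRange F.r fun j => pcPow (spc s F.n y.1.1 (G.getD j [])) (y.2.2.getD j 0)))) :=
    pr_isZero (Primrec.const F.n) (pr_append hp (pr_neg (pr_mul (pr_const1 hc)
      (pr_prodRange (g := fun (y : (List QCode × PCode) × (QCode × List ℕ)) j =>
        pcPow (spc s F.n y.1.1 (G.getD j [])) (y.2.2.getD j 0)) (Primrec.const F.r)
        (pr_pow g1 g2).to₂))))
  have hs := pr_sgnC F.r b (List.ofFn fun j => sgq (σ j)) hc hκ
  have h2 : PrimrecPred fun y : (List QCode × PCode) × (QCode × List ℕ) =>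
      (sgnC F.r b (List.ofFn fun j => sgq (σ j)) y.2.1 y.2.2).1.2 <
        (sgnC F.r b (List.ofFn fun j => sgq (σ j)) y.2.1 y.2.2).1.1 :=
    Primrec.nat_lt.comp (Primrec.snd.comp (Primrec.fst.comp hs))
      (Primrec.fst.comp (Primrec.fst.comp hs))
  refine (CE.of_primrec (h1.and h2)).ex.congr fun p => ?_
  obtain ⟨x, p⟩ := p
  have key : ∀ (c : QCode) (κ : List ℕ),
      (pcIsZero F.n (p ++ pcNeg (pcMul [(c, [])] (pcProdRange F.r fun j =>
        pcPow (spc s F.n x (G.getD j [])) (κ.getD j 0)))) ∧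
        (sgnC F.r b (List.ofFn fun j => sgq (σ j)) c κ).1.2 <
          (sgnC F.r b (List.ofFn fun j => sgq (σ j)) c κ).1.1) ↔
      (pcPoly F.n p = C (qval c) * ∏ j, spz (F.g j) (ptq s x) ^ (κ.getD j 0) ∧
        0 < sg b * qval c * ∏ j, sg (σ j) ^ (κ.getD j 0)) := by
    intro c κ
    have e1 : ∀ j : Fin F.r, pcPoly F.n (pcPow (spc s F.n x (G.getD j [])) (κ.getD j 0)) =
        spz (F.g j) (ptq s x) ^ (κ.getD j 0) := fun j => by rw [pcPoly_pow, hG]
    rw [pa_zero, pcPoly_mul, pcPoly_const, pcPoly_prodRange,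
      Finset.prod_congr rfl fun j _ => e1 j, ← qval_pos_iff, qval_sgnC]
  constructor
  · rintro ⟨⟨c, κ⟩, h⟩
    obtain ⟨h3, h4⟩ := (key c κ).1 h
    refine ⟨qval c, fun j => κ.getD j 0, ⟨?_, h3⟩, h4⟩
    intro h0
    rw [h0, mul_zero, zero_mul] at h4
    exact lt_irrefl _ h4
  · rintro ⟨c, κ, ⟨-, h3⟩, h4⟩
    obtain ⟨c', rfl⟩ := exists_qval c
    refine ⟨(c', List.ofFn κ), (key c' (List.ofFn κ)).2 ?_⟩
    have e1 : ∀ j : Fin F.r, (List.ofFn κ).getD (j : ℕ) 0 = κ j := fun j => getD_ofFn κ j 0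
    simp only [e1]
    exact ⟨h3, h4⟩

/-- the code of the difference of both sides of the identity in `CertM` -/
private def crtC (s n k j : ℕ) (h₀ : PCode) (Wl : List PCode) (fl : List ℕ) (x : List QCode)
    (I : IntCode) (ql : List QCode) (c : HCert) : PCode :=
  lhsCode n (pcTrunc n (spc s n x h₀)) I.2.1.1 I.2.1.2 k (Wl.map fun w => spc s n x w)
    (fl.map fun m => ql.getD m (qnat 0)) c ++
    pcNeg (rhsCode n (pcTrunc n (spc s n x h₀)) I.2.1.2 k j c)

private theorem crt_combo {s n N : ℕ} {Wl : List PCode} (hWl : Wl.length = N)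
    {W : Fin N → Pz s n} (x : List QCode)
    (hW : ∀ i : Fin N, pcPoly n (spc s n x (Wl.getD i [])) = spz (W i) (ptq s x))
    (f : Fin N → ℕ) (ql : List QCode) :
    pcPoly (n + 1) (comboCode n ((List.ofFn f).map fun m => ql.getD m (qnat 0))
      (Wl.map fun w => spc s n x w)) =
      hP (∑ i, C (qval (ql.getD (f i) (qnat 0))) * spz (W i) (ptq s x)) := by
  rw [pcPoly_combo, List.length_map, hWl, Finset.sum_range]
  refine congrArg hP (Finset.sum_congr rfl fun i _ => ?_)
  have e3 : ((List.ofFn f).map fun m => ql.getD m (qnat 0)).getD (i : ℕ) (qnat 0) =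
      ql.getD (f i) (qnat 0) := by
    rw [List.map_ofFn, getD_ofFn]
    rfl
  have e4 : (Wl.map fun w => spc s n x w).getD (i : ℕ) [] =
      spc s n x (Wl.getD (i : ℕ) []) := by
    have hi : (i : ℕ) < Wl.length := by rw [hWl]; exact i.2
    have hi' : (i : ℕ) < (Wl.map fun w => spc s n x w).length := by
      rw [List.length_map]; exact hi
    rw [List.getD_eq_getElem _ _ hi', List.getD_eq_getElem _ _ hi, List.getElem_map]
  rw [e3, e4, hW]

private theorem crt_iff {s n N : ℕ} {h₀ : PCode} {H : Pz s n}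
    (hh₀ : pcPoly (s + n) h₀ = rename finSumFinEquiv H) {Wl : List PCode}
    (hWl : Wl.length = N) {W : Fin N → Pz s n} (x : List QCode)
    (hW : ∀ i : Fin N, pcPoly n (spc s n x (Wl.getD i [])) = spz (W i) (ptq s x))
    (f : Fin N → ℕ) (ql : List QCode) (k j : ℕ) (I : IntCode) (s' K' : ℕ) (A w : PCode)
    (gs : List PCode) :
    pcIsZero (n + 1) (crtC s n k j h₀ Wl (List.ofFn f) x I ql ((s', K'), (A, w), gs)) ↔
      beta n (Polynomial.X ^ s' * (1 + Polynomial.X * polyOf A)) *
        (hP (pcPoly n I.2.1.1) * hP (spz H (ptq s x)) ^ (k + K' + 1) -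
          hP (pcPoly n I.2.1.2) *
            hP (∑ i, C (qval (ql.getD (f i) (qnat 0))) * spz (W i) (ptq s x)) *
            hP (spz H (ptq s x)) ^ (K' + 1)) =
      hP (pcPoly n I.2.1.2) *
        (beta n (Polynomial.X ^ (s' + j)) * pcPoly (n + 1) w +
          divg (spz H (ptq s x)) (k + K') fun l => pcPoly (n + 1) (gs.getD l [])) := by
  have hb : beta n Polynomial.X = X (Fin.last n) := by simp [beta]
  have e2 : (X ⟨n, Nat.lt_succ_self n⟩ : Pt n) = beta n Polynomial.X := by rw [hb]; rfl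
  have hhp : pcPoly (n + 1) (pcTrunc n (spc s n x h₀)) = hP (spz H (ptq s x)) := by
    rw [pcPoly_trunc_hP, pcPoly_spc x hh₀]
  have hsum := crt_combo hWl x hW f ql
  rw [pcIsZero_iff, crtC, pcPoly_append, pcPoly_neg, lhsCode, rhsCode]
  simp only [pcPoly_mul, pcPoly_append, pcPoly_neg, pcPoly_pow, pcPoly_trunc_hP,
    pcPoly_spc x hh₀, hsum, pcPoly_shift_beta, pcPoly_nat, pcPoly_var (Nat.lt_succ_self n),
    pcPoly_divCode n hhp]
  rw [← sub_eq_add_neg, sub_eq_zero, ← sub_eq_add_neg, e2]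
  simp only [map_mul, map_pow, map_add, map_one, Nat.cast_one]

private theorem crt_ex {s n N : ℕ} {h₀ : PCode} {H : Pz s n}
    (hh₀ : pcPoly (s + n) h₀ = rename finSumFinEquiv H) {Wl : List PCode}
    (hWl : Wl.length = N) {W : Fin N → Pz s n} (x : List QCode)
    (hW : ∀ i : Fin N, pcPoly n (spc s n x (Wl.getD i [])) = spz (W i) (ptq s x))
    (f : Fin N → ℕ) (ql : List QCode) (k j : ℕ) (I : IntCode) :
    (∃ c : HCert, pcIsZero (n + 1) (crtC s n k j h₀ Wl (List.ofFn f) x I ql c)) ↔
      CertM (spz H (ptq s x)) k j (fun i => spz (W i) (ptq s x))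
        (fun i => qval (ql.getD (f i) (qnat 0))) (pcPoly n I.2.1.1) (pcPoly n I.2.1.2) := by
  constructor
  · rintro ⟨⟨⟨s', K'⟩, ⟨A, w⟩, gs⟩, h⟩
    exact ⟨s', K', polyOf A, pcPoly (n + 1) w, fun l => pcPoly (n + 1) (gs.getD l []),
      (crt_iff hh₀ hWl x hW f ql k j I s' K' A w gs).1 h⟩
  · rintro ⟨s', K', A, w, g, h⟩
    obtain ⟨Ac, rfl⟩ := exists_polyOf A
    obtain ⟨wc, rfl⟩ := exists_pcPoly w
    choose gc hgc using fun l : Fin n => exists_pcPoly (g l)
    refine ⟨((s', K'), (Ac, wc), List.ofFn gc),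
      (crt_iff hh₀ hWl x hW f ql k j I s' K' Ac wc (List.ofFn gc)).2 ?_⟩
    have hgl : (fun l : Fin n => pcPoly (n + 1) ((List.ofFn gc).getD l [])) = g := by
      funext l
      rw [getD_ofFn, hgc]
    rw [hgl]
    exact h

/-- Certificates for cells.

Proof. `CertC` is an existential statement over `s, K : ℕ`, `A : Polynomial ℚ`, `w : Pt n`, `g : Fin n → Pt n`, which all have codes (`exists_pcPoly`; `polyOf`, Check.lean / DerCode.lean: every polynomial in one variable is `polyOf` of a code), and the identity is `pcIsZero (n + 1) (lhsCode n hc P' Q' k ps qs c ++ pcNeg (rhsCode n hc Q' k j c))` (see `check_iff`, Check.lean, whose proof can be copied: there `hc` is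
`hCode ..`, here it is the code `spc s n x h₀` of `spz (hh (psg F σ)) θ`, `h₀` a code of `rename finSumFinEquiv (hh (psg F σ))`; `ps` is the list of the `spc s n x W₀_i`, `qs` the list of the `ql.getD (f i) (qnat 0)`, `(P', Q')` the codes in `bdInt I`, where `I.1 = F.n`). Primitive recursive: `pr_lhs`, `pr_rhs` (CheckComp.lean), `primrec_bdInt` (TotalComp.lean), `pr_subst` for `spc` (PM/Pr2.lean).
Then `CE.of_primrec` and `CE.ex` for the type `HCert`. The condition `I.1 = F.n` is decidable. -/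
theorem certC_ce {s : ℕ} (F : Sup s) (σ : Fin F.r → Bool) (D : Bas s F.n) (f : Fin D.N → ℕ) :
    CE fun p : List QCode × (IntCode × List QCode) =>
      p.2.1.1 = F.n ∧ CertC F σ D (ptq s p.1) p.2.1 fun i => qval (p.2.2.getD (f i) (qnat 0)) := by
  obtain ⟨h₀, hh₀⟩ := exists_pcPoly (rename finSumFinEquiv (hh (psg F σ)))
  obtain ⟨Wl, hWl, hW⟩ := exists_list D.W
  have c1 : PrimrecPred fun p : List QCode × (IntCode × List QCode) => p.2.1.1 = F.n :=
    Primrec.eq.comp (pr_iv.comp (Primrec.fst.comp Primrec.snd)) (Primrec.const F.n)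
  have hx : Primrec fun y : (List QCode × (IntCode × List QCode)) × HCert => y.1.1 :=
    Primrec.fst.comp Primrec.fst
  have hI : Primrec fun y : (List QCode × (IntCode × List QCode)) × HCert => bdInt y.1.2.1 :=
    primrec_bdInt.comp (Primrec.fst.comp (Primrec.snd.comp Primrec.fst))
  have hq : Primrec fun y : (List QCode × (IntCode × List QCode)) × HCert => y.1.2.2 :=
    Primrec.snd.comp (Primrec.snd.comp Primrec.fst)
  have hc : Primrec fun y : (List QCode × (IntCode × List QCode)) × HCert => y.2 := Primrec.snd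
  have hPr : Primrec fun y : (List QCode × (IntCode × List QCode)) × HCert =>
      (bdInt y.1.2.1).2.1.1 := pr_iP.comp hI
  have hQr : Primrec fun y : (List QCode × (IntCode × List QCode)) × HCert =>
      (bdInt y.1.2.1).2.1.2 := pr_iQ.comp hI
  have hhc : Primrec fun y : (List QCode × (IntCode × List QCode)) × HCert =>
      pcTrunc F.n (spc s F.n y.1.1 h₀) :=
    pr_trunc (Primrec.const F.n) (pa_spc s F.n hx (Primrec.const h₀))
  have hps : Primrec fun y : (List QCode × (IntCode × List QCode)) × HCert =>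
      Wl.map fun w => spc s F.n y.1.1 w :=
    Primrec.list_map (Primrec.const Wl)
      (pa_spc s F.n (hx.comp Primrec.fst) Primrec.snd).to₂
  have hqs : Primrec fun y : (List QCode × (IntCode × List QCode)) × HCert =>
      (List.ofFn f).map fun m => y.1.2.2.getD m (qnat 0) :=
    Primrec.list_map (Primrec.const (List.ofFn f))
      ((Primrec.list_getD (qnat 0)).comp (hq.comp Primrec.fst) Primrec.snd).to₂
  have c2 : PrimrecPred fun y : (List QCode × (IntCode × List QCode)) × HCert =>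
      pcIsZero (F.n + 1)
        (crtC s F.n D.k D.j h₀ Wl (List.ofFn f) y.1.1 (bdInt y.1.2.1) y.1.2.2 y.2) :=
    pr_isZero (Primrec.const (F.n + 1)) (pr_append
      (pr_lhs (Primrec.const F.n) hhc hPr hQr (Primrec.const D.k) hps hqs hc)
      (pr_neg (pr_rhs (Primrec.const F.n) hhc hQr (Primrec.const D.k) (Primrec.const D.j) hc)))
  exact ((CE.of_primrec c1).and (CE.of_primrec c2).ex).congr fun p =>
    and_congr_right fun _ =>
      crt_ex hh₀ hWl p.1 (hW p.1) f p.2.2 D.k D.j (bdInt p.2.1)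

/-- Representations.

Proof. `RepN` is a finite disjunction over `k` of `I.1 = (F k).n` and a finite conjunction over the cells `l` (`CE.fin_ex`, `CE.fin_all`) of disjunctions; if `l.1 = k` then `(F l.1).n = I.1`, so `CertC` may be replaced by `I.1 = (F l.1).n ∧ CertC` (`certC_ce`); the quantifiers over `t ∈ I.2.2` by `CE.all_mem`, `CE.ex_mem` (with `sgn_ce` composed with projections);
the conditions `q ⟨l, i⟩ = 0` are primitive recursive (`qval_eq_zero_iff`); `CE.const` for the conditions `l.1 = k`, `l.1 ≠ k`. -/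
theorem rep_ce {s μ : ℕ} {F : Fin μ → Sup s} (D : (l : Lam F) → Bas s (F l.1).n) :
    CE fun p : List QCode × (IntCode × List QCode) =>
      RepN D (ptq s p.1) p.2.1 fun y => qval (p.2.2.getD (Fintype.equivFin (Ix D) y) (qnat 0)) := by
  have hS : Primrec fun p : List QCode × (IntCode × List QCode) => p.2.1.2.2 :=
    pr_iS.comp (Primrec.fst.comp Primrec.snd)
  have hpt : Primrec fun y : (List QCode × (IntCode × List QCode)) × (Bool × PCode) =>
      (y.1.1, y.2.2) :=
    Primrec.pair (Primrec.fst.comp Primrec.fst) (Primrec.snd.comp Primrec.snd)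
  have hsg : ∀ (l : Lam F) (b : Bool),
      CE fun y : (List QCode × (IntCode × List QCode)) × (Bool × PCode) =>
        SgnT (F l.1) l.2 (ptq s y.1.1) b (pcPoly (F l.1).n y.2.2) := fun l b =>
    (sgn_ce (F l.1) l.2 b).comp hpt
  have hz : ∀ y : Ix D, PrimrecPred fun p : List QCode × (IntCode × List QCode) =>
      qval (p.2.2.getD (Fintype.equivFin (Ix D) y) (qnat 0)) = 0 := by
    intro y
    have h1 : Primrec fun p : List QCode × (IntCode × List QCode) =>
        p.2.2.getD (Fintype.equivFin (Ix D) y : ℕ) (qnat 0) :=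
      (Primrec.list_getD (qnat 0)).comp (Primrec.snd.comp Primrec.snd) (Primrec.const _)
    exact (Primrec.eq.comp (Primrec.fst.comp (Primrec.fst.comp h1))
      (Primrec.snd.comp (Primrec.fst.comp h1))).of_eq fun p => (qval_eq_zero_iff _).symm
  have hk : ∀ k : Fin μ, CE fun p : List QCode × (IntCode × List QCode) => p.2.1.1 = (F k).n :=
    fun k => CE.of_primrec (Primrec.eq.comp (pr_iv.comp (Primrec.fst.comp Primrec.snd))
      (Primrec.const (F k).n))
  have h1 : ∀ (k : Fin μ) (l : Lam F), CE fun p : List QCode × (IntCode × List QCode) =>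
      (l.1 = k ∧ (∀ t ∈ p.2.1.2.2, SgnT (F l.1) l.2 (ptq s p.1) true (pcPoly (F l.1).n t.2)) ∧
        (p.2.1.1 = (F l.1).n ∧ CertC (F l.1) l.2 (D l) (ptq s p.1) p.2.1 fun i =>
          qval (p.2.2.getD (Fintype.equivFin (Ix D) ⟨l, i⟩) (qnat 0)))) ∨
      ((l.1 ≠ k ∨ ∃ t ∈ p.2.1.2.2, SgnT (F l.1) l.2 (ptq s p.1) false (pcPoly (F l.1).n t.2)) ∧
        ∀ i, qval (p.2.2.getD (Fintype.equivFin (Ix D) ⟨l, i⟩) (qnat 0)) = 0) := by
    intro k l
    exact ((CE.const (l.1 = k)).and (((hsg l true).all_mem hS).and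
      (certC_ce (F l.1) l.2 (D l) fun i => Fintype.equivFin (Ix D) ⟨l, i⟩))).or
      (((CE.const (l.1 ≠ k)).or ((hsg l false).ex_mem hS)).and
        (CE.fin_all fun i => CE.of_primrec (hz ⟨l, i⟩)))
  refine (CE.fin_ex fun k => (hk k).and (CE.fin_all fun l => h1 k l)).congr fun p => ?_
  obtain ⟨x, I, ql⟩ := p
  show (∃ k : Fin μ, I.1 = (F k).n ∧ ∀ l : Lam F, _) ↔ ∃ k : Fin μ, I.1 = (F k).n ∧ ∀ l : Lam F, _
  refine exists_congr fun k => and_congr_right fun hIk => forall_congr' fun l => ?_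
  refine or_congr ?_ Iff.rfl
  constructor
  · rintro ⟨h2, h3, -, h4⟩
    exact ⟨h2, h3, h4⟩
  · rintro ⟨h2, h3, h4⟩
    exact ⟨h2, h3, by rw [hIk, h2], h4⟩

end Pool.Agent.Lib.MP_bbe012_lc.PN
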